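import Pool.Agent.H18.Pr.Kap
import Pool.Agent.H18.Cub.Trans

/-!
# Module TransR (PR): forms in `R + 2` variables and polynomials in `z_0, …, z_R`

Compare with `Pool.Agent.H18.Cub.Trans` (the case `R = 1`).
-/

namespace Pool.Agent.H18.Pr

open Finset Pool.Agent.H18.Ex Pool.Agent.H18.Cub Pool.Agent.H18.Fat

variable {R : ℕ}

/-- The coordinates `x_k` as polynomials in `z`: `x_0 = z_0`, `x_{k+1} = z_{k+1} + x_k^e`. -/
noncomputable def yyN (R e : ℕ) : ℕ → MvPolynomial (Fin (R + 1)) ℂ
  | 0 => MvPolynomial.X 0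
  | k + 1 => (if h : k + 1 < R + 1 then MvPolynomial.X ⟨k + 1, h⟩ else 0) + yyN R e k ^ e

/-- The coordinates `x_k` of the point `z`. -/
noncomputable def phN (R e : ℕ) (z : Fin (R + 1) → ℂ) : ℕ → ℂ
  | 0 => z 0
  | k + 1 => (if h : k + 1 < R + 1 then z ⟨k + 1, h⟩ else 0) + phN R e z k ^ e

/-- `F(X_0, …, X_{R+1}) ↦ F(1, x_0, …, x_R)`, as a polynomial in `z`. -/
noncomputable def deR (R e : ℕ) :
    MvPolynomial (Fin (R + 1 + 1)) ℂ →ₐ[ℂ] MvPolynomial (Fin (R + 1)) ℂ :=
  MvPolynomial.aeval (Fin.cons 1 fun i : Fin (R + 1) => yyN R e i.val)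

/-- The coordinate `x_k` of a point differs from its value by an element of the ideal of the
point. -/
theorem transR_yyN_mem (e : ℕ) (z : Fin (R + 1) → ℂ) (k : ℕ) :
    yyN R e k - MvPolynomial.C (phN R e z k) ∈ (Ideal.span (Set.range fun j =>
      (MvPolynomial.X j - MvPolynomial.C (z j) : MvPolynomial (Fin (R + 1)) ℂ))) := by
  induction k with
  | zero => exact Ideal.subset_span ⟨0, rfl⟩
  | succ k ih =>
    by_cases h : k + 1 < R + 1
    · have h0 : yyN R e (k + 1) - MvPolynomial.C (phN R e z (k + 1)) =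
          (MvPolynomial.X ⟨k + 1, h⟩ - MvPolynomial.C (z ⟨k + 1, h⟩)) +
            (yyN R e k ^ e - MvPolynomial.C (phN R e z k) ^ e) := by
        simp only [yyN, phN, dif_pos h, map_add, map_pow]
        ring
      rw [h0]
      exact Ideal.add_mem _ (Ideal.subset_span ⟨⟨k + 1, h⟩, rfl⟩)
        (Ideal.mem_of_dvd _ (sub_dvd_pow_sub_pow _ _ e) ih)
    · have h0 : yyN R e (k + 1) - MvPolynomial.C (phN R e z (k + 1)) =
          yyN R e k ^ e - MvPolynomial.C (phN R e z k) ^ e := by
        simp only [yyN, phN, dif_neg h, map_add, map_pow, map_zero]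
        ring
      rw [h0]
      exact Ideal.mem_of_dvd _ (sub_dvd_pow_sub_pow _ _ e) ih

/-- Orders of vanishing (use `vanishesToOrder_iff_mem_ideal_pow`, as in `deh_vanish`). -/
theorem deR_vanish (e : ℕ) (F : MvPolynomial (Fin (R + 1 + 1)) ℂ) (z : Fin (R + 1) → ℂ) (m : ℕ)
    (h : VanishesToOrder F (Fin.cons 1 fun i : Fin (R + 1) => phN R e z i.val) m)
    (α : Fin (R + 1) → ℕ) (hα : ∑ i, α i < m) : tay (deR R e F) z α = 0 := by
  rw [vanishesToOrder_iff_mem_ideal_pow] at h
  set J : Ideal (MvPolynomial (Fin (R + 1)) ℂ) := Ideal.span (Set.range fun j =>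
    (MvPolynomial.X j - MvPolynomial.C (z j) : MvPolynomial (Fin (R + 1)) ℂ)) with hJ
  have hC : ∀ c : ℂ, deR R e (MvPolynomial.C c) = MvPolynomial.C c := fun c => (deR R e).commutes c
  have hle : Ideal.map (deR R e) (Ideal.span (Set.range fun j =>
      (MvPolynomial.X j - MvPolynomial.C ((Fin.cons 1 fun i : Fin (R + 1) => phN R e z i.val :
        Fin (R + 1 + 1) → ℂ) j) : MvPolynomial (Fin (R + 1 + 1)) ℂ))) ≤ J := by
    rw [Ideal.map_span, Ideal.span_le]
    rintro _ ⟨_, ⟨j, rfl⟩, rfl⟩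
    refine Fin.cases ?_ (fun i => ?_) j
    · have h0 : deR R e (MvPolynomial.X 0 - MvPolynomial.C 1) = 0 := by
        rw [map_sub, hC]
        simp [deR]
      change deR R e (MvPolynomial.X 0 - MvPolynomial.C 1) ∈ J
      rw [h0]
      exact J.zero_mem
    · have h0 : deR R e (MvPolynomial.X i.succ - MvPolynomial.C (phN R e z i.val)) =
          yyN R e i.val - MvPolynomial.C (phN R e z i.val) := by
        rw [map_sub, hC]
        simp [deR]
      change deR R e (MvPolynomial.X i.succ - MvPolynomial.C (phN R e z i.val)) ∈ J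
      rw [h0]
      exact transR_yyN_mem e z i.val
  have h1 : deR R e F ∈ J ^ m := by
    have h2 := Ideal.mem_map_of_mem (deR R e) h
    rw [Ideal.map_pow] at h2
    exact Ideal.pow_right_mono hle m h2
  have h2 : VanishesToOrder (deR R e F) z m := by
    rw [vanishesToOrder_iff_mem_ideal_pow]
    exact h1
  refine h2 (Finsupp.equivFunOnFinite.symm α) ?_
  rw [Finsupp.degree_eq_sum]
  simpa using hα

/-- `F(1, x_0, …, x_R)`. -/
noncomputable def transR_one (R : ℕ) :
    MvPolynomial (Fin (R + 1 + 1)) ℂ →ₐ[ℂ] MvPolynomial (Fin (R + 1)) ℂ :=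
  MvPolynomial.aeval (Fin.cons 1 fun i : Fin (R + 1) => MvPolynomial.X i)

theorem transR_Th_yyN (e : ℕ) (u : Fin (R + 1)) (hu : u.val = R) (k : ℕ) (hk : k < R + 1) :
    Th e 0 u 0 (yyN R e k) = MvPolynomial.X ⟨k, hk⟩ := by
  induction k with
  | zero => simp [yyN, Th]
  | succ k ih =>
    have h1 : Th e 0 u 0 (yyN R e (k + 1)) =
        Th e 0 u 0 (MvPolynomial.X ⟨k + 1, hk⟩) + Th e 0 u 0 (yyN R e k) ^ e := by
      rw [← map_pow, ← map_add]
      simp only [yyN, dif_pos hk]
    rw [h1, ih (by omega)]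
    have h2 : Th e 0 u 0 (MvPolynomial.X (⟨k + 1, hk⟩ : Fin (R + 1))) =
        MvPolynomial.X ⟨k + 1, hk⟩ - MvPolynomial.X ⟨k, by omega⟩ ^ e := by
      simp only [Th, MvPolynomial.aeval_X]
      rw [if_neg, if_pos]
      · rfl
      · constructor
        · rw [Fin.lt_def]
          simp
        · rw [Fin.le_def]
          simp only
          omega
      · intro h
        have := congrArg Fin.val h
        simp at this
    rw [h2]
    ring

theorem transR_Th_deR (e : ℕ) (u : Fin (R + 1)) (hu : u.val = R)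
    (F : MvPolynomial (Fin (R + 1 + 1)) ℂ) : Th e 0 u 0 (deR R e F) = transR_one R F := by
  have h : (Th e 0 u 0).comp (deR R e) = transR_one R := by
    refine MvPolynomial.algHom_ext (fun i => ?_)
    refine Fin.cases ?_ (fun i => ?_) i
    · simp [deR, transR_one]
    · simp only [AlgHom.comp_apply, deR, transR_one, MvPolynomial.aeval_X, Fin.cons_succ]
      exact transR_Th_yyN e u hu i.val i.isLt
  exact congrArg (fun φ : MvPolynomial (Fin (R + 1 + 1)) ℂ →ₐ[ℂ] MvPolynomial (Fin (R + 1)) ℂ =>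
    φ F) h

/-- The exponent of the dehomogenised monomial. -/
noncomputable def transR_exp (s : Fin (R + 1 + 1) →₀ ℕ) : Fin (R + 1) →₀ ℕ :=
  Finsupp.equivFunOnFinite.symm fun i => s i.succ

theorem transR_one_monomial (s : Fin (R + 1 + 1) →₀ ℕ) (c : ℂ) :
    transR_one R (MvPolynomial.monomial s c) = MvPolynomial.monomial (transR_exp s) c := by
  rw [transR_one, MvPolynomial.aeval_monomial, Finsupp.prod_fintype _ _ (fun i => pow_zero _),
    Fin.prod_univ_succ, MvPolynomial.monomial_eq,
    Finsupp.prod_fintype _ _ (fun i => pow_zero _), MvPolynomial.algebraMap_eq]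
  simp [transR_exp]

theorem transR_one_eq (F : MvPolynomial (Fin (R + 1 + 1)) ℂ) :
    transR_one R F = ∑ s ∈ F.support, MvPolynomial.monomial (transR_exp s) (F.coeff s) := by
  conv_lhs => rw [F.as_sum]
  rw [map_sum]
  exact sum_congr rfl fun s _ => transR_one_monomial s _

theorem transR_degree {d : ℕ} {F : MvPolynomial (Fin (R + 1 + 1)) ℂ} (hF : F.IsHomogeneous d)
    {s : Fin (R + 1 + 1) →₀ ℕ} (hs : F.coeff s ≠ 0) : s 0 + ∑ i, transR_exp s i = d := by
  have h1 := hF hs
  rw [← h1, Finsupp.weight_apply, Finsupp.sum_fintype _ _ (fun i => by simp),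
    Fin.sum_univ_succ (n := R + 1)]
  simp [transR_exp]

/-- The degree: `Th e 0 u 0 (deR R e F) = F(1, x_0, …, x_R)` for `u = R`; use `cost_last`. -/
theorem deR_cost (e d : ℕ) (u : Fin (R + 1)) (hu : u.val = R)
    (F : MvPolynomial (Fin (R + 1 + 1)) ℂ) (hF : F.IsHomogeneous d) :
    ∀ α : Fin (R + 1) →₀ ℕ, α ∈ (Th e 0 u 0 (deR R e F)).support → cost e u α ≤ d := by
  intro α hα
  rw [transR_Th_deR e u hu, transR_one_eq] at hα
  have h1 := MvPolynomial.support_sum hα
  obtain ⟨s, hs, h2⟩ := mem_biUnion.1 h1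
  have h3 := MvPolynomial.support_monomial_subset h2
  rw [mem_singleton] at h3
  subst h3
  rw [cost_last e u hu]
  have h4 := transR_degree hF (MvPolynomial.mem_support_iff.1 hs)
  omega

theorem deR_injective (e d : ℕ) (F : MvPolynomial (Fin (R + 1 + 1)) ℂ) (hF : F.IsHomogeneous d)
    (h : deR R e F = 0) : F = 0 := by
  have h0 : transR_one R F = 0 := by
    rw [← transR_Th_deR e (Fin.last R) rfl, h, map_zero]
  by_contra hne
  obtain ⟨s, hs⟩ := MvPolynomial.ne_zero_iff.1 hne
  have h1 : (transR_one R F).coeff (transR_exp s) = F.coeff s := by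
    rw [transR_one_eq, MvPolynomial.coeff_sum, sum_eq_single s]
    · rw [MvPolynomial.coeff_monomial, if_pos rfl]
    · intro t ht hts
      rw [MvPolynomial.coeff_monomial, if_neg]
      intro heq
      apply hts
      have h2 := transR_degree hF (MvPolynomial.mem_support_iff.1 ht)
      have h3 := transR_degree hF hs
      rw [heq] at h2
      ext i
      refine Fin.cases ?_ (fun i => ?_) i
      · omega
      · have h4 := DFunLike.congr_fun heq i
        simpa [transR_exp] using h4
    · intro hns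
      exact absurd (MvPolynomial.mem_support_iff.2 hs) hns
  rw [h0, MvPolynomial.coeff_zero] at h1
  exact hs h1.symm

/-- The points `z = (x, 0, …, 0)` are the points `x_k = x^(e^k)`. -/
theorem phN_ptv (e : ℕ) (he : 1 ≤ e) (x : ℂ) (k : ℕ) : phN R e (ptv 0 x) k = x ^ e ^ k := by
  have _ := he
  induction k with
  | zero => simp [phN, ptv]
  | succ k ih =>
    have h1 : phN R e (ptv 0 x) (k + 1) = phN R e (ptv 0 x) k ^ e := by
      simp only [phN]
      by_cases h : k + 1 < R + 1
      · rw [dif_pos h]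
        have h2 : ptv (0 : Fin (R + 1)) x ⟨k + 1, h⟩ = 0 := by
          simp only [ptv]
          rw [if_neg]
          intro h3
          have := congrArg Fin.val h3
          simp at this
        rw [h2, zero_add]
      · rw [dif_neg h, zero_add]
    rw [h1, ih, ← pow_mul, pow_succ]

end Pool.Agent.H18.Pr
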