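import Pool.Agent.H18.Pr.AsmM
import Pool.Agent.H18.Pr.TransR
import Pool.Agent.H18.Cub.FinalC

/-!
# Module FinalR (PR): many large multiplicities in `ℙ^r`
-/

namespace Pool.Agent.H18.Pr

open Finset Pool.Agent.H18.Ex Pool.Agent.H18.Cub Pool.Agent.H18.Fat

/-- The multiplicities outside `J` and the simple points. -/
def kkR {k : ℕ} (m : Fin k → ℕ) (J : Finset (Fin k)) (r : ℕ) :
    {i : Fin k // i ∉ J} ⊕ Fin r → ℕ :=
  Sum.elim (fun i => m i.1) fun _ => 1

/-- A special configuration. -/
theorem special_of_Fk {R t s k d : ℕ} (u : Fin (R + 1)) (hu : u.val = R) (m : Fin k → ℕ)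
    (J : Finset (Fin k))
    (β : Fin t ⊕ Fin s → Option (Fin k)) (hJβ : ∀ i ∈ J, ∃ b, β b = some i)
    (hβJ : ∀ b i, β b = some i → i ∈ J)
    (hinj : ∀ b b' i, β b = some i → β b' = some i → b = b')
    (n : Fin t ⊕ Fin s → ℕ) (N : Option (Fin t) → ℕ)
    (hmu : ∀ b, mu n N b = (β b).elim 0 m) (hdd : dd N = d) (r : ℕ)
    (h : Fk (WM u n N) ((univ : Finset ({i : Fin k // i ∉ J} ⊕ Fin r)).val.map (kkR m J r))) :
    ∃ p₀ : Fin k → Fin (R + 1 + 1) → ℂ, (∀ i, p₀ i 0 = 1) ∧
      Module.finrank ℂ (fatForms (R + 1) d p₀ m) ≤ r := by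
  classical
  rw [Fk_iff (gM t u), Multiset.map_map, GMP_iff] at h
  obtain ⟨pos, hpos⟩ := h
  let p₀ : Fin k → Fin (R + 1 + 1) → ℂ := fun i =>
    if hi : i ∈ J then
      Fin.cons 1 fun j : Fin (R + 1) =>
        phN R (t + 1) (ptv 0 ((xx (hJβ i hi).choose : ℕ) : ℂ)) j.val
    else Fin.cons 1 fun j : Fin (R + 1) => phN R (t + 1) (pos (Sum.inl ⟨i, hi⟩)) j.val
  refine ⟨p₀, fun i => ?_, ?_⟩
  · simp only [p₀]
    split_ifs <;> rfl
  let Ψ : fatForms (R + 1) d p₀ m →ₗ[ℂ] (Fin r → ℂ) :=
    { toFun := fun F j => tay (deR R (t + 1) F.1) (pos (Sum.inr j)) 0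
      map_add' := fun F G => by
        funext j
        simp only [Submodule.coe_add, map_add, tay_add, Pi.add_apply]
      map_smul' := fun c F => by
        funext j
        simp only [Submodule.coe_smul, map_smul, tay_smul, RingHom.id_apply, Pi.smul_apply,
          smul_eq_mul, Algebra.algebraMap_self] }
  have hΨ : Function.Injective Ψ := by
    rw [← LinearMap.ker_eq_bot, LinearMap.ker_eq_bot']
    intro F hF
    have hFh : F.1.IsHomogeneous d := F.2.1
    apply Subtype.ext
    change F.1 = 0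
    apply deR_injective (t + 1) d F.1 hFh
    apply hpos
    · refine ⟨fun i hi => ?_, ?_, ?_⟩
      · exfalso
        rcases hi with hi | hi
        · exact absurd hi (Nat.not_lt_zero _)
        · have := i.isLt
          rw [Fin.lt_def, hu] at hi
          omega
      · intro α hα
        rw [hdd]
        exact deR_cost (t + 1) d u hu F.1 hFh α hα
      · intro b α hα
        rw [hmu b] at hα
        rcases hb : β b with _ | i
        · rw [hb] at hα
          exact absurd hα (Nat.not_lt_zero _)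
        · rw [hb] at hα
          have hi := hβJ b i hb
          have h1 := F.2.2 i
          have h2 : p₀ i = Fin.cons 1 fun j : Fin (R + 1) =>
              phN R (t + 1) (ptv 0 ((xx b : ℕ) : ℂ)) j.val := by
            simp only [p₀]
            rw [dif_pos hi, hinj _ b i (hJβ i hi).choose_spec hb]
          rw [h2] at h1
          exact deR_vanish (t + 1) F.1 _ (m i) h1 α hα
    · rintro (i | j)
      · have h1 := F.2.2 i.1
        have h2 : p₀ i.1 = Fin.cons 1 fun j : Fin (R + 1) =>
            phN R (t + 1) (pos (Sum.inl i)) j.val := by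
          simp only [p₀]
          rw [dif_neg i.2]
        rw [h2] at h1
        intro α hα
        exact deR_vanish (t + 1) F.1 _ (m i.1) h1 α hα
      · intro α hα
        have hα0 : α = 0 := by
          change ∑ i, α i < 1 at hα
          have h2 : ∑ i, α i = 0 := by omega
          rw [sum_eq_zero_iff] at h2
          funext i
          exact h2 i (mem_univ _)
        subst hα0
        exact congrFun hF j
  have := LinearMap.finrank_le_finrank_of_injective hΨ
  rwa [Module.finrank_fintype_fun_eq_card, Fintype.card_fin] at this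

/-- The sum over `J` and the other points. -/
theorem sum_split {k : ℕ} (J : Finset (Fin k)) (f : Fin k → ℤ) :
    ∑ i, f i = ∑ i ∈ J, f i + ∑ i ∈ univ.filter (fun i => i ∉ J), f i := by
  classical
  rw [← sum_filter_add_sum_filter_not univ (fun i => i ∈ J)]
  congr 1
  apply sum_congr _ fun _ _ => rfl
  ext i
  simp

/-- Many large multiplicities in `ℙ^r`, from the exactness of the main family. -/
theorem many_large_of (R t s M D : ℕ) (ht : 1 ≤ t) (hs : 1 ≤ s)
    (hts : t + s = (t + 1) ^ (R + 1)) (u : Fin (R + 1)) (hu : u.val = R) (hM : 1 ≤ M)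
    (hEx : ExM t s u M D) (k d : ℕ) (m : Fin k → ℕ)
    (J : Finset (Fin k)) (hJ : J.card ≤ (t + 1) ^ (R + 1)) (hsmall : ∀ i, i ∉ J → m i ≤ M)
    (hsum : ∀ S ⊆ J, S.card ≤ t + 1 → ∑ i ∈ S, m i + (R * t - 2) ≤ d)
    (hd : D ≤ d) (hdJ : ∀ i ∈ J, m i + D ≤ d)
    (hcurve : ∑ i ∈ J, m i + D ≤ (t + 1) ^ R * d) :
    ForGeneralPoints (R + 1) k fun p => ImposesMaximalConditions (R + 1) d p m := by
  classical
  obtain ⟨β, c, hβJ, hJβ, hinj, hc1, hc2, j₀, hj₀⟩ :=
    exists_sorted m J t s hs (by rw [hts]; exact hJ)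
  set mB : Fin t ⊕ Fin s → ℕ := fun b => (β b).elim 0 m with hmB
  -- the sum of the `t + 1` largest
  have hSum : ∑ l : Fin t, mB (.inl l) + c + (R * t - 2) ≤ d := by
    let T : Finset (Fin t ⊕ Fin s) := (univ : Finset (Fin t)).map ⟨Sum.inl, Sum.inl_injective⟩ ∪
      {Sum.inr j₀}
    let S : Finset (Fin k) := J.filter fun i => ∃ b ∈ T, β b = some i
    have hTsum : ∑ b ∈ T, mB b = ∑ l : Fin t, mB (.inl l) + c := by
      rw [sum_union, sum_map, sum_singleton]
      · have h1 : mB (Sum.inr j₀) = c := hj₀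
        rw [h1]
        rfl
      · rw [disjoint_singleton_right, mem_map]
        rintro ⟨l, _, h⟩
        exact absurd h (by simp)
    have hTS : ∑ b ∈ T, mB b ≤ ∑ i ∈ S, m i := by
      have h1 : ∑ b ∈ T, mB b = ∑ b ∈ T.filter (fun b => β b ≠ none), mB b := by
        rw [sum_filter_of_ne]
        intro b _ hb h0
        apply hb
        simp only [hmB]
        rw [h0]
        rfl
      have h2 : ∑ b ∈ T.filter (fun b => β b ≠ none), mB b =
          ∑ o ∈ (T.filter (fun b => β b ≠ none)).image β, o.elim 0 m := by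
        rw [sum_image]
        intro b hb b' hb' hbb
        obtain ⟨i, hi⟩ := Option.ne_none_iff_exists'.1 (mem_filter.1 hb).2
        exact hinj b b' i hi (hbb ▸ hi)
      have h3 : ∑ i ∈ S, m i = ∑ o ∈ S.map ⟨some, Option.some_injective _⟩, o.elim 0 m := by
        rw [sum_map]
        rfl
      rw [h1, h2, h3]
      apply sum_le_sum_of_subset
      intro o ho
      obtain ⟨b, hb, rfl⟩ := mem_image.1 ho
      obtain ⟨hbT, hb0⟩ := mem_filter.1 hb
      obtain ⟨i, hi⟩ := Option.ne_none_iff_exists'.1 hb0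
      rw [mem_map]
      exact ⟨i, mem_filter.2 ⟨hβJ b i hi, b, hbT, hi⟩, hi.symm⟩
    have hScard : S.card ≤ t + 1 := by
      have h1 : T.card ≤ t + 1 := by
        refine (card_union_le _ _).trans ?_
        rw [card_map, card_univ, Fintype.card_fin, card_singleton]
      refine le_trans ?_ h1
      have h2 : S.map ⟨some, Option.some_injective _⟩ ⊆ T.image β := by
        intro o ho
        obtain ⟨i, hi, rfl⟩ := mem_map.1 ho
        obtain ⟨b, hb, hbi⟩ := (mem_filter.1 hi).2
        exact mem_image.2 ⟨b, hb, hbi⟩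
      have h3 := card_le_card h2
      rw [card_map] at h3
      exact h3.trans card_image_le
    have := hsum S (filter_subset _ _) hScard
    rw [hTsum] at hTS
    omega
  set z : Fin t := ⟨0, ht⟩ with hz
  obtain ⟨nH, hnH⟩ := Nat.exists_eq_add_of_le (show ∑ l : Fin t, mB (.inl l) + c ≤ d by omega)
  let N : Option (Fin t) → ℕ := fun
    | none => c
    | some l => (mB (.inl l) - c) + if l = z then nH else 0
  let n : Fin t ⊕ Fin s → ℕ := fun
    | .inl l => if l = z then nH else 0
    | .inr j => c - mB (.inr j)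
  have hmu : ∀ b, mu n N b = mB b := by
    rintro (l | j)
    · have h1 := hc1 l
      change c + ((mB (.inl l) - c) + if l = z then nH else 0) - (if l = z then nH else 0) =
        mB (.inl l)
      change c ≤ mB (.inl l) at h1
      omega
    · have h1 := hc2 j
      change c - (c - mB (.inr j)) = mB (.inr j)
      change mB (.inr j) ≤ c at h1
      omega
  have hsumN : ∑ l : Fin t, N (some l) + t * c = ∑ l : Fin t, mB (.inl l) + nH ∧
      nH ≤ ∑ l : Fin t, N (some l) := by
    have h1 : ∑ l : Fin t, N (some l) = ∑ l : Fin t, (mB (.inl l) - c) + nH := by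
      change ∑ l : Fin t, ((mB (.inl l) - c) + if l = z then nH else 0) = _
      rw [sum_add_distrib, sum_ite_eq' univ z fun _ => nH, if_pos (mem_univ _)]
    have h2 : ∑ l : Fin t, (mB (.inl l) - c) + t * c = ∑ l : Fin t, mB (.inl l) := by
      have h3 : t * c = ∑ _l : Fin t, c := by simp
      rw [h3, ← sum_add_distrib]
      refine sum_congr rfl fun l _ => ?_
      have := hc1 l
      change c ≤ mB (.inl l) at this
      omega
    omega
  obtain ⟨hsumN, hnHN⟩ := hsumN
  have hdd : dd N = d := by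
    unfold dd
    change (t + 1) * c + ∑ l : Fin t, N (some l) = d
    have h1 : (t + 1) * c = t * c + c := by ring
    omega
  -- the sum over the big points
  have hbig : ∑ b, mB b = ∑ i ∈ J, m i :=
    sum_big J β hJβ hβJ hinj (fun o => o.elim 0 m) rfl
  have hmBd : ∀ b, mB b + D ≤ d := by
    intro b
    rcases hb : β b with _ | i
    · have : mB b = 0 := by
        simp only [hmB]
        rw [hb]
        rfl
      omega
    · have h1 := hdJ i (hβJ b i hb)
      have : mB b = m i := by
        simp only [hmB]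
        rw [hb]
        rfl
      omega
  have hMg : Mg R D n N := by
    refine ⟨?_, ?_, ?_, ?_⟩
    · omega
    · rw [hdd, sum_congr rfl fun b _ => hmu b, hbig]
      exact hcurve
    · intro l
      rw [hdd, hmu]
      exact hmBd (.inl l)
    · rw [hdd]
      exact hd
  -- the simple points
  set R₀ : ℤ := ((d + (R + 1)).choose (R + 1) : ℤ) -
    ∑ i, ((m i + (R + 1) - 1).choose (R + 1) : ℤ) with hR₀
  obtain ⟨r, hr⟩ : ∃ r : ℕ, (r : ℤ) = max 0 R₀ := ⟨(max 0 R₀).toNat, by
    rw [Int.toNat_of_nonneg (le_max_left _ _)]⟩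
  have hFk : Fk (WM u n N)
      ((univ : Finset ({i : Fin k // i ∉ J} ⊕ Fin r)).val.map (kkR m J r)) := by
    apply hEx n N hMg
    · intro x hx
      obtain ⟨i, _, rfl⟩ := Multiset.mem_map.1 hx
      rcases i with i | j
      · exact hsmall i.1 i.2
      · exact hM
    · rw [Multiset.map_map, hdd, hu, Nat.sub_self]
      change (d + (R + 1)).choose (R + 1) ≤ ∑ b, ell (R + 1) (mu n N b) +
        ∑ i : {i : Fin k // i ∉ J} ⊕ Fin r, (ell (R + 1) ∘ kkR m J r) i
      rw [Fintype.sum_sum_type (ell (R + 1) ∘ kkR m J r)]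
      have h1 : ∑ j : Fin r, (ell (R + 1) ∘ kkR m J r) (Sum.inr j) = r := by
        simp [kkR, ell_one]
      have h2 : ∑ i : {i : Fin k // i ∉ J}, (ell (R + 1) ∘ kkR m J r) (Sum.inl i) =
          ∑ i ∈ univ.filter (fun i => i ∉ J), ell (R + 1) (m i) := by
        rw [sum_subtype (p := fun i => i ∉ J) (univ.filter fun i => i ∉ J) (by simp)
          (fun i => ell (R + 1) (m i))]
        rfl
      have h4 := sum_big J β hJβ hβJ hinj (fun o => ell (R + 1) (o.elim 0 m))
        (ell_zero (by omega))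
      have h5 : ∑ b, ell (R + 1) (mu n N b) = ∑ i ∈ J, ell (R + 1) (m i) := by
        refine (sum_congr rfl fun b _ => ?_).trans h4
        rw [hmu b]
      have h6 := sum_split J fun i => ((m i + (R + 1) - 1).choose (R + 1) : ℤ)
      have h7 : R₀ ≤ r := by
        rw [hr]
        exact le_max_right _ _
      rw [h1, h2, h5]
      have h8 : ∑ i ∈ J, ((m i + (R + 1) - 1).choose (R + 1) : ℤ) =
          ((∑ i ∈ J, ell (R + 1) (m i) : ℕ) : ℤ) := by
        push_cast
        rfl
      have h9 : ∑ i ∈ univ.filter (fun i => i ∉ J), ((m i + (R + 1) - 1).choose (R + 1) : ℤ) =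
          ((∑ i ∈ univ.filter (fun i => i ∉ J), ell (R + 1) (m i) : ℕ) : ℤ) := by
        push_cast
        rfl
      rw [hR₀, h6, h8, h9] at h7
      omega
  obtain ⟨p₀, hp1, hp2⟩ := special_of_Fk u hu m J β hJβ hβJ hinj n N hmu hdd r hFk
  refine general_of_special (by omega) m p₀ (fun i => by rw [hp1 i]; exact one_ne_zero) ?_
  have hge := finrank_fatForms_ge (d := d) (by omega : 1 ≤ R + 1)
    (fun i => by rw [hp1 i]; exact one_ne_zero : ∀ i, p₀ i 0 ≠ 0) m
  unfold ImposesMaximalConditions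
  have h9 : ((Module.finrank ℂ (fatForms (R + 1) d p₀ m) : ℕ) : ℤ) ≤ r := by exact_mod_cast hp2
  rw [hr] at h9
  apply le_antisymm h9
  apply max_le
  · positivity
  · exact hge

/-- Many large multiplicities in `ℙ^r`. -/
theorem many_largeR (r e : ℕ) (hr : 2 ≤ r) (he : 2 ≤ e) :
    ∃ K E : ℕ, ∀ M, 1 ≤ M → ∀ (k d : ℕ) (m : Fin k → ℕ) (J : Finset (Fin k)), J.card ≤ e ^ r →
      (∀ i, i ∉ J → m i ≤ M) →
      (∀ S ⊆ J, S.card ≤ e → ∑ i ∈ S, m i + ((r - 1) * (e - 1) - 2) ≤ d) →
      K * M ^ E ≤ d → (∀ i ∈ J, m i + K * M ^ E ≤ d) →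
      ∑ i ∈ J, m i + K * M ^ E ≤ e ^ (r - 1) * d →
      ForGeneralPoints r k fun p => ImposesMaximalConditions r d p m := by
  obtain ⟨t, rfl⟩ : ∃ t, e = t + 1 := ⟨e - 1, by omega⟩
  obtain ⟨R, rfl⟩ : ∃ R, r = R + 1 := ⟨r - 1, by omega⟩
  have ht : 1 ≤ t := by omega
  have hlt : t + 1 ≤ (t + 1) ^ (R + 1) := Nat.le_self_pow (by omega) _
  obtain ⟨s, hts⟩ : ∃ s, t + s = (t + 1) ^ (R + 1) := ⟨(t + 1) ^ (R + 1) - t, by omega⟩
  have hs : 1 ≤ s := by omega
  obtain ⟨D, ⟨K, E, hKE⟩, hD⟩ := exM_all (R := R) ht (by omega) hts (Fin.last R)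
  refine ⟨K, E, fun M hM k d m J hJ hsmall hsum hd hdJ hcurve => ?_⟩
  have h1 := hKE M hM
  refine many_large_of R t s M (D M) ht hs hts (Fin.last R) rfl hM (hD M hM) k d m J hJ hsmall
    hsum (by omega) (fun i hi => ?_) ?_
  · have := hdJ i hi
    omega
  · simp only [Nat.add_sub_cancel] at hcurve
    omega

end Pool.Agent.H18.Pr
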