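import Pool.Agent.H18.Pr.Defs

/-!
# Module PolyBL (PR): polynomially bounded functions
-/

namespace Pool.Agent.H18.Pr

open Finset Pool.Agent.H18.Ex Pool.Agent.H18.Cub

theorem PolyB.const (c : ℕ) : PolyB fun _ => c := by
  refine ⟨c, 0, fun M _ => ?_⟩
  rw [pow_zero, mul_one]

theorem PolyB.id : PolyB fun M => M := by
  refine ⟨1, 1, fun M _ => ?_⟩
  rw [pow_one, one_mul]

theorem PolyB.add {f g : ℕ → ℕ} (hf : PolyB f) (hg : PolyB g) : PolyB fun M => f M + g M := by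
  obtain ⟨K, E, h⟩ := hf
  obtain ⟨K', E', h'⟩ := hg
  refine ⟨K + K', E + E', fun M hM => ?_⟩
  have h1 : M ^ E ≤ M ^ (E + E') := Nat.pow_le_pow_right hM (Nat.le_add_right _ _)
  have h2 : M ^ E' ≤ M ^ (E + E') := Nat.pow_le_pow_right hM (Nat.le_add_left _ _)
  calc f M + g M ≤ K * M ^ E + K' * M ^ E' := add_le_add (h M hM) (h' M hM)
    _ ≤ K * M ^ (E + E') + K' * M ^ (E + E') :=
        add_le_add (Nat.mul_le_mul_left _ h1) (Nat.mul_le_mul_left _ h2)
    _ = (K + K') * M ^ (E + E') := by ring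

theorem PolyB.mul {f g : ℕ → ℕ} (hf : PolyB f) (hg : PolyB g) : PolyB fun M => f M * g M := by
  obtain ⟨K, E, h⟩ := hf
  obtain ⟨K', E', h'⟩ := hg
  refine ⟨K * K', E + E', fun M hM => ?_⟩
  calc f M * g M ≤ (K * M ^ E) * (K' * M ^ E') := Nat.mul_le_mul (h M hM) (h' M hM)
    _ = K * K' * M ^ (E + E') := by rw [pow_add]; ring

theorem PolyB.pow {f : ℕ → ℕ} (hf : PolyB f) (k : ℕ) : PolyB fun M => f M ^ k := by
  induction k with
  | zero =>
    simp only [pow_zero]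
    exact PolyB.const 1
  | succ k ih =>
    simp only [pow_succ]
    exact ih.mul hf

theorem PolyB.le {f g : ℕ → ℕ} (hg : PolyB g) (h : ∀ M, 1 ≤ M → f M ≤ g M) : PolyB f := by
  obtain ⟨K, E, h'⟩ := hg
  exact ⟨K, E, fun M hM => (h M hM).trans (h' M hM)⟩

theorem PolyB.ell (n : ℕ) : PolyB fun M => Pool.Agent.H18.Ex.ell n M := by
  refine PolyB.le (((PolyB.const (n + 1)).mul PolyB.id).pow n) fun M hM => ?_
  unfold Pool.Agent.H18.Ex.ell
  refine (Nat.choose_le_pow _ _).trans (Nat.pow_le_pow_left ?_ n)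
  have h1 : n ≤ n * M := Nat.le_mul_of_pos_right n hM
  have h2 : (n + 1) * M = n * M + M := by ring
  omega

theorem PolyB.TT (n c : ℕ) : PolyB fun M => Pool.Agent.H18.Pr.TT n M c := by
  unfold Pool.Agent.H18.Pr.TT
  exact ((((PolyB.const 16).mul PolyB.id).mul
    ((((PolyB.const c).mul (((PolyB.const 2).mul PolyB.id).add (PolyB.const 3))).add
      ((PolyB.ell n).pow 2)).add (PolyB.id.mul ((PolyB.ell n).pow 2)))).add
    ((PolyB.const 8).mul (PolyB.ell (n + 1)))).add (PolyB.const 8)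

theorem PolyB.cC (n : ℕ) : PolyB fun M => Pool.Agent.H18.Ex.cC n M := by
  unfold Pool.Agent.H18.Ex.cC
  have hl := PolyB.ell n
  have hl1 := PolyB.ell (n + 1)
  exact (((((PolyB.const 2).mul ((PolyB.const 1).add (hl1.mul PolyB.id))).mul
    (hl1.add (PolyB.const 1))).add (((PolyB.const 2).mul hl).mul (hl1.add (PolyB.const 1)))).add
    (((PolyB.const 2).mul PolyB.id).mul (hl1.add (PolyB.id.mul (PolyB.const (n + 1)))))).add
    (PolyB.const 1)

end Pool.Agent.H18.Pr
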