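import Pool.Agent.H18.Pr.FullV
import Pool.Agent.H18.Pr.PolyBL

/-!
# Module AsmV (PR): exactness for one big point
-/

namespace Pool.Agent.H18.Pr

open Finset Pool.Agent.H18.Ex Pool.Agent.H18.Cub

variable {R : ℕ}

/-! ### Auxiliary facts -/

private theorem av_choose_lt (j : ℕ) (hj : 1 ≤ j) (x : ℕ) (hx : j ≤ x + 1) (k : ℕ) :
    x.choose j + k ≤ (x + k).choose j := by
  induction k with
  | zero => simp
  | succ k ih =>
    obtain ⟨i, rfl⟩ : ∃ i, j = i + 1 := ⟨j - 1, by omega⟩
    have h1 : (x + k + 1).choose (i + 1) = (x + k).choose i + (x + k).choose (i + 1) :=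
      Nat.choose_succ_succ _ _
    have h2 : 1 ≤ (x + k).choose i := Nat.choose_pos (by omega)
    have h3 : x + (k + 1) = x + k + 1 := by ring
    rw [h3, h1]
    omega

/-- A point of multiplicity `m ≤ d` leaves at least `d - m + 1` dimensions. -/
private theorem av_tau_ell (e A j d m D : ℕ) (he : 1 ≤ e) (hj : 1 ≤ j) (h : m + D ≤ d) :
    ell j m + D + 1 ≤ tau e A j d := by
  refine le_trans ?_ (choose_le_tau e A j d he)
  unfold ell
  rcases Nat.eq_zero_or_pos m with rfl | hm
  · have h1 : (0 + j - 1).choose j = 0 := Nat.choose_eq_zero_of_lt (by omega)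
    rw [h1]
    have h2 := av_choose_lt j hj j (by omega) d
    rw [Nat.choose_self] at h2
    rw [add_comm d j]
    omega
  · have h2 := av_choose_lt j hj (m + j - 1) (by omega) (d - m + 1)
    have h3 : m + j - 1 + (d - m + 1) = d + j := by omega
    rw [h3] at h2
    omega

private theorem av_mono {e : ℕ} {v u : Fin (R + 1)} {M D D' : ℕ} (hD : D ≤ D')
    (h : ExV e v u M D) : ExV e v u M D' := by
  intro q hq d m hd S hS hsum
  exact h q hq d m (by omega) S hS hsum

/-- Dimension one (`WW_one`). -/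
theorem exV_base (e : ℕ) (he : 2 ≤ e) (u : Fin (R + 1)) (M : ℕ) : ExV e u u M 0 := by
  intro q hq d m _ S _ hsum
  refine WW_one e (by omega) u (q : ℂ) d (fun _ : Unit => (0 : ℂ)) (fun _ => m) (fun _ => q)
    (fun _ _ _ => rfl) (fun _ => hq) (fun _ => by rw [zero_add]) S ?_
  rw [Nat.sub_self, zero_add] at hsum
  have h1 : S.map (ell 1) = S := by
    have h2 : S.map (ell 1) = S.map id := Multiset.map_congr rfl fun x _ => ell_one_left x
    rw [h2, Multiset.map_id]
  rw [h1, ell_one_left] at hsum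
  simpa using hsum

/-- The induction step: `NumR.exact` for `sysV e he v u hvu q (d - m)` at the state `d`, with
`T = TT (u - v) M 1`, `Ta = C * T + D' M` and `D M` a large polynomial in `Ta`, `M`, `cC (u - v) M`
(`tau_le` bounds the virtual dimension at the end, `tau_slow` or `ell_lt_tau` the first trace). -/
theorem exV_step (e : ℕ) (he : 2 ≤ e) (v v' u : Fin (R + 1)) (hvu : v < u)
    (hv : v'.val = v.val + 1) (h : ∃ D : ℕ → ℕ, PolyB D ∧ ∀ M, 1 ≤ M → ExV e v' u M (D M)) :
    ∃ D : ℕ → ℕ, PolyB D ∧ ∀ M, 1 ≤ M → ExV e v u M (D M) := by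
  obtain ⟨D', hD', hex⟩ := h
  obtain ⟨C, hC1, hC⟩ := numR_sysV (R := R) e he v v' u hvu hv
  have hvu' : v.val < u.val := hvu
  set j := u.val - v.val with hj
  have hj1 : 1 ≤ j := by omega
  have hTaP : PolyB fun M => C * TT j M 1 + D' M :=
    ((PolyB.const C).mul (PolyB.TT j 1)).add hD'
  refine ⟨fun M => cC j M * (e ^ (R - u.val) * (C * TT j M 1 + D' M + M + (j + 2)) ^ (j + 1)) +
    (C * TT j M 1 + D' M) + 2 * M + 2 + cC j M, ?_, ?_⟩
  · refine PolyB.add (PolyB.add (PolyB.add (PolyB.add ?_ hTaP) ?_) (PolyB.const 2)) (PolyB.cC j)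
    · refine (PolyB.cC j).mul ((PolyB.const _).mul (PolyB.pow ?_ (j + 1)))
      exact (hTaP.add PolyB.id).add (PolyB.const (j + 2))
    · exact (PolyB.const 2).mul PolyB.id
  · intro M hM q hq d m hd S hS hsum
    simp only at hd
    rw [← hj] at hsum
    set Ta := C * TT j M 1 + D' M with hTa
    set c := cC j M with hc
    set P := c * (e ^ (R - u.val) * (Ta + M + (j + 2)) ^ (j + 1)) with hP
    have hk : Ta ≤ d - m := by omega
    have hmk : d - (d - m) = m := by omega
    have H := hC M (TT j M 1) Ta hM le_rfl (by omega) (av_mono (by omega) (hex M hM)) q (d - m) d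
      hq hk
    have hR0 : (sysV e he v u hvu (q : ℂ) (d - m)).R (fun _ => d) =
        (tau e (R - u.val) (j + 1) d : ℤ) - ell (j + 1) m := by
      have h1 : (sysV e he v u hvu (q : ℂ) (d - m)).R (fun _ => d) =
        (tau e (R - u.val) (j + 1) d : ℤ) - ell (j + 1) (d - (d - m)) := rfl
      rw [h1, hmk]
    have hF0 : (sysV e he v u hvu (q : ℂ) (d - m)).F () (fun _ => d) =
        tau e (R - u.val) j d - ell j m := by
      have h1 : (sysV e he v u hvu (q : ℂ) (d - m)).F () (fun _ => d) =
        tau e (R - u.val) j d - ell j (d - (d - m)) := rfl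
      rw [h1, hmk]
    have hFbig : P + c ≤ (sysV e he v u hvu (q : ℂ) (d - m)).F () (fun _ => d) := by
      rw [hF0]
      have h1 := av_tau_ell e (R - u.val) j d m (P + c) (by omega) hj1 (by omega)
      omega
    have hls : Ta + 2 * M + 2 ≤ d := by omega
    have hcF : c ≤ (sysV e he v u hvu (q : ℂ) (d - m)).F () (fun _ => d) := by omega
    have hex2 := H.exact () (fun _ => le_rfl) hls hcF ?_ S hS ?_
    · rw [Fk_iff (gV v)]
      have h1 : (sysV e he v u hvu (q : ℂ) (d - m)).K (fun _ => d) (S.map Kind.free) =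
        GMP (gV v) (WW e v u (q : ℂ) d (fun _ : Unit => (0 : ℂ)) fun _ => d - (d - m))
          (S.map Kind.free) := rfl
      rw [h1, hmk] at hex2
      exact hex2
    · intro a _ ha
      have h1 : (sysV e he v u hvu (q : ℂ) (d - m)).R a =
        (tau e (R - u.val) (j + 1) (a ()) : ℤ) - ell (j + 1) (a () - (d - m)) := rfl
      have h2 : tau e (R - u.val) (j + 1) (a ()) ≤
          e ^ (R - u.val) * (Ta + M + (j + 2)) ^ (j + 1) := by
        refine (tau_le _ _ _ _).trans (Nat.mul_le_mul_left _ ?_)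
        refine (Nat.choose_le_pow _ _).trans (Nat.pow_le_pow_left ?_ _)
        have := ha ()
        omega
      have h3 : (sysV e he v u hvu (q : ℂ) (d - m)).R a ≤
          ((e ^ (R - u.val) * (Ta + M + (j + 2)) ^ (j + 1) : ℕ) : ℤ) := by
        rw [h1]
        have h4 : (tau e (R - u.val) (j + 1) (a ()) : ℤ) ≤
          ((e ^ (R - u.val) * (Ta + M + (j + 2)) ^ (j + 1) : ℕ) : ℤ) := by exact_mod_cast h2
        have h5 : (0 : ℤ) ≤ ell (j + 1) (a () - (d - m)) := Int.natCast_nonneg _
        linarith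
      calc (c : ℤ) * (sysV e he v u hvu (q : ℂ) (d - m)).R a ≤
            c * ((e ^ (R - u.val) * (Ta + M + (j + 2)) ^ (j + 1) : ℕ) : ℤ) :=
              mul_le_mul_of_nonneg_left h3 (Int.natCast_nonneg _)
        _ = ((P : ℕ) : ℤ) := by
              rw [hP]
              push_cast
              ring
        _ ≤ ((sysV e he v u hvu (q : ℂ) (d - m)).F () (fun _ => d) : ℕ) := by
              exact_mod_cast (by omega :
                P ≤ (sysV e he v u hvu (q : ℂ) (d - m)).F () (fun _ => d))
    · rw [hR0]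
      change _ ≤ (((S.map (ell (j + 1))).sum : ℕ) : ℤ)
      omega

theorem exV_all (e : ℕ) (he : 2 ≤ e) (v u : Fin (R + 1)) (hvu : v ≤ u) :
    ∃ D : ℕ → ℕ, PolyB D ∧ ∀ M, 1 ≤ M → ExV e v u M (D M) := by
  obtain ⟨k, hk⟩ : ∃ k, u.val - v.val = k := ⟨_, rfl⟩
  have hvu' : v.val ≤ u.val := hvu
  induction k generalizing v with
  | zero =>
    have h1 : v = u := by
      ext
      omega
    subst h1
    exact ⟨fun _ => 0, PolyB.const 0, fun M _ => exV_base e he v M⟩
  | succ k ih =>
    have h2 : v.val + 1 < R + 1 := by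
      have := u.2
      omega
    exact exV_step e he v ⟨v.val + 1, h2⟩ u (by
      rw [Fin.lt_def]
      omega) rfl (ih ⟨v.val + 1, h2⟩ (by
      rw [Fin.le_def]
      simp only
      omega) (by simp only; omega) (by simp only; omega))

end Pool.Agent.H18.Pr
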