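import Pool.Agent.H18.Pr.FullM
import Pool.Agent.H18.Pr.AsmV

/-!
# Module AsmM (PR): exactness in the main family
-/

namespace Pool.Agent.H18.Pr

open Finset Pool.Agent.H18.Ex Pool.Agent.H18.Cub

variable {R t s : ℕ}

private theorem ExM_le {u : Fin (R + 1)} {M D D' : ℕ} (h : ExM t s u M D) (hD : D ≤ D') :
    ExM t s u M D' := fun n N hMg S hS hsum => h n N (hMg.le hD) S hS hsum

private theorem ExV_le {e : ℕ} {v u : Fin (R + 1)} {M D D' : ℕ} (h : ExV e v u M D)
    (hD : D ≤ D') : ExV e v u M D' :=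
  fun q hq d m hm S hS hsum => h q hq d m (by omega) S hS hsum

/-- Dimension one (`WW_one`, `y = xx`). -/
theorem exM_base (ht : 1 ≤ t) (u : Fin (R + 1)) (hu : u.val = 0) (M : ℕ) : ExM t s u M 0 := by
  intro n N _ S _ hsum
  have hu0 : u = 0 := Fin.ext (by simpa using hu)
  have hell : ∀ m, ell 1 m = m := fun m => ell_one_left m
  have h0 : u.val + 1 = 1 := by omega
  rw [h0] at hsum
  have hmap : (S.map (ell 1)).sum = S.sum := by
    congr 1
    conv_rhs => rw [← Multiset.map_id S]
    exact Multiset.map_congr rfl fun m _ => hell m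
  rw [hmap] at hsum
  simp only [hell] at hsum
  unfold WM
  have h1 : (0 : Fin (R + 1)) = u := hu0.symm
  rw [h1]
  exact WW_one (t + 1) (by omega) u 0 (dd N) _ (mu n N) xx xx_injective
    (fun b => by rcases b with l | j <;> simp [xx]) (fun b => by simp) S hsum

private theorem dd_le_max (N : Option (Fin t) → ℕ) (B : ℕ) (h : ∀ i, N i ≤ B) :
    dd N ≤ (2 * t + 1) * B := by
  unfold dd
  have h1 : ∑ l, N (some l) ≤ ∑ _l : Fin t, B := sum_le_sum fun l _ => h (some l)
  rw [sum_const, card_univ, Fintype.card_fin, smul_eq_mul] at h1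
  have h2 := Nat.mul_le_mul_left (t + 1) (h none)
  have h3 : (2 * t + 1) * B = (t + 1) * B + t * B := by ring
  omega

/-- The induction step: `NumR.exact` for `sysM ht u hu n` at the state `N`, with `ls` such that
`N ls` is maximal, `T = TT u M (t + 1)`, `Ta = C * T + D' M + D'' M` and `D M` a large polynomial in
`Ta`, `M`, `cC u M` (`RM_upper` bounds the virtual dimension at the end, `FM_lower` the first
trace; `dd N ≤ (2 * t + 1) * N ls`). -/
theorem exM_step (ht : 1 ≤ t) (hR : 1 ≤ R) (hts : t + s = (t + 1) ^ (R + 1))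
    (u u' : Fin (R + 1)) (huu : u.val = u'.val + 1)
    (h : ∃ D : ℕ → ℕ, PolyB D ∧ ∀ M, 1 ≤ M → ExM t s u' M (D M)) :
    ∃ D : ℕ → ℕ, PolyB D ∧ ∀ M, 1 ≤ M → ExM t s u M (D M) := by
  obtain ⟨D', hD'P, hD'⟩ := h
  have hu : 1 ≤ u.val := by omega
  have huR : u.val ≤ R := by omega
  set v : Fin (R + 1) := ⟨1, by omega⟩ with hv
  have hvu : v ≤ u := by
    rw [Fin.le_def]
    exact hu
  obtain ⟨D'', hD''P, hD''⟩ := exV_all (t + 1) (by omega) v u hvu
  obtain ⟨C, hC1, hC⟩ := numR_sysM ht hR hts u u' v hu huu rfl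
  obtain ⟨C₂, hC₂1, hC₂⟩ := FM_lower ht hR hts u.val hu huR
  set Ta : ℕ → ℕ := fun M => C * TT u.val M (t + 1) + D' M + D'' M with hTa
  set D : ℕ → ℕ := fun M => (2 * t + 1) * (Ta M + 2 * M + 2 + C₂) + C₂ +
    cC u.val M * ((t + 1) ^ R * ((2 * t + 1) * (Ta M + M + 1) + u.val + 1) ^ (u.val + 1)) +
    cC u.val M with hD
  have hTaP : PolyB Ta := (((PolyB.const C).mul (PolyB.TT u.val (t + 1))).add hD'P).add hD''P
  have hcP : PolyB fun M => cC u.val M := PolyB.cC u.val
  refine ⟨D, ?_, ?_⟩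
  · refine (((((PolyB.const (2 * t + 1)).mul ?_).add (PolyB.const C₂)).add
      (hcP.mul ((PolyB.const ((t + 1) ^ R)).mul (PolyB.pow ?_ (u.val + 1))))).add hcP)
    · exact ((hTaP.add ((PolyB.const 2).mul PolyB.id)).add (PolyB.const 2)).add (PolyB.const C₂)
    · exact (((PolyB.const (2 * t + 1)).mul ((hTaP.add PolyB.id).add (PolyB.const 1))).add
        (PolyB.const u.val)).add (PolyB.const 1)
  · intro M hM n N hMg S hS hsum
    have hTaD : Ta M ≤ D M := by
      have h1 : Ta M + 2 * M + 2 + C₂ ≤ (2 * t + 1) * (Ta M + 2 * M + 2 + C₂) :=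
        Nat.le_mul_of_pos_left _ (by omega)
      simp only [hD]
      omega
    have H : NumR (sysM ht u hu n) M (TT u.val M (t + 1)) (Ta M) N :=
      hC M (TT u.val M (t + 1)) (Ta M) hM le_rfl (by simp only [hTa]; omega)
        (ExM_le (hD' M hM) (by simp only [hTa]; omega))
        (ExV_le (hD'' M hM) (by simp only [hTa]; omega)) n N (hMg.le hTaD)
    obtain ⟨ls, -, hls⟩ := exists_max_image (univ : Finset (Option (Fin t))) N ⟨none, mem_univ _⟩
    have hmax : ∀ i, N i ≤ N ls := fun i => hls i (mem_univ i)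
    have hddN : dd N ≤ (2 * t + 1) * N ls := dd_le_max N (N ls) hmax
    have hbig : Ta M + 2 * M + 2 + C₂ ≤ N ls := by
      by_contra hcon
      push Not at hcon
      have h1 : (2 * t + 1) * N ls ≤ (2 * t + 1) * (Ta M + 2 * M + 2 + C₂) :=
        Nat.mul_le_mul_left _ hcon.le
      have h2 := hMg.deg
      have h3 : (2 * t + 1) * (Ta M + 2 * M + 2 + C₂) + C₂ ≤ D M := by
        simp only [hD]
        omega
      omega
    have hFM : D M ≤ FM R u.val n ls N + C₂ := by
      apply hC₂ (D M) n N _ hMg ls (by omega)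
      have h1 : C₂ ≤ D M := by
        simp only [hD]
        omega
      exact h1
    have hFlow : cC u.val M *
        ((t + 1) ^ R * ((2 * t + 1) * (Ta M + M + 1) + u.val + 1) ^ (u.val + 1)) +
        cC u.val M ≤ FM R u.val n ls N := by
      have h1 : cC u.val M *
          ((t + 1) ^ R * ((2 * t + 1) * (Ta M + M + 1) + u.val + 1) ^ (u.val + 1)) +
          cC u.val M + C₂ ≤ D M := by
        simp only [hD]
        omega
      omega
    have hex := H.exact ls hmax (by omega) (show cC u.val M ≤ FM R u.val n ls N by omega)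
      ?_ S hS ?_
    · exact (Fk_iff (gM t u) (WM u n N) S).2 hex
    · intro a _ ha
      change (cC u.val M : ℤ) * RM R u.val n a ≤ (FM R u.val n ls N : ℤ)
      have h1 := RM_upper u.val huR n a
      have h2 : dd a ≤ (2 * t + 1) * (Ta M + M + 1) := dd_le_max a _ ha
      have h3 : (RM R u.val n a : ℤ) ≤
          (((t + 1) ^ R * ((2 * t + 1) * (Ta M + M + 1) + u.val + 1) ^ (u.val + 1) : ℕ) : ℤ) := by
        refine h1.trans ?_
        have h4 : (t + 1) ^ R * (dd a + u.val + 1) ^ (u.val + 1) ≤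
            (t + 1) ^ R * ((2 * t + 1) * (Ta M + M + 1) + u.val + 1) ^ (u.val + 1) := by
          apply Nat.mul_le_mul_left
          exact Nat.pow_le_pow_left (by omega) _
        exact_mod_cast h4
      calc (cC u.val M : ℤ) * RM R u.val n a ≤ (cC u.val M : ℤ) *
          (((t + 1) ^ R * ((2 * t + 1) * (Ta M + M + 1) + u.val + 1) ^ (u.val + 1) : ℕ) : ℤ) :=
            mul_le_mul_of_nonneg_left h3 (by positivity)
        _ = ((cC u.val M *
          ((t + 1) ^ R * ((2 * t + 1) * (Ta M + M + 1) + u.val + 1) ^ (u.val + 1)) : ℕ) : ℤ) := by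
            push_cast
            ring
        _ ≤ (FM R u.val n ls N : ℤ) := by
            exact_mod_cast (show cC u.val M *
              ((t + 1) ^ R * ((2 * t + 1) * (Ta M + M + 1) + u.val + 1) ^ (u.val + 1)) ≤
              FM R u.val n ls N by omega)
    · change RM R u.val n N ≤ _
      unfold RM
      have h1 : (tau (t + 1) (R - u.val) (u.val + 1) (dd N) : ℤ) ≤
          ((∑ b, ell (u.val + 1) (mu n N b) + (S.map (ell (u.val + 1))).sum : ℕ) : ℤ) := by
        exact_mod_cast hsum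
      push_cast at h1 ⊢
      linarith

theorem exM_all (ht : 1 ≤ t) (hR : 1 ≤ R) (hts : t + s = (t + 1) ^ (R + 1)) (u : Fin (R + 1)) :
    ∃ D : ℕ → ℕ, PolyB D ∧ ∀ M, 1 ≤ M → ExM t s u M (D M) := by
  obtain ⟨k, hk⟩ : ∃ k, u.val = k := ⟨_, rfl⟩
  induction k generalizing u with
  | zero => exact ⟨fun _ => 0, PolyB.const 0, fun M _ => exM_base ht u hk M⟩
  | succ k ih =>
    exact exM_step ht hR hts u ⟨k, by omega⟩ hk (ih ⟨k, by omega⟩ rfl)

end Pool.Agent.H18.Pr
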