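import Pool.Agent.H18.Pr.SchedN
import Pool.Agent.H18.Cub.Inst

/-!
# Project PR: many large multiplicities in `ℙ^(R+1)`

Affine coordinates `x_0, …, x_R`.  The big points lie on the curve `x_{i+1} = x_i ^ e`.  For
`v ≤ u ≤ R` we consider polynomials in `x_v, …, x_u`, the restrictions of the polynomials of degree at
most `d` to the flat `x_{i+1} = x_i ^ e` (`u ≤ i < R`), `x_{v-1} = const`.  They are spanned by the
monomials of cost at most `d`.  In the coordinates `z_v = x_v - p`, `z_i = x_i - x_{i-1}^e`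
(`v < i ≤ u`) the curve is given by `z_i = 0` for `i > v`.
-/

namespace Pool.Agent.H18.Pr

open Finset Pool.Agent.H18.Ex Pool.Agent.H18.Cub

/-- The sum of the `A` lowest digits of `a` in base `e` and of the remaining quotient. -/
def kap (e : ℕ) : ℕ → ℕ → ℕ
  | 0, a => a
  | A + 1, a => a % e + kap e A (a / e)

/-- The number of monomials of cost at most `d` (dimension `n`, `A` equations). -/
def tau (e : ℕ) : ℕ → ℕ → ℕ → ℕ
  | 0, n, d => (d + n).choose n
  | A + 1, n, d => ∑ δ ∈ range e, if δ ≤ d then tau e A n (d - δ) else 0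

section

variable {R : ℕ}

/-- The cost of the monomial `x^α`; `u` is the last variable. -/
def cost (e : ℕ) (u : Fin (R + 1)) (α : Fin (R + 1) → ℕ) : ℕ :=
  ∑ i, if i = u then kap e (R - u.val) (α i) else α i

/-- The variable before `i`. -/
def prv (i : Fin (R + 1)) : Fin (R + 1) := ⟨i.val - 1, by omega⟩

/-- `z_v ↦ x_v - p` and `z_i ↦ x_i - x_{i-1}^e` for `v < i ≤ u`. -/
noncomputable def Th (e : ℕ) (v u : Fin (R + 1)) (p : ℂ) :
    MvPolynomial (Fin (R + 1)) ℂ →ₐ[ℂ] MvPolynomial (Fin (R + 1)) ℂ :=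
  MvPolynomial.aeval fun i =>
    if i = v then MvPolynomial.X i - MvPolynomial.C p
    else if v < i ∧ i ≤ u then MvPolynomial.X i - MvPolynomial.X (prv i) ^ e
    else MvPolynomial.X i

/-- The point with `z_v = x`, the other coordinates being `0`. -/
def ptv (v : Fin (R + 1)) (x : ℂ) : Fin (R + 1) → ℂ := fun i => if i = v then x else 0

/-- The polynomials in `z_v, …, z_u` of cost at most `d` (in the coordinates `x`), vanishing to
order `m b` at the points `z = (x b, 0, …, 0)`. -/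
noncomputable def WW (e : ℕ) (v u : Fin (R + 1)) (p : ℂ) (d : ℕ) {B : Type} (x : B → ℂ)
    (m : B → ℕ) : Submodule ℂ (MvPolynomial (Fin (R + 1)) ℂ) where
  carrier := {F | (∀ i, i < v ∨ u < i → F.degreeOf i = 0) ∧
    (∀ α ∈ (Th e v u p F).support, cost e u α ≤ d) ∧
    ∀ b, ∀ β : Fin (R + 1) → ℕ, ∑ i, β i < m b → tay F (ptv v (x b)) β = 0}
  add_mem' := by
    rintro F G ⟨h1, h2, h3⟩ ⟨h4, h5, h6⟩
    refine ⟨fun i hi => ?_, fun α hα => ?_, fun b β hβ => ?_⟩
    · have := MvPolynomial.degreeOf_add_le i F G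
      rw [h1 i hi, h4 i hi, max_self] at this
      omega
    · rw [map_add] at hα
      rcases mem_union.1 (MvPolynomial.support_add hα) with h | h
      · exact h2 α h
      · exact h5 α h
    · rw [tay_add, h3 b β hβ, h6 b β hβ, add_zero]
  zero_mem' := by
    refine ⟨fun i _ => MvPolynomial.degreeOf_zero i, fun α hα => ?_, fun b β _ => tay_zero _ _⟩
    rw [map_zero, MvPolynomial.support_zero] at hα
    exact absurd hα (notMem_empty _)
  smul_mem' := by
    rintro c F ⟨h1, h2, h3⟩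
    refine ⟨fun i hi => ?_, fun α hα => ?_, fun b β hβ => ?_⟩
    · rw [MvPolynomial.smul_eq_C_mul]
      have := MvPolynomial.degreeOf_C_mul_le F i c
      rw [h1 i hi] at this
      omega
    · rw [map_smul] at hα
      exact h2 α (MvPolynomial.support_smul hα)
    · rw [tay_smul, h3 b β hβ, mul_zero]

theorem mem_WW {e : ℕ} {v u : Fin (R + 1)} {p : ℂ} {d : ℕ} {B : Type} {x : B → ℂ} {m : B → ℕ}
    {F : MvPolynomial (Fin (R + 1)) ℂ} : F ∈ WW e v u p d x m ↔
      (∀ i, i < v ∨ u < i → F.degreeOf i = 0) ∧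
      (∀ α ∈ (Th e v u p F).support, cost e u α ≤ d) ∧
      ∀ b, ∀ β : Fin (R + 1) → ℕ, ∑ i, β i < m b → tay F (ptv v (x b)) β = 0 := Iff.rfl

end

/-- At some positions only the zero element of `W` vanishes at the points with multiplicities
`S`. -/
def Fk {ι : Type} [Fintype ι] (W : Submodule ℂ (MvPolynomial ι ℂ)) (S : Multiset ℕ) : Prop :=
  ∃ (k : ℕ) (s : Fin k → ℕ), (univ : Finset (Fin k)).val.map s = S ∧ ∃ pos : Fin k → ι → ℂ,
    ∀ F ∈ W, (∀ i, ∀ β : ι → ℕ, ∑ j, β j < s i → tay F (pos i) β = 0) → F = 0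

/-! ### The main family -/

section

variable {R t s : ℕ}

/-- The space of a state of the main family, top variable `u`. -/
noncomputable def WM (u : Fin (R + 1)) (n : Fin t ⊕ Fin s → ℕ) (a : Option (Fin t) → ℕ) :
    Submodule ℂ (MvPolynomial (Fin (R + 1)) ℂ) :=
  WW (t + 1) 0 u 0 (dd a) (fun b : Fin t ⊕ Fin s => ((xx b : ℕ) : ℂ)) (mu n a)

/-- The sizes of the traces (dimension `j`). -/
def FM (R j : ℕ) (n : Fin t ⊕ Fin s → ℕ) : Option (Fin t) → (Option (Fin t) → ℕ) → ℕ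
  | none, a => tau (t + 1) (R + 1 - j) j (dd a) - ∑ b, ell j (mu n a b)
  | some l, a => tau (t + 1) (R - j) j (dd a) - ell j (mu n a (.inl l))

/-- The virtual dimension (dimension `j + 1`). -/
def RM (R j : ℕ) (n : Fin t ⊕ Fin s → ℕ) (a : Option (Fin t) → ℕ) : ℤ :=
  (tau (t + 1) (R - j) (j + 1) (dd a) : ℤ) - ∑ b, (ell (j + 1) (mu n a b) : ℤ)

/-- The hyperplanes of the main family: `z_u = 0` and `x_0 = l + 1`. -/
noncomputable def gM (t : ℕ) (u : Fin (R + 1)) : Lines (Option (Fin t)) (Fin (R + 1)) where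
  co := fun
    | none => u
    | some _ => 0
  va := fun
    | none => 0
    | some l => ((l.val + 1 : ℕ) : ℂ)

/-- The margins of a state. -/
structure Mg (R D : ℕ) (n : Fin t ⊕ Fin s → ℕ) (N : Option (Fin t) → ℕ) : Prop where
  slack : R * t - 2 ≤ ∑ l, N (some l)
  curve : ∑ b, mu n N b + D ≤ (t + 1) ^ R * dd N
  line : ∀ l, mu n N (.inl l) + D ≤ dd N
  deg : D ≤ dd N

/-- Exactness for the main family. -/
def ExM (t s : ℕ) (u : Fin (R + 1)) (M D : ℕ) : Prop :=
  ∀ (n : Fin t ⊕ Fin s → ℕ) (N : Option (Fin t) → ℕ), Mg R D n N → ∀ S : Multiset ℕ,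
    (∀ μ ∈ S, μ ≤ M) →
    tau (t + 1) (R - u.val) (u.val + 1) (dd N) ≤
      ∑ b, ell (u.val + 1) (mu n N b) + (S.map (ell (u.val + 1))).sum →
    Fk (WM u n N) S

/-- The hyperplane `z_v = 0`. -/
noncomputable def gV (v : Fin (R + 1)) : Lines Unit (Fin (R + 1)) where
  co := fun _ => v
  va := fun _ => 0

/-- Exactness for one big point. -/
def ExV (e : ℕ) (v u : Fin (R + 1)) (M D : ℕ) : Prop :=
  ∀ q : ℕ, 0 < q → ∀ d m : ℕ, m + D ≤ d → ∀ S : Multiset ℕ, (∀ μ ∈ S, μ ≤ M) →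
    tau e (R - u.val) (u.val - v.val + 1) d ≤
      ell (u.val - v.val + 1) m + (S.map (ell (u.val - v.val + 1))).sum →
    Fk (WW e v u (q : ℂ) d (fun _ : Unit => (0 : ℂ)) fun _ => m) S

end

/-- Polynomially bounded functions. -/
def PolyB (f : ℕ → ℕ) : Prop := ∃ K E : ℕ, ∀ M, 1 ≤ M → f M ≤ K * M ^ E

end Pool.Agent.H18.Pr
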