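import Pool.Agent.H18.Pr.RunN
import Pool.Agent.H18.Ex.Fin

/-!
# Module FinN: the two endings (abstract version, traces of dimension `n`)
-/

namespace Pool.Agent.H18.Pr

open Finset Pool.Agent.H18.Ex Pool.Agent.H18.Cub

variable {Λ : Type} [Fintype Λ] [DecidableEq Λ] {n : ℕ}

/-- The simple points behave as expected at the state `a`. -/
def FullN (Y : SysN Λ n) (a : Λ → ℕ) : Prop :=
  1 ≤ Y.R a ∧ ∀ n : ℕ, Y.R a ≤ n → Y.K a (Multiset.replicate n (Kind.free 1))

theorem fullN_zero (Y : SysN Λ n) : FullN Y 0 := by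
  refine ⟨by rw [Y.base_R], fun n hn => ?_⟩
  rw [Y.base_R] at hn
  refine Y.mono _ {Kind.free 1} _ ?_ Y.base
  rw [Multiset.singleton_le, Multiset.mem_replicate]
  exact ⟨by omega, rfl⟩

/-- One step; the trace is killed by the expected number of simple points. -/
theorem FullN.step {Y : SysN Λ n} {a : Λ → ℕ} (l : Λ) (ha : 1 ≤ a l) (hF : 1 ≤ Y.F l a)
    (hT : Y.tr l a (Multiset.replicate (Y.F l a) 1)) (h : FullN Y (dn l a)) : FullN Y a := by
  have hc := Y.count a l ha hF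
  refine ⟨by have := h.1; omega, fun n hn => ?_⟩
  have h1 : Y.F l a ≤ n := by
    have := h.1
    omega
  obtain ⟨n', rfl⟩ := Nat.exists_eq_add_of_le' h1
  have h2 := Y.step a l ha 1 le_rfl
    (Multiset.replicate n' (Role.stay (Kind.free 1)) +
      Multiset.replicate (Y.F l a) (Role.ord 1)) ?_ ?_ ?_
  · rw [Multiset.map_add, Multiset.map_replicate, Multiset.map_replicate] at h2
    rw [Multiset.replicate_add]
    exact h2
  · intro k hk
    rw [Multiset.mem_add, Multiset.mem_replicate, Multiset.mem_replicate] at hk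
    rcases hk with ⟨_, hk⟩ | ⟨_, hk⟩
    · cases hk
      trivial
    · cases hk
  · rw [Multiset.map_add, Multiset.map_replicate, Multiset.map_replicate]
    exact Y.tr_mono _ _ _ _ (Multiset.le_add_left _ _) hT
  · rw [Multiset.map_add, Multiset.map_replicate]
    refine Y.mono _ _ _ (Multiset.le_add_right _ _) ?_
    exact h.2 n' (by push_cast at hn; omega)

/-- Free points of multiplicity at least one. -/
theorem FullN.of_card {Y : SysN Λ n} {a : Λ → ℕ} (h : FullN Y a) (T : Multiset ℕ)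
    (S : Multiset (Kind Λ)) (hT : ∀ m ∈ T, 1 ≤ m) (hc : Y.R a ≤ T.card) :
    Y.K a (T.map Kind.free + S) :=
  Y.free_mono a T S hT (Y.mono _ _ _ (Multiset.le_add_right _ _) (h.2 _ hc))

private theorem fin_shf_aux (j : ℕ) (S : Multiset (ℕ × ℕ))
    (hS : ∀ x ∈ S, 1 ≤ x.2 ∧ x.2 ≤ x.1 ∧ x.1 ≤ j) : shf^[j] S = 0 :=
  shf_iterate_eq_zero le_rfl S hS

omit [Fintype Λ] in
private theorem fin_count_clean (M : ℕ) (dirs : List Λ) (l : Λ) (hl : l ∈ dirs) :
    M + 1 ≤ (clean M dirs).count l := by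
  unfold clean
  induction dirs with
  | nil => exact absurd hl List.not_mem_nil
  | cons d ds ih =>
    rw [List.flatMap_cons, List.count_append]
    by_cases h : l = d
    · subst h
      rw [List.count_replicate_self]
      exact Nat.le_add_right _ _
    · have h1 : l ∈ ds := by
        rcases List.mem_cons.1 hl with h2 | h2
        · exact absurd h2 h
        · exact h2
      exact le_trans (ih h1) (Nat.le_add_left _ _)

omit [DecidableEq Λ] in
private theorem fin_kinds_simple {c : Cfg Λ} (hN : c.N = 0) (hΦ : ∀ l, c.Φ l = 0) :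
    c.kinds = (Multiset.replicate c.s 1).map Kind.free + 0 := by
  have h1 : c.kinds = c.N.map Kind.free + Multiset.replicate c.s (Kind.free 1) +
      ∑ l, (c.Φ l).map fun x => Kind.forced l x.1 x.2 := rfl
  rw [h1, hN, Finset.sum_eq_zero (fun l _ => by rw [hΦ l, Multiset.map_zero]),
    Multiset.map_zero, zero_add, Multiset.map_replicate]

/-- Ending (A). -/
theorem ending_AN (Y : SysN Λ n) (M : ℕ) (hn : 1 ≤ n) (hM : 1 ≤ M) (dirs L : List Λ) (hd : dirs ≠ [])
    (hLd : ∀ l ∈ L, l ∈ dirs) (a φ : Λ → ℕ)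
    (hG : GoodN Y M (L ++ clean M dirs) a φ)
    (hfull : FullN Y (ew (L ++ clean M dirs) a))
    (c : Cfg Λ) (hc : c.OK M) (htr : ∀ l, c.tr n l ≤ φ l) (hsz : Y.R a ≤ c.sz n)
    (hΦ : ∀ l ∉ dirs, c.Φ l = 0)
    (hs : (c.sz n : ℤ) + Y.R (ew L a) < c.s + Y.R a) :
    Y.K a c.kinds := by
  rw [GoodN.append] at hG
  rw [ew_append'] at hfull
  obtain ⟨hG1, hG2⟩ := hG
  obtain ⟨c₁, hc₁, hGM₁, htr₁, hsz₁, hs₁, -, -, -, -, hcnt₁⟩ :=
    runN Y M hn hM L a φ hG1 c hc htr hsz
  apply hGM₁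
  have hN₁ : c₁.N.card < g0 n M := by
    rcases hs₁ with h | h
    · exfalso
      have h1 : c₁.s ≤ c₁.sz n := by
        unfold Cfg.sz Cfg.nsz
        omega
      omega
    · exact h
  set a₁ := ew L a with ha₁
  set φ₁ := ephN Y M L a φ with hφ₁
  obtain ⟨d, ds, rfl⟩ := List.exists_cons_of_ne_nil hd
  have hclean : clean M (d :: ds) = [d] ++ (List.replicate M d ++ clean M ds) := by
    unfold clean
    rw [List.flatMap_cons, List.replicate_succ]
    rfl
  rw [hclean, GoodN.append] at hG2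
  rw [hclean, ew_append'] at hfull
  obtain ⟨hG3, hG4⟩ := hG2
  obtain ⟨c₂, hc₂, hGM₂, htr₂, hsz₂, -, -, hN₂, -, -, hcnt₂⟩ :=
    runN Y M hn hM [d] a₁ φ₁ hG3 c₁ hc₁ htr₁ (by omega)
  apply hGM₂
  have hN₂' : c₂.N = 0 := hN₂ (List.cons_ne_nil d []) hN₁
  obtain ⟨c₃, hc₃, hGM₃, -, hsz₃, -, -, -, hz₃, -, -⟩ :=
    runN Y M hn hM (List.replicate M d ++ clean M ds) _ _ hG4 c₂ hc₂ htr₂ (by omega)
  apply hGM₃
  obtain ⟨hN₃, hΦ₃⟩ := hz₃ hN₂'
  have hΦ₃' : ∀ l, c₃.Φ l = 0 := by
    intro l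
    rw [hΦ₃ l]
    by_cases hl : l ∈ d :: ds
    · have hcount : M ≤ (List.replicate M d ++ clean M ds).count l := by
        rw [List.count_append]
        rcases List.mem_cons.1 hl with h | h
        · subst h
          rw [List.count_replicate_self]
          exact Nat.le_add_right _ _
        · have := fin_count_clean M ds l h
          omega
      apply shf_iterate_eq_zero hcount
      intro x hx
      have := hc₂.hΦ l x hx
      exact ⟨this.1, this.2.2.1, this.2.2.2⟩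
    · have h1 : L.count l = 0 := List.count_eq_zero_of_not_mem fun h => hl (hLd l h)
      have h2 : c₁.Φ l = 0 := by rw [hcnt₁ l h1, hΦ l hl]
      have h3 : [d].count l = 0 := by
        apply List.count_eq_zero_of_not_mem
        intro h
        rw [List.mem_singleton] at h
        exact hl (h ▸ List.mem_cons_self)
      rw [hcnt₂ l h3, h2]
      apply fin_shf_aux
      intro x hx
      exact absurd hx (Multiset.notMem_zero x)
  rw [fin_kinds_simple hN₃ hΦ₃']
  apply hfull.of_card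
  · intro m hm
    rw [Multiset.eq_of_mem_replicate hm]
  · rw [Multiset.card_replicate]
    have h1 : c₃.sz n = c₃.s := by
      unfold Cfg.sz Cfg.nsz Cfg.fl
      rw [hN₃, Finset.sum_eq_zero (fun l _ => by rw [hΦ₃' l, Multiset.map_zero,
        Multiset.sum_zero])]
      simp
    omega

/-- Ending (B). -/
theorem ending_BN (Y : SysN Λ n) (M : ℕ) (hn : 1 ≤ n) (hM : 1 ≤ M) (L : List Λ) (a φ : Λ → ℕ)
    (hG : GoodN Y M L a φ) (hfull : FullN Y (ew L a))
    (c : Cfg Λ) (hc : c.OK M) (htr : ∀ l, c.tr n l ≤ φ l)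
    (hs : (ell (n + 1) M : ℤ) * Y.R (ew L a) + ((M * ∑ l, ephN Y M L a φ l : ℕ) : ℤ) + Y.R a ≤
      c.sz n + Y.R (ew L a)) (hsz : Y.R a ≤ c.sz n) :
    Y.K a c.kinds := by
  obtain ⟨c₁, hc₁, hGM₁, htr₁, hsz₁, -, -, -, -, -, -⟩ := runN Y M hn hM L a φ hG c hc htr hsz
  apply hGM₁
  have hfl : ∑ l, c₁.fl n l ≤ M * ∑ l, ephN Y M L a φ l := by
    rw [Finset.mul_sum]
    refine Finset.sum_le_sum fun l _ => ?_
    exact le_trans (Cfg.fl_le n M c₁ hc₁ l) (Nat.mul_le_mul_left _ (htr₁ l))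
  have hszdef : c₁.sz n = c₁.nsz n + ∑ l, c₁.fl n l := rfl
  have hN : (c₁.N.map (ell (n + 1))).sum ≤ ell (n + 1) M * c₁.N.card := by
    have h1 : (c₁.N.map (ell (n + 1))).sum ≤ (c₁.N.map fun _ => ell (n + 1) M).sum := by
      apply Multiset.sum_map_le_sum_map
      intro m hm
      exact ell_mono _ (hc₁.hN m hm).2
    rw [Multiset.map_const', Multiset.sum_replicate, smul_eq_mul, Nat.mul_comm] at h1
    exact h1
  have hell := ell_pos (n + 1) hM
  have hnsz : c₁.nsz n ≤ ell (n + 1) M * (c₁.N.card + c₁.s) := by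
    unfold Cfg.nsz
    rw [Nat.mul_add]
    have h2 : c₁.s ≤ ell (n + 1) M * c₁.s := Nat.le_mul_of_pos_left _ hell
    omega
  have hcard : Y.R (ew L a) ≤ ((c₁.N.card + c₁.s : ℕ) : ℤ) := by
    have h3 : (ell (n + 1) M : ℤ) * Y.R (ew L a) ≤
        (ell (n + 1) M : ℤ) * ((c₁.N.card + c₁.s : ℕ) : ℤ) := by
      have h4 : ((c₁.nsz n : ℕ) : ℤ) ≤ ((ell (n + 1) M * (c₁.N.card + c₁.s) : ℕ) : ℤ) :=
        Int.ofNat_le.2 hnsz
      have h5 : ((∑ l, c₁.fl n l : ℕ) : ℤ) ≤ ((M * ∑ l, ephN Y M L a φ l : ℕ) : ℤ) :=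
        Int.ofNat_le.2 hfl
      rw [Nat.cast_mul] at h4
      omega
    exact le_of_mul_le_mul_left h3 (by exact_mod_cast hell)
  have h1 : c₁.kinds = (c₁.N + Multiset.replicate c₁.s 1).map Kind.free +
      ∑ l, (c₁.Φ l).map fun x => Kind.forced l x.1 x.2 := by
    rw [Multiset.map_add, Multiset.map_replicate]
    rfl
  rw [h1]
  apply hfull.of_card
  · intro m hm
    rw [Multiset.mem_add] at hm
    rcases hm with hm | hm
    · have := hc₁.hN m hm
      omega
    · rw [Multiset.eq_of_mem_replicate hm]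
  · rw [Multiset.card_add, Multiset.card_replicate]
    exact hcard

end Pool.Agent.H18.Pr
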