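import Pool.Agent.H18.Pr.Defs

/-!
# Module FkL (PR): free points
-/

namespace Pool.Agent.H18.Pr

open Finset Pool.Agent.H18.Ex Pool.Agent.H18.Cub

variable {ι Λ : Type} [Fintype ι] [DecidableEq ι]

theorem Fk_iff (g : Lines Λ ι) (W : Submodule ℂ (MvPolynomial ι ℂ)) (S : Multiset ℕ) :
    Fk W S ↔ GMP g W (S.map Kind.free) := by
  constructor
  · rintro ⟨k, s, rfl, pos, hpos⟩
    refine ⟨k, fun i => Kind.free (s i), ?_, pos, fun F hF hf => hpos F hF fun i β hβ => ?_⟩
    · rw [Multiset.map_map]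
      rfl
    · exact hf i β hβ
  · rintro ⟨n, k, hk, pos, hpos⟩
    have hex : ∀ i, ∃ m, k i = Kind.free m := by
      intro i
      have h1 : k i ∈ (univ : Finset (Fin n)).val.map k :=
        Multiset.mem_map.2 ⟨i, Finset.mem_univ_val i, rfl⟩
      rw [hk, Multiset.mem_map] at h1
      obtain ⟨m, -, hm⟩ := h1
      exact ⟨m, hm.symm⟩
    choose s hs using hex
    refine ⟨n, s, ?_, pos, fun F hF hf => hpos F hF fun i => ?_⟩
    · have hinj : Function.Injective (Kind.free : ℕ → Kind Λ) := by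
        intro a b hab
        injection hab
      apply Multiset.map_injective hinj
      rw [← hk, Multiset.map_map]
      exact Multiset.map_congr rfl fun i _ => (hs i).symm
    · rw [hs i]
      intro b hb
      exact hf i b hb

theorem Fk.anti {W W' : Submodule ℂ (MvPolynomial ι ℂ)} {S : Multiset ℕ} (h : W ≤ W')
    (h' : Fk W' S) : Fk W S := by
  obtain ⟨k, s, hs, pos, hpos⟩ := h'
  exact ⟨k, s, hs, pos, fun F hF hf => hpos F (h hF) hf⟩

theorem Fk.mono {W : Submodule ℂ (MvPolynomial ι ℂ)} {S S' : Multiset ℕ} (h : S ≤ S')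
    (h' : Fk W S) : Fk W S' := by
  have g : Lines Empty ι := ⟨Empty.elim, Empty.elim⟩
  rw [Fk_iff g] at h' ⊢
  exact GMP.mono (Multiset.map_le_map h) h'

end Pool.Agent.H18.Pr
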