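import Pool.Agent.H18.Pr.NumSlow

/-!
# Module NumFM (PR): the sizes of the traces of the main family
-/

namespace Pool.Agent.H18.Pr

open Finset Pool.Agent.H18.Ex Pool.Agent.H18.Cub

variable {R t s : ℕ}

/-! ### Auxiliary facts -/

private theorem fm_choose_lt (j : ℕ) (hj : 1 ≤ j) (x : ℕ) (hx : j ≤ x + 1) (k : ℕ) :
    x.choose j + k ≤ (x + k).choose j := by
  induction k with
  | zero => simp
  | succ k ih =>
    obtain ⟨i, rfl⟩ : ∃ i, j = i + 1 := ⟨j - 1, by omega⟩
    have h1 : (x + k + 1).choose (i + 1) = (x + k).choose i + (x + k).choose (i + 1) :=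
      Nat.choose_succ_succ _ _
    have h2 : 1 ≤ (x + k).choose i := Nat.choose_pos (by omega)
    have h3 : x + (k + 1) = x + k + 1 := by ring
    rw [h3, h1]
    omega

/-- A point of multiplicity `m ≤ d` leaves at least `d - m + 1` dimensions. -/
private theorem fm_tau_ell (e A j d m D : ℕ) (he : 1 ≤ e) (hj : 1 ≤ j) (h : m + D ≤ d) :
    ell j m + D + 1 ≤ tau e A j d := by
  refine le_trans ?_ (choose_le_tau e A j d he)
  unfold ell
  rcases Nat.eq_zero_or_pos m with rfl | hm
  · have h1 : (0 + j - 1).choose j = 0 := Nat.choose_eq_zero_of_lt (by omega)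
    rw [h1]
    have h2 := fm_choose_lt j hj j (by omega) d
    rw [Nat.choose_self] at h2
    rw [add_comm d j]
    omega
  · have h2 := fm_choose_lt j hj (m + j - 1) (by omega) (d - m + 1)
    have h3 : m + j - 1 + (d - m + 1) = d + j := by omega
    rw [h3] at h2
    omega

/-- Lower bound for the virtual dimensions. -/
private theorem fm_RM_lower (ht : 1 ≤ t) (hR : 1 ≤ R) (hts : t + s = (t + 1) ^ (R + 1)) (j : ℕ)
    (hj : j ≤ R) : ∃ C : ℕ, 1 ≤ C ∧ ∀ (D : ℕ) (n : Fin t ⊕ Fin s → ℕ)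
      (a : Option (Fin t) → ℕ), C ≤ D → Mg R D n a → C ≤ a none → (D : ℤ) ≤ RM R j n a + C := by
  induction j with
  | zero =>
    refine ⟨R * t * (t + 1) ^ R + 1, by omega, fun D n a _ h _ => ?_⟩
    have h1 := RM_zero_lower n a D h
    push_cast
    linarith
  | succ j ih =>
    obtain ⟨C, hC1, hC⟩ := ih (by omega)
    obtain ⟨C', hC'1, hC'⟩ := RM_slow (s := s) ht hR hts (j + 1) hj
    refine ⟨C + C', by omega, fun D n a hD h ha => ?_⟩
    have h1 := hC D n a (by omega) h (by omega)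
    have h2 := (hC' 1 le_rfl n a (h.le (by omega)) none (by omega)).2
    have h3 := RM_diff_none (j + 1) (by omega) hj n a (by omega)
    rw [Nat.add_sub_cancel] at h3
    push_cast at h2 ⊢
    linarith

/-- The trace on the curve is a virtual dimension. -/
private theorem fm_none (ht : 1 ≤ t) (hR : 1 ≤ R) (hts : t + s = (t + 1) ^ (R + 1)) (j : ℕ)
    (hj1 : 1 ≤ j) (hj : j ≤ R) {n : Fin t ⊕ Fin s → ℕ} {a : Option (Fin t) → ℕ}
    (h : Mg R 1 n a) : (FM R j n none a : ℤ) = RM R (j - 1) n a := by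
  have h1 := RM_pos (s := s) ht hR hts (j - 1) (by omega) (Or.inr h)
  unfold RM at h1 ⊢
  have h2 : R - (j - 1) = R + 1 - j := by omega
  have h3 : j - 1 + 1 = j := by omega
  rw [h2, h3] at h1 ⊢
  have h4 : FM R j n none a =
      tau (t + 1) (R + 1 - j) j (dd a) - ∑ b, ell j (mu n a b) := rfl
  rw [h4]
  have h5 : ((∑ b, ell j (mu n a b) : ℕ) : ℤ) = ∑ b, (ell j (mu n a b) : ℤ) := by push_cast; rfl
  rw [← h5] at h1 ⊢
  omega

/-- The size of the traces, from below. -/
theorem FM_lower (ht : 1 ≤ t) (hR : 1 ≤ R) (hts : t + s = (t + 1) ^ (R + 1)) (j : ℕ)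
    (hj1 : 1 ≤ j) (hj : j ≤ R) : ∃ C : ℕ, 1 ≤ C ∧ ∀ (D : ℕ) (n : Fin t ⊕ Fin s → ℕ)
      (a : Option (Fin t) → ℕ), C ≤ D → Mg R D n a → ∀ i, C ≤ a i → D ≤ FM R j n i a + C := by
  obtain ⟨C, hC1, hC⟩ := fm_RM_lower (s := s) ht hR hts (j - 1) (by omega)
  refine ⟨C, hC1, fun D n a hD h i hi => ?_⟩
  rcases i with _ | l
  · have h1 := hC D n a hD h hi
    have h2 := fm_none (s := s) ht hR hts j hj1 hj (h.le (by omega))
    rw [← h2] at h1
    exact_mod_cast h1
  · have h1 := fm_tau_ell (t + 1) (R - j) j (dd a) (mu n a (.inl l)) D (by omega) hj1 (h.line l)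
    have h2 : FM R j n (some l) a = tau (t + 1) (R - j) j (dd a) - ell j (mu n a (.inl l)) := rfl
    omega

/-- The differences are the sizes of the traces. -/
theorem FM_eq (ht : 1 ≤ t) (hR : 1 ≤ R) (hts : t + s = (t + 1) ^ (R + 1)) (j : ℕ)
    (hj1 : 1 ≤ j) (hj : j ≤ R) {n : Fin t ⊕ Fin s → ℕ} {a : Option (Fin t) → ℕ}
    (h : Mg R 1 n a) (i : Option (Fin t)) (ha : 1 ≤ a i) :
    (FM R j n i a : ℤ) = RM R j n a - RM R j n (dn i a) := by
  rcases i with _ | l
  · rw [fm_none (s := s) ht hR hts j hj1 hj h, RM_diff_none j hj1 hj n a ha]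
    ring
  · have h1 := fm_tau_ell (t + 1) (R - j) j (dd a) (mu n a (.inl l)) 1 (by omega) hj1 (h.line l)
    have h2 : FM R j n (some l) a = tau (t + 1) (R - j) j (dd a) - ell j (mu n a (.inl l)) := rfl
    rw [RM_diff_some j hj1 n a l ha, h2]
    omega

/-- Sums of small drops along a path from `b` down to `a`. -/
private theorem fm_path {Λ : Type} [Fintype Λ] [DecidableEq Λ] (F : (Λ → ℕ) → ℕ) (T : ℕ)
    (a : Λ → ℕ) (q : ℕ) : ∀ b : Λ → ℕ, ∑ k, (b k - a k) = q → (∀ i, a i ≤ b i) →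
      (∀ c : Λ → ℕ, (∀ i, a i ≤ c i) → (∀ i, c i ≤ b i) → ∀ k, a k < c k →
        F (dn k c) ≤ F c ∧ T * F c ≤ T * F (dn k c) + F c) →
      F a ≤ F b ∧ T * F b ≤ T * F a + q * F b := by
  induction q with
  | zero =>
    intro b hq hab _
    have h1 : b = a := by
      funext k
      have h2 := (sum_eq_zero_iff.1 hq) k (mem_univ k)
      have h3 := hab k
      omega
    subst h1
    refine ⟨le_rfl, ?_⟩
    omega
  | succ q ih =>
    intro b hq hab H
    obtain ⟨k, -, hk⟩ : ∃ k ∈ (univ : Finset Λ), b k - a k ≠ 0 := by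
      apply exists_ne_zero_of_sum_ne_zero
      omega
    have hk' : a k < b k := by omega
    have hab' : ∀ i, a i ≤ dn k b i := by
      intro i
      by_cases hi : i = k
      · subst hi
        rw [dn_self]
        omega
      · rw [dn_ne hi]
        exact hab i
    have hsum : ∑ i, (dn k b i - a i) = q := by
      have h1 := add_sum_erase univ (fun i => b i - a i) (mem_univ k)
      have h2 := add_sum_erase univ (fun i => dn k b i - a i) (mem_univ k)
      have h3 : ∑ i ∈ univ.erase k, (dn k b i - a i) = ∑ i ∈ univ.erase k, (b i - a i) :=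
        sum_congr rfl fun i hi => by rw [dn_ne (ne_of_mem_erase hi)]
      simp only [dn_self] at h2
      rw [h3] at h2
      omega
    obtain ⟨h1, h2⟩ := ih (dn k b) hsum hab' fun c hc1 hc2 k' hk' =>
      H c hc1 (fun i => (hc2 i).trans (dn_le k b i)) k' hk'
    obtain ⟨h3, h4⟩ := H b hab (fun _ => le_rfl) k hk'
    refine ⟨h1.trans h3, ?_⟩
    have h5 : q * F (dn k b) ≤ q * F b := Nat.mul_le_mul_left _ h3
    have h6 : (q + 1) * F b = q * F b + F b := by ring
    omega

private theorem fm_dd_dn (c : Option (Fin t) → ℕ) (k : Option (Fin t)) (hk : 1 ≤ c k) :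
    dd (dn k c) + 1 ≤ dd c ∧ dd c ≤ dd (dn k c) + (t + 1) := by
  rcases k with _ | l
  · have h1 := dd_dn_none c hk
    have h2 := inst_le_dd_none c hk
    omega
  · have h1 := dd_dn_some c l hk
    have h2 := inst_le_dd_some c l hk
    omega

private theorem fm_mu_dn (n : Fin t ⊕ Fin s → ℕ) (c : Option (Fin t) → ℕ) (k : Option (Fin t))
    (b : Fin t ⊕ Fin s) : mu n c b ≤ mu n (dn k c) b + 1 ∧ mu n (dn k c) b ≤ mu n c b := by
  have h1 : uu (s := s) c b ≤ uu (dn k c) b + 1 ∧ uu (s := s) (dn k c) b ≤ uu c b := by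
    rcases b with l | b
    · simp only [uu]
      by_cases h0 : (none : Option (Fin t)) = k
      · subst h0
        rw [dn_self, dn_ne (by simp : (some l : Option (Fin t)) ≠ none)]
        omega
      · rw [dn_ne h0]
        have h2 := dn_le k c (some l)
        have h3 : c (some l) ≤ dn k c (some l) + 1 := by
          by_cases h4 : some l = k
          · subst h4
            rw [dn_self]
            omega
          · rw [dn_ne h4]
            omega
        omega
    · simp only [uu]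
      have h2 := dn_le k c none
      have h3 : c none ≤ dn k c none + 1 := by
        by_cases h4 : none = k
        · subst h4
          rw [dn_self]
          omega
        · rw [dn_ne h4]
          omega
      omega
  simp only [mu]
  omega

private theorem fm_ell_mono (j : ℕ) {m m' : ℕ} (h : m ≤ m') : ell j m ≤ ell j m' :=
  Nat.choose_le_choose _ (by omega)

private theorem fm_ell_sub (j m : ℕ) : ell (j + 1) m ≤ ell (j + 1) (m - 1) + ell j m := by
  unfold ell
  rcases Nat.eq_zero_or_pos m with rfl | hm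
  · simp
  · obtain ⟨k, rfl⟩ : ∃ k, m = k + 1 := ⟨m - 1, by omega⟩
    have h1 : k + 1 + (j + 1) - 1 = k + j + 1 := by omega
    have h2 : k + 1 - 1 + (j + 1) - 1 = k + j := by omega
    have h3 : k + 1 + j - 1 = k + j := by omega
    rw [h1, h2, h3, Nat.choose_succ_succ]
    exact le_of_eq (Nat.add_comm _ _)

/-- One step for the traces on the hyperplanes `x_0 = l + 1`. -/
private theorem fm_step_some (j : ℕ) : ∃ C : ℕ, 1 ≤ C ∧ ∀ T : ℕ, 1 ≤ T →
    ∀ (n : Fin t ⊕ Fin s → ℕ) (c : Option (Fin t) → ℕ) (l : Fin t) (k : Option (Fin t)),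
      mu n c (.inl l) + C * T ≤ dd c → 1 ≤ c k →
      FM R (j + 1) n (some l) (dn k c) ≤ FM R (j + 1) n (some l) c ∧
      T * FM R (j + 1) n (some l) c ≤
        T * FM R (j + 1) n (some l) (dn k c) + FM R (j + 1) n (some l) c := by
  obtain ⟨C, hC1, hC⟩ := tau_slow (t + 1) (R - (j + 1)) j (by omega)
  refine ⟨C * (t + 1), Nat.mul_pos hC1 (by omega), fun T hT n c l k hmu hk => ?_⟩
  have hF : ∀ c', FM R (j + 1) n (some l) c' =
    tau (t + 1) (R - (j + 1)) (j + 1) (dd c') - ell (j + 1) (mu n c' (.inl l)) := fun _ => rfl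
  rw [hF, hF]
  set e := t + 1 with he
  set A := R - (j + 1) with hA
  obtain ⟨hd1, hd2⟩ := fm_dd_dn c k hk
  obtain ⟨hm1, hm2⟩ := fm_mu_dn n c k (.inl l)
  set m := mu n c (.inl l) with hm
  set m' := mu n (dn k c) (.inl l) with hm'
  set d := dd c with hd
  set d' := dd (dn k c) with hd'
  have h1 : (T * e) * tau e A j d + ell (j + 1) m ≤ tau e A (j + 1) d := by
    refine hC (T * e) d m (Nat.mul_pos hT (by omega)) ?_
    have h2 : C * (T * e) = C * e * T := by ring
    omega
  have h2 : tau e A (j + 1) d ≤ tau e A (j + 1) d' + (d - d') * tau e A j d :=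
    tau_drop e A j (by omega)
  have h3 : (d - d') * tau e A j d ≤ e * tau e A j d := Nat.mul_le_mul_right _ (by omega)
  have h4 : ell (j + 1) m' ≤ ell (j + 1) m := fm_ell_mono _ hm2
  have h5 : tau e A (j + 1) (d - 1 + 1) = tau e A (j + 1) (d - 1) + tau e A j (d - 1 + 1) :=
    tau_succ e A j (d - 1)
  have hd0 : d - 1 + 1 = d := by omega
  rw [hd0] at h5
  have h6 : tau e A (j + 1) d' ≤ tau e A (j + 1) (d - 1) := tau_mono e A (j + 1) (by omega)
  have h7 : ell (j + 1) m ≤ ell (j + 1) (m - 1) + ell j m := fm_ell_sub j m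
  have h8 : ell (j + 1) (m - 1) ≤ ell (j + 1) m' := fm_ell_mono _ (by omega)
  have h9 : ell j m ≤ tau e A j d := by
    rcases Nat.eq_zero_or_pos j with rfl | hj
    · have : ell 0 m = 1 := by
        unfold ell
        exact Nat.choose_zero_right _
      rw [this]
      exact tau_pos e A 0 d (by omega)
    · have := ell_lt_tau e A j d m (by omega) hj (by
        have : 0 ≤ C * e * T := Nat.zero_le _
        omega)
      omega
  refine ⟨by omega, ?_⟩
  -- `F c - F (dn k c) ≤ e * tau e A j d` and `T * e * tau e A j d ≤ F c`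
  have h10 : T * e * tau e A j d = T * (e * tau e A j d) := by ring
  have h11 : tau e A (j + 1) d - ell (j + 1) m ≤
      (tau e A (j + 1) d' - ell (j + 1) m') + e * tau e A j d := by omega
  have h12 : T * (tau e A (j + 1) d - ell (j + 1) m) ≤
      T * ((tau e A (j + 1) d' - ell (j + 1) m') + e * tau e A j d) :=
    Nat.mul_le_mul_left _ h11
  rw [mul_add] at h12
  omega

/-- Multi-step version of the slow variation of the traces: from `a` up to `b ≤ N`. -/
theorem FM_drop (ht : 1 ≤ t) (hR : 1 ≤ R) (hts : t + s = (t + 1) ^ (R + 1)) (j : ℕ)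
    (hj1 : 1 ≤ j) (hj : j ≤ R) : ∃ C : ℕ, 1 ≤ C ∧ ∀ T : ℕ, 1 ≤ T →
      ∀ (n : Fin t ⊕ Fin s → ℕ) (N a b : Option (Fin t) → ℕ) (Ta : ℕ), C * T ≤ Ta →
      Mg R Ta n N → Reg N Ta a → (∀ i, a i ≤ b i) → (∀ i, b i ≤ N i) → ∀ i, Ta ≤ a i →
      T * FM R j n i b ≤ T * FM R j n i a + (∑ k, (b k - a k)) * FM R j n i b := by
  obtain ⟨i, rfl⟩ : ∃ i, j = i + 1 := ⟨j - 1, by omega⟩
  obtain ⟨C1, hC11, hC1⟩ := RM_slow (s := s) ht hR hts i (by omega)
  obtain ⟨C2, hC21, hC2⟩ := fm_step_some (t := t) (s := s) (R := R) i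
  refine ⟨C1 + C2 + R * t, by omega, ?_⟩
  intro T hT n N a b Ta hTa hN ha hab hbN i' hi'
  have hCT1 : C1 * T ≤ Ta := by
    have : C1 * T ≤ (C1 + C2 + R * t) * T := Nat.mul_le_mul_right _ (by omega)
    omega
  have hCT2 : C2 * T ≤ Ta := by
    have : C2 * T ≤ (C1 + C2 + R * t) * T := Nat.mul_le_mul_right _ (by omega)
    omega
  have hRt : R * t ≤ Ta := by
    have h1 : R * t * 1 ≤ (C1 + C2 + R * t) * T := Nat.mul_le_mul (by omega) hT
    omega
  have hTa1 : 1 ≤ Ta := by
    have h1 : 1 * 1 ≤ C1 * T := Nat.mul_le_mul hC11 hT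
    omega
  -- margins of all states between `a` and `b`
  have hreg : ∀ c : Option (Fin t) → ℕ, (∀ i, a i ≤ c i) → (∀ i, c i ≤ b i) → Mg R Ta n c := by
    intro c hc1 hc2
    exact hN.reg ht hR hts le_rfl hRt fun i => ⟨(ha i).1.trans (hc1 i), (hc2 i).trans (hbN i)⟩
  have hbig : ∀ c : Option (Fin t) → ℕ, (∀ i, c i ≤ b i) → ∀ k, a k < c k → Ta + 1 ≤ c k := by
    intro c hc2 k hk
    have h1 := (ha k).1
    have h2 := (hc2 k).trans (hbN k)
    omega
  have hdn : ∀ c : Option (Fin t) → ℕ, (∀ i, a i ≤ c i) → ∀ k, a k < c k →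
      ∀ i, a i ≤ dn k c i := by
    intro c hc1 k hk i
    by_cases hi : i = k
    · subst hi
      rw [dn_self]
      omega
    · rw [dn_ne hi]
      exact hc1 i
  refine (fm_path (fun c => FM R (i + 1) n i' c) T a _ b rfl hab ?_).2
  intro c hc1 hc2 k hk
  have hMc := hreg c hc1 hc2
  have hk1 := hbig c hc2 k hk
  rcases i' with _ | l
  · have hMd := hreg (dn k c) (hdn c hc1 k hk) fun i => (dn_le k c i).trans (hc2 i)
    have h1 := hC1 T hT n c (hMc.le hCT1) k (by omega)
    have h2 := fm_none (s := s) ht hR hts (i + 1) (by omega) hj (hMc.le hTa1)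
    have h3 := fm_none (s := s) ht hR hts (i + 1) (by omega) hj (hMd.le hTa1)
    rw [Nat.add_sub_cancel] at h2 h3
    rw [← h2, ← h3] at h1
    constructor
    · have := h1.1
      omega
    · have h4 := h1.2
      have h5 : ((T * FM R (i + 1) n none c : ℕ) : ℤ) ≤
          ((T * FM R (i + 1) n none (dn k c) + FM R (i + 1) n none c : ℕ) : ℤ) := by
        push_cast
        linarith
      exact_mod_cast h5
  · have h1 := hMc.line l
    exact hC2 T hT n c l k (by omega) (by omega)

end Pool.Agent.H18.Pr
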