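import Pool.Agent.H18.Pr.NumReg

/-!
# Module NumRM (PR): the virtual dimensions of the main family
-/

namespace Pool.Agent.H18.Pr

open Finset Pool.Agent.H18.Ex Pool.Agent.H18.Cub

variable {R t s : ℕ}

private theorem rm_ell_one (m : ℕ) : ell (0 + 1) m = m := by
  unfold ell
  rw [Nat.zero_add, Nat.add_sub_cancel, Nat.choose_one_right]

private theorem rm_zero (n : Fin t ⊕ Fin s → ℕ) (a : Option (Fin t) → ℕ) :
    RM R 0 n a = (tau (t + 1) R 1 (dd a) : ℤ) - ((∑ b, mu n a b : ℕ) : ℤ) := by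
  unfold RM
  rw [Nat.sub_zero, Nat.zero_add, Nat.cast_sum]
  congr 1
  refine Finset.sum_congr rfl fun b _ => ?_
  rw [show ell 1 (mu n a b) = mu n a b from rm_ell_one _]

private theorem rm_dd_none (a : Option (Fin t) → ℕ) (ha : 1 ≤ a none) :
    dd a = dd (dn none a) + (t + 1) := by
  have h1 : ∑ l : Fin t, dn none a (some l) = ∑ l : Fin t, a (some l) :=
    Finset.sum_congr rfl fun l _ => dn_ne (by simp) a
  obtain ⟨c, hc⟩ : ∃ c, a none = c + 1 := ⟨a none - 1, by omega⟩
  simp only [dd]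
  rw [h1, dn_self, hc, Nat.add_sub_cancel]
  ring

private theorem rm_dd_some (a : Option (Fin t) → ℕ) (l : Fin t) (ha : 1 ≤ a (some l)) :
    dd a = dd (dn (some l) a) + 1 := by
  have h1 := Finset.add_sum_erase univ (fun l' : Fin t => a (some l')) (mem_univ l)
  have h2 := Finset.add_sum_erase univ (fun l' : Fin t => dn (some l) a (some l')) (mem_univ l)
  have h3 : ∑ l' ∈ univ.erase l, dn (some l) a (some l') =
      ∑ l' ∈ univ.erase l, a (some l') := by
    refine Finset.sum_congr rfl fun l' hl' => ?_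
    rw [dn_ne]
    intro h
    exact (Finset.ne_of_mem_erase hl') (Option.some.inj h)
  have h4 : dn (some l) a (some l) = a (some l) - 1 := dn_self _ _
  have h5 : dn (some l) a none = a none := dn_ne (by simp) a
  simp only [dd]
  rw [h5]
  omega

private theorem rm_mu_none (n : Fin t ⊕ Fin s → ℕ) (a : Option (Fin t) → ℕ) (ha : 1 ≤ a none)
    (b : Fin t ⊕ Fin s) : mu n (dn none a) b = mu n a b - 1 := by
  have h0 : dn none a none = a none - 1 := dn_self _ _
  rcases b with l | b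
  · have h1 : dn none a (some l) = a (some l) := dn_ne (by simp) a
    simp only [mu, uu]
    omega
  · simp only [mu, uu]
    omega

private theorem rm_mu_some (n : Fin t ⊕ Fin s → ℕ) (a : Option (Fin t) → ℕ) (l : Fin t)
    (ha : 1 ≤ a (some l)) : mu n (dn (some l) a) (.inl l) = mu n a (.inl l) - 1 := by
  have h0 : dn (some l) a none = a none := dn_ne (by simp) a
  have h1 : dn (some l) a (some l) = a (some l) - 1 := dn_self _ _
  simp only [mu, uu]
  omega

private theorem rm_mu_other (n : Fin t ⊕ Fin s → ℕ) (a : Option (Fin t) → ℕ) (l : Fin t)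
    (b : Fin t ⊕ Fin s) (hb : b ≠ .inl l) : mu n (dn (some l) a) b = mu n a b := by
  have h0 : dn (some l) a none = a none := dn_ne (by simp) a
  rcases b with l' | b
  · have h1 : dn (some l) a (some l') = a (some l') :=
      dn_ne (fun h => hb (by rw [Option.some.inj h])) a
    simp only [mu, uu]
    omega
  · simp only [mu, uu]
    omega

/-- The case of dimension one: `RM R 0` is the virtual dimension on the curve. -/
theorem RM_zero_lower (n : Fin t ⊕ Fin s → ℕ) (a : Option (Fin t) → ℕ) (D : ℕ)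
    (h : Mg R D n a) : (D : ℤ) ≤ RM R 0 n a + R * t * (t + 1) ^ R := by
  rw [rm_zero]
  have h1 := tau_one_lower (t + 1) R (dd a) (by omega)
  rw [Nat.add_sub_cancel] at h1
  have h2 := h.curve
  have h3 : 2 * ((t + 1) ^ R * (dd a + 1)) = 2 * ((t + 1) ^ R * dd a) + 2 * (t + 1) ^ R := by ring
  have h4 : ((R * t * (t + 1) ^ R : ℕ) : ℤ) = R * t * (t + 1) ^ R := by push_cast; ring
  rw [← h4]
  omega

/-- Use `tau_one_lower`, `curve_eq` and the field `slack`. -/
theorem RM_zero_pos (ht : 1 ≤ t) (hR : 1 ≤ R) (hts : t + s = (t + 1) ^ (R + 1))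
    {n : Fin t ⊕ Fin s → ℕ} {a : Option (Fin t) → ℕ} (h : Mg R 1 n a) (ha : 1 ≤ a none) :
    1 ≤ RM R 0 n a := by
  rw [rm_zero]
  have h1 := tau_one_lower (t + 1) R (dd a) (by omega)
  rw [Nat.add_sub_cancel] at h1
  have h2 := h.curve
  have h5 := h.slack
  have h6 := curve_eq hts n a
  have h3 : 2 * ((t + 1) ^ R * (dd a + 1)) = 2 * ((t + 1) ^ R * dd a) + 2 * (t + 1) ^ R := by ring
  rw [h3] at h1
  generalize ∑ b, min (n b) (uu (s := s) a b) = V at h6
  generalize hA : ∑ l, a (some l) = A at h5 h6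
  generalize ∑ b, mu n a b = m at h2 h6 ⊢
  generalize tau (t + 1) R 1 (dd a) = T at h1 ⊢
  have hE : 2 ≤ (t + 1) ^ R := by
    calc 2 ≤ t + 1 := by omega
      _ = (t + 1) ^ 1 := (pow_one _).symm
      _ ≤ (t + 1) ^ R := Nat.pow_le_pow_right (by omega) hR
  have hE3 : R * t = 1 ∨ 3 ≤ (t + 1) ^ R := by
    by_cases ht1 : t = 1
    · subst ht1
      by_cases hR1 : R = 1
      · left; rw [hR1]
      · right
        calc 3 ≤ 2 ^ 2 := by norm_num
          _ ≤ (1 + 1) ^ R := Nat.pow_le_pow_right (by norm_num) (by omega)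
    · right
      calc 3 ≤ t + 1 := by omega
        _ = (t + 1) ^ 1 := (pow_one _).symm
        _ ≤ (t + 1) ^ R := Nat.pow_le_pow_right (by omega) hR
  generalize (t + 1) ^ R = E at *
  obtain ⟨E', rfl⟩ : ∃ E', E = E' + 1 := ⟨E - 1, by omega⟩
  rw [Nat.add_sub_cancel] at h6
  have h7 : R * t * (E' + 1) ≤ (A + 2) * (E' + 1) := Nat.mul_le_mul_right _ (by omega)
  by_cases hA0 : A = 0
  · subst hA0
    rw [mul_zero, zero_add] at h6
    have h8 : R * t * (E' + 1) ≤ 2 * (E' + 1) := by simpa using h7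
    omega
  · rcases hE3 with h8 | h8
    · rw [h8] at h1
      have h9 : E' * 1 ≤ E' * A := Nat.mul_le_mul_left _ (by omega)
      omega
    · obtain ⟨E'', rfl⟩ : ∃ E'', E' = E'' + 2 := ⟨E' - 2, by omega⟩
      have h9 : (A + 2) * (E'' + 2 + 1) = A * E'' + 3 * A + 2 * (E'' + 2 + 1) := by ring
      have h10 : (E'' + 2) * A = A * E'' + 2 * A := by ring
      rw [h9] at h7
      rw [h10] at h6
      have h11 : 0 ≤ A * E'' := Nat.zero_le _
      omega

/-- States without the curve. -/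
theorem RM_pos_of_none (j : ℕ) {n : Fin t ⊕ Fin s → ℕ} {a : Option (Fin t) → ℕ}
    (ha : a none = 0) : 1 ≤ RM R j n a := by
  have h1 : ∑ b, mu n a b ≤ dd a := by
    rw [Fintype.sum_sum_type]
    have h2 : ∑ l : Fin t, mu n a (Sum.inl l) ≤ ∑ l : Fin t, a (some l) := by
      refine Finset.sum_le_sum fun l _ => ?_
      simp only [mu, uu]
      omega
    have h3 : ∑ l : Fin s, mu n a (Sum.inr l) = 0 := by
      refine Finset.sum_eq_zero fun l _ => ?_
      simp only [mu, uu]
      omega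
    simp only [dd]
    omega
  have h2 := sum_ell_le (j + 1) (by omega) (mu n a) (dd a) h1
  have h3 := choose_le_tau (t + 1) (R - j) (j + 1) (dd a) (by omega)
  unfold RM
  have h4 : ((∑ b, ell (j + 1) (mu n a b) : ℕ) : ℤ) = ∑ b, (ell (j + 1) (mu n a b) : ℤ) :=
    Nat.cast_sum _ _
  rw [← h4]
  omega

/-- Differences, in direction of the curve. -/
theorem RM_diff_none (j : ℕ) (hj : 1 ≤ j) (hjR : j ≤ R) (n : Fin t ⊕ Fin s → ℕ)
    (a : Option (Fin t) → ℕ) (ha : 1 ≤ a none) :
    RM R j n a = RM R j n (dn none a) + RM R (j - 1) n a := by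
  have h1 := rm_dd_none a ha
  have h2 := tau_eq (t + 1) (R - j) j (dd a) (by omega) (by omega)
  have h3 : dd a - (t + 1) = dd (dn none a) := by omega
  rw [h3] at h2
  have h4 : ∑ b, (ell (j + 1) (mu n a b) : ℤ) =
      ∑ b, (ell (j + 1) (mu n (dn none a) b) : ℤ) + ∑ b, (ell j (mu n a b) : ℤ) := by
    rw [← Finset.sum_add_distrib]
    refine Finset.sum_congr rfl fun b _ => ?_
    rw [rm_mu_none n a ha b, ell_succ_sub j (mu n a b) hj]
    push_cast
    ring
  have h5 : R - (j - 1) = R - j + 1 := by omega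
  have h6 : j - 1 + 1 = j := by omega
  unfold RM
  rw [h5, h6, h2, h4]
  push_cast
  ring

/-- Differences, in the other directions. -/
theorem RM_diff_some (j : ℕ) (hj : 1 ≤ j) (n : Fin t ⊕ Fin s → ℕ)
    (a : Option (Fin t) → ℕ) (l : Fin t) (ha : 1 ≤ a (some l)) :
    RM R j n a = RM R j n (dn (some l) a) +
      ((tau (t + 1) (R - j) j (dd a) : ℤ) - ell j (mu n a (.inl l))) := by
  have h1 := rm_dd_some a l ha
  have h2 := tau_succ (t + 1) (R - j) j (dd (dn (some l) a))
  rw [← h1] at h2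
  have h3 := Finset.add_sum_erase univ
    (fun b : Fin t ⊕ Fin s => (ell (j + 1) (mu n a b) : ℤ)) (mem_univ (.inl l))
  have h4 := Finset.add_sum_erase univ
    (fun b : Fin t ⊕ Fin s => (ell (j + 1) (mu n (dn (some l) a) b) : ℤ)) (mem_univ (.inl l))
  have h5 : ∑ b ∈ univ.erase (.inl l), (ell (j + 1) (mu n (dn (some l) a) b) : ℤ) =
      ∑ b ∈ univ.erase (.inl l), (ell (j + 1) (mu n a b) : ℤ) := by
    refine Finset.sum_congr rfl fun b hb => ?_
    rw [rm_mu_other n a l b (Finset.ne_of_mem_erase hb)]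
  have h6 := ell_succ_sub j (mu n a (.inl l)) hj
  simp only [rm_mu_some n a l ha] at h4
  rw [h5] at h4
  unfold RM
  rw [← h3, ← h4, h2, h6]
  push_cast
  ring

/-- Dimension one. -/
theorem RM_diff_zero (hts : t + s = (t + 1) ^ (R + 1)) (n : Fin t ⊕ Fin s → ℕ)
    (a : Option (Fin t) → ℕ) (i : Option (Fin t)) (ha : 1 ≤ a i)
    (hd : (R + 1) * t ≤ dd a) :
    0 ≤ RM R 0 n a - RM R 0 n (dn i a) ∧
      RM R 0 n a - RM R 0 n (dn i a) ≤ (t + 1) ^ (R + 1) := by
  have hcast : (((t + 1) ^ (R + 1) : ℕ) : ℤ) = (t + 1) ^ (R + 1) := by push_cast; ring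
  rw [rm_zero, rm_zero, ← hcast]
  rcases i with _ | l
  · have h1 := rm_dd_none a ha
    have h2 := tau_eq (t + 1) R 0 (dd a) (by omega) (by omega)
    have h3 : dd a - (t + 1) = dd (dn none a) := by omega
    rw [h3, Nat.zero_add] at h2
    have h4 := tau_zero_eq (t + 1) (R + 1) (dd a) (by rw [Nat.add_sub_cancel]; exact hd)
    have h5 : ∑ b, mu n (dn none a) b ≤ ∑ b, mu n a b :=
      Finset.sum_le_sum fun b _ => by rw [rm_mu_none n a ha b]; omega
    have h6 : ∑ b, mu n a b ≤ ∑ b, mu n (dn none a) b + (t + s) := by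
      have h7 : ∑ b, mu n a b ≤ ∑ b, (mu n (dn none a) b + 1) :=
        Finset.sum_le_sum fun b _ => by rw [rm_mu_none n a ha b]; omega
      rw [Finset.sum_add_distrib] at h7
      simpa using h7
    rw [h4] at h2
    rw [hts] at h6
    omega
  · have h1 := rm_dd_some a l ha
    have h2 := tau_succ (t + 1) R 0 (dd (dn (some l) a))
    rw [← h1, Nat.zero_add] at h2
    have h4 := tau_zero_eq (t + 1) R (dd a) (by
      rw [Nat.add_sub_cancel]
      refine le_trans ?_ hd
      exact Nat.mul_le_mul_right _ (by omega))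
    rw [h4] at h2
    have h5 : ∑ b, mu n (dn (some l) a) b ≤ ∑ b, mu n a b :=
      Finset.sum_le_sum fun b _ => by
        by_cases hb : b = .inl l
        · rw [hb, rm_mu_some n a l ha]; omega
        · rw [rm_mu_other n a l b hb]
    have h6 : ∑ b, mu n a b ≤ ∑ b, mu n (dn (some l) a) b + 1 := by
      have h7 := Finset.add_sum_erase univ (fun b => mu n a b) (mem_univ (.inl l))
      have h8 := Finset.add_sum_erase univ (fun b => mu n (dn (some l) a) b) (mem_univ (.inl l))
      have h9 : ∑ b ∈ univ.erase (.inl l), mu n (dn (some l) a) b =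
          ∑ b ∈ univ.erase (.inl l), mu n a b :=
        Finset.sum_congr rfl fun b hb => rm_mu_other n a l b (Finset.ne_of_mem_erase hb)
      have h10 := rm_mu_some n a l ha
      omega
    have h7 : 1 ≤ (t + 1) ^ R := Nat.one_le_pow _ _ (by omega)
    have h8 : (t + 1) ^ R ≤ (t + 1) ^ (R + 1) := Nat.pow_le_pow_right (by omega) (by omega)
    omega

theorem RM_upper (j : ℕ) (hjR : j ≤ R) (n : Fin t ⊕ Fin s → ℕ) (a : Option (Fin t) → ℕ) :
    RM R j n a ≤ (t + 1) ^ R * (dd a + j + 1) ^ (j + 1) := by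
  have h1 := tau_le (t + 1) (R - j) (j + 1) (dd a)
  have h2 : (dd a + (j + 1)).choose (j + 1) ≤ (dd a + (j + 1)) ^ (j + 1) :=
    Nat.choose_le_pow _ _
  have h3 : (t + 1) ^ (R - j) ≤ (t + 1) ^ R := Nat.pow_le_pow_right (by omega) (by omega)
  have h4 : tau (t + 1) (R - j) (j + 1) (dd a) ≤ (t + 1) ^ R * (dd a + j + 1) ^ (j + 1) :=
    h1.trans (Nat.mul_le_mul h3 h2)
  have h5 : (0 : ℤ) ≤ ∑ b, (ell (j + 1) (mu n a b) : ℤ) :=
    Finset.sum_nonneg fun b _ => Int.natCast_nonneg _
  have h6 : (tau (t + 1) (R - j) (j + 1) (dd a) : ℤ) ≤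
      ((t + 1) ^ R * (dd a + j + 1) ^ (j + 1) : ℕ) := by exact_mod_cast h4
  unfold RM
  push_cast at h6
  linarith

end Pool.Agent.H18.Pr
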