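import Pool.Agent.H18.Pr.Space
import Pool.Agent.H18.Pr.FkL
import Pool.Agent.H18.Pr.NumRM

/-!
# Module SysM (PR): the main Horace system
-/

namespace Pool.Agent.H18.Pr

open Finset Pool.Agent.H18.Ex Pool.Agent.H18.Cub

variable {R t s : ℕ}

theorem gM_sep (t : ℕ) (u : Fin (R + 1)) (hu : 1 ≤ u.val) (l : Option (Fin t)) :
    (gM t u).Sep l := by
  have h0 : u ≠ 0 := by
    rintro rfl
    simp at hu
  intro l' h
  rcases l with _ | l <;> rcases l' with _ | l'
  · exact absurd rfl h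
  · left
    simpa [gM] using h0.symm
  · left
    simpa [gM] using h0
  · right
    intro h1
    apply h
    simp only [gM, Nat.cast_inj] at h1
    congr 1
    ext
    omega

private theorem SysM_map_layer {Λ : Type} (S : Multiset (Role Λ)) :
    (S.map fun r => (Kind.free r.layer : Kind Λ)) = (S.map Role.layer).map Kind.free := by
  rw [Multiset.map_map]
  rfl

private theorem SysM_resid (ht : 1 ≤ t) (u : Fin (R + 1)) (hu : 1 ≤ u.val)
    (n : Fin t ⊕ Fin s → ℕ) (a : Option (Fin t) → ℕ) (l : Option (Fin t)) (hl : 1 ≤ a l) :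
    ResW (gM t u) l (WM u n a) (WM u n (dn l a)) := by
  unfold WM
  rcases l with _ | l
  · rw [dd_dn_none a hl, mu_dn_none n a hl]
    exact WW_residS (gM t u) none (t + 1) (by omega) 0 u ⟨u.val - 1, by omega⟩
      (by simp only; omega) (Fin.zero_le _) rfl rfl 0 (dd a) _ (mu n a)
  · rw [dd_dn_some a l hl, mu_dn_some n a l hl]
    refine WW_residH (gM t u) (some l) (t + 1) 0 u (Fin.pos_iff_ne_zero.2 ?_)
      ((l.val + 1 : ℕ) : ℂ) rfl rfl 0 (dd a) (fun b : Fin t ⊕ Fin s => ((xx b : ℕ) : ℂ)) (mu n a) _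
      (fun b hb => ?_) (fun b hb => ?_)
    · rintro rfl
      simp at hu
    · have h1 : b = .inl l := xx_injective (Nat.cast_injective hb)
      rw [h1, Function.update_self]
    · rw [Function.update_of_ne]
      rintro rfl
      exact hb rfl

private theorem SysM_finite (u : Fin (R + 1)) (n : Fin t ⊕ Fin s → ℕ) (a : Option (Fin t) → ℕ) :
    FiniteDimensional ℂ (WM u n a) := WW_finite (t + 1) (by omega) 0 u 0 _ _ _

private theorem SysM_dd_zero : dd (0 : Option (Fin t) → ℕ) = 0 := by simp [dd]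

private theorem SysM_mu_zero (n : Fin t ⊕ Fin s → ℕ) (b : Fin t ⊕ Fin s) : mu n 0 b = 0 := by
  unfold mu
  have : uu (s := s) (0 : Option (Fin t) → ℕ) b = 0 := by
    rcases b with l | j <;> simp [uu]
  rw [this]
  omega

private theorem SysM_count (j : ℕ) (hj : 1 ≤ j) (hjR : j ≤ R) (n : Fin t ⊕ Fin s → ℕ)
    (a : Option (Fin t) → ℕ) (l : Option (Fin t)) (hl : 1 ≤ a l) (hF : 1 ≤ FM R j n l a) :
    RM R j n a = RM R j n (dn l a) + FM R j n l a := by
  rcases l with _ | l
  · rw [RM_diff_none j hj hjR n a hl]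
    congr 1
    have h1 : FM R j n none a = tau (t + 1) (R + 1 - j) j (dd a) - ∑ b, ell j (mu n a b) := rfl
    rw [h1] at hF ⊢
    unfold RM
    have h2 : R - (j - 1) = R + 1 - j := by omega
    have h3 : j - 1 + 1 = j := by omega
    rw [h2, h3, Nat.cast_sub (by omega)]
    push_cast
    rfl
  · rw [RM_diff_some j hj n a l hl]
    congr 1
    have h1 : FM R j n (some l) a = tau (t + 1) (R - j) j (dd a) - ell j (mu n a (.inl l)) := rfl
    rw [h1] at hF ⊢
    rw [Nat.cast_sub (by omega)]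

/-- The main system with top variable `u`.  For `count` use `RM_diff_none`, `RM_diff_some`; for `step`
and `bridge` use `GMP.step`, `GMP.bridge`, `WW_finite`, `WW_residS`, `WW_residH`, `dd_dn_none` etc. -/
noncomputable def sysM (ht : 1 ≤ t) (u : Fin (R + 1)) (hu : 1 ≤ u.val)
    (n : Fin t ⊕ Fin s → ℕ) : SysN (Option (Fin t)) u.val where
  K := fun a S => GMP (gM t u) (WM u n a) S
  F := FM R u.val n
  R := RM R u.val n
  tr := fun l a S => GMP (gM t u) (trW (gM t u) l (WM u n a)) (S.map Kind.free)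
  mono := fun a S S' h hS => GMP.mono h hS
  free_mono := fun a T S hT h => GMP.free_mono T hT S h
  tr_mono := fun l a S S' h hS => GMP.mono (Multiset.map_le_map h) hS
  count := by
    intro a l hl hF
    exact SysM_count u.val hu (by omega) n a l hl hF
  step := by
    intro a l hl μ hμ S hS htr h
    have := SysM_finite u n a
    have := SysM_finite u n (dn l a)
    refine GMP.step (gM t u) l (gM_sep t u hu l) _ _ (SysM_resid ht u hu n a l hl) μ hμ S hS ?_ h
    rw [SysM_map_layer]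
    exact htr
  bridge := by
    intro a l hl S m h1 h2
    have := SysM_finite u n a
    have := SysM_finite u n (dn l a)
    exact GMP.bridge (gM t u) l (gM_sep t u hu l) _ _ (SysM_resid ht u hu n a l hl) S m h1 h2
  base := by
    unfold WM
    rw [SysM_dd_zero]
    exact WW_base (gM t u) (t + 1) (by omega) 0 u 0 _ _
  base_R := by
    unfold RM
    rw [SysM_dd_zero, tau_zero_right (t + 1) _ _ (by omega), sum_eq_zero fun b _ => by
      rw [SysM_mu_zero, ell_zero (by omega)]; simp]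
    simp

theorem sysM_tr_none (ht : 1 ≤ t) (u u' : Fin (R + 1)) (hu : 1 ≤ u.val)
    (huu : u.val = u'.val + 1) (n : Fin t ⊕ Fin s → ℕ) (a : Option (Fin t) → ℕ) (S : Multiset ℕ)
    (h : Fk (WM u' n a) S) : (sysM ht u hu n).tr none a S := by
  have h1 := WW_traceS (gM t u) none (t + 1) (by omega) 0 u u' huu (Fin.zero_le _) rfl rfl 0
    (dd a) (fun b : Fin t ⊕ Fin s => ((xx b : ℕ) : ℂ)) (mu n a)
  exact (Fk_iff (gM t u) _ S).1 (Fk.anti h1 h)

theorem sysM_tr_some (ht : 1 ≤ t) (u v : Fin (R + 1)) (hu : 1 ≤ u.val) (hv : v.val = 1)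
    (n : Fin t ⊕ Fin s → ℕ) (a : Option (Fin t) → ℕ) (l : Fin t) (S : Multiset ℕ)
    (h : Fk (WW (t + 1) v u ((((l.val + 1) ^ (t + 1) : ℕ) : ℂ)) (dd a) (fun _ : Unit => (0 : ℂ))
      fun _ => mu n a (.inl l)) S) : (sysM ht u hu n).tr (some l) a S := by
  have h0 : v ≤ u := by
    change v.val ≤ u.val
    omega
  have h1 := WW_traceH (gM t u) (some l) (t + 1) 0 v u (by rw [hv]; rfl) h0
    ((l.val + 1 : ℕ) : ℂ) rfl rfl 0 (dd a) (fun b : Fin t ⊕ Fin s => ((xx b : ℕ) : ℂ)) (mu n a)
    (.inl l) rfl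
  have h3 : (((l.val + 1 : ℕ) : ℂ) + 0) ^ (t + 1) = ((((l.val + 1) ^ (t + 1) : ℕ) : ℂ)) := by
    rw [add_zero]
    push_cast
    ring
  rw [h3] at h1
  exact (Fk_iff (gM t u) _ S).1 (Fk.anti h1 h)

end Pool.Agent.H18.Pr
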