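import Pool.Agent.H18.Pr.FullV
import Pool.Agent.H18.Pr.NumFM
import Pool.Agent.H18.Pr.SysM

/-!
# Module FullM (PR): dimensions in the main family
-/

namespace Pool.Agent.H18.Pr

open Finset Pool.Agent.H18.Ex Pool.Agent.H18.Cub

variable {R t s : ℕ}

/-! ### Auxiliary facts -/

/-- States without the curve. -/
private theorem fullM_lines (ht : 1 ≤ t) (hR : 1 ≤ R) (u : Fin (R + 1)) (hu : 1 ≤ u.val)
    (n : Fin t ⊕ Fin s → ℕ) (k : ℕ) : ∀ a : Option (Fin t) → ℕ, a none = 0 →
      ∑ l : Fin t, a (some l) = k → FullN (sysM ht u hu n) a := by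
  induction k with
  | zero =>
    intro a h0 hk
    have ha : a = 0 := by
      funext i
      rcases i with _ | l
      · exact h0
      · exact Finset.sum_eq_zero_iff.1 hk l (mem_univ l)
    rw [ha]
    exact fullN_zero _
  | succ k ih =>
    intro a h0 hk
    obtain ⟨l, -, hl⟩ : ∃ l ∈ (univ : Finset (Fin t)), a (some l) ≠ 0 := by
      apply Finset.exists_ne_zero_of_sum_ne_zero
      omega
    have hmu : mu n a (.inl l) ≤ dd a := by
      have h1 : a (some l) ≤ ∑ l, a (some l) :=
        single_le_sum (f := fun l => a (some l)) (fun _ _ => Nat.zero_le _) (mem_univ l)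
      simp only [mu, uu, dd]
      rw [h0]
      omega
    have hFM : (sysM ht u hu n).F (some l) a =
        tau (t + 1) (R - u.val) u.val (dd a) - ell u.val (mu n a (.inl l)) := rfl
    refine FullN.step (some l) (by omega) ?_ ?_ (ih (dn (some l) a) ?_ ?_)
    · rw [hFM]
      have := ell_lt_tau (t + 1) (R - u.val) u.val (dd a) (mu n a (.inl l)) (by omega) hu hmu
      omega
    · refine sysM_tr_some ht u ⟨1, by omega⟩ hu rfl n a l _ ?_
      refine dimV (t + 1) (by omega) ⟨1, by omega⟩ u hu ((l.val + 1) ^ (t + 1))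
        (Nat.pow_pos (by omega)) (dd a) _ hmu _ ?_
      have h1 : u.val - (⟨1, by omega⟩ : Fin (R + 1)).val + 1 = u.val := by
        simp only
        omega
      rw [h1, hFM]
      omega
    · rw [dn_ne (by simp), h0]
    · have h1 := Finset.add_sum_erase univ (fun l' : Fin t => a (some l')) (mem_univ l)
      have h2 := Finset.add_sum_erase univ (fun l' : Fin t => dn (some l) a (some l')) (mem_univ l)
      have h3 : ∑ l' ∈ univ.erase l, dn (some l) a (some l') =
          ∑ l' ∈ univ.erase l, a (some l') := by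
        refine Finset.sum_congr rfl fun l' hl' => ?_
        rw [dn_ne]
        intro h
        exact (Finset.ne_of_mem_erase hl') (Option.some.inj h)
      have h4 : dn (some l) a (some l) = a (some l) - 1 := dn_self _ _
      rw [h3, h4] at h2
      omega

/-- All states with margins, provided that the traces on the curve behave as expected. -/
private theorem fullM_curve (ht : 1 ≤ t) (hR : 1 ≤ R) (hts : t + s = (t + 1) ^ (R + 1))
    (u u' : Fin (R + 1)) (hu : 1 ≤ u.val) (huu : u.val = u'.val + 1)
    (n : Fin t ⊕ Fin s → ℕ)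
    (IH : ∀ a : Option (Fin t) → ℕ, Mg R 1 n a → ∀ S : ℕ, RM R u'.val n a ≤ S →
      Fk (WM u' n a) (Multiset.replicate S 1)) (k : ℕ) :
    ∀ a : Option (Fin t) → ℕ, a none = k → (a none = 0 ∨ Mg R 1 n a) →
      FullN (sysM ht u hu n) a := by
  induction k with
  | zero =>
    intro a h0 _
    exact fullM_lines ht hR u hu n _ a h0 rfl
  | succ k ih =>
    intro a hk h
    have hM : Mg R 1 n a := by
      rcases h with h | h
      · omega
      · exact h
    have hFM : ((sysM ht u hu n).F none a : ℤ) = RM R u'.val n a := by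
      have h1 := FM_eq (s := s) ht hR hts u.val hu (by omega) hM none (by omega)
      have h2 := RM_diff_none (R := R) u.val hu (by omega) n a (by omega)
      have h3 : u.val - 1 = u'.val := by omega
      rw [h3] at h2
      have h4 : (sysM ht u hu n).F none a = FM R u.val n none a := rfl
      rw [h4, h1, h2]
      ring
    have hu'R : u'.val ≤ R := by omega
    have hpos : 1 ≤ RM R u'.val n a := RM_pos (s := s) ht hR hts u'.val hu'R (Or.inr hM)
    have hF1 : 1 ≤ (sysM ht u hu n).F none a := by omega
    have ha1 : 1 ≤ a none := by omega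
    refine FullN.step none ha1 hF1 ?_ (ih (dn none a) ?_ ?_)
    · exact sysM_tr_none ht u u' hu huu n a _ (IH a hM _ hFM.symm.le)
    · rw [dn_self, hk]
      rfl
    · rcases Nat.eq_zero_or_pos k with hk0 | hk0
      · left
        rw [dn_self]
        omega
      · right
        exact hM.none ht hR hts (a none - 1) (by omega) (by omega)

/-- The dimension is at most the expected one.

Induction on `u`.  For `u = 0` use `WW_one` (`y = xx`).  For `u ≥ 1`: first the states with
`a none = 0`, by induction on `∑ a_l`, with `FullN.step` in the directions `some l` for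
`sysM ht u hu n` (`sysM_tr_some`, `dimV` with `v = 1`, `FM` is positive by `ell_lt_tau`), starting from
`fullN_zero`; then induction on `a none`, with `FullN.step` in direction `none` (`sysM_tr_none`, the
induction hypothesis for `u - 1`, `FM_eq`, `RM_pos`, `Mg.none`). -/
theorem dimM (ht : 1 ≤ t) (hR : 1 ≤ R) (hts : t + s = (t + 1) ^ (R + 1)) (u : Fin (R + 1))
    (n : Fin t ⊕ Fin s → ℕ) (a : Option (Fin t) → ℕ) (h : a none = 0 ∨ Mg R 1 n a) (S : ℕ)
    (hS : RM R u.val n a ≤ S) : Fk (WM u n a) (Multiset.replicate S 1) := by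
  obtain ⟨k, hk⟩ : ∃ k, u.val = k := ⟨_, rfl⟩
  induction k generalizing u a S with
  | zero =>
    have hu0 : (0 : Fin (R + 1)) = u := by
      ext
      rw [hk]
      rfl
    unfold WM
    rw [hu0]
    refine WW_one (t + 1) (by omega) u 0 (dd a) _ (mu n a) xx xx_injective xx_pos
      (fun b => by rw [add_zero]) _ ?_
    rw [Multiset.sum_replicate, smul_eq_mul, mul_one]
    unfold RM at hS
    rw [hk] at hS ⊢
    have h1 : ∑ b, (ell (0 + 1) (mu n a b) : ℤ) = ((∑ b, mu n a b : ℕ) : ℤ) := by
      push_cast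
      refine sum_congr rfl fun b _ => ?_
      rw [ell_one_left]
    rw [h1, zero_add] at hS
    omega
  | succ k ih =>
    have hu : 1 ≤ u.val := by omega
    have hfull := fullM_curve (s := s) ht hR hts u ⟨k, by omega⟩ hu hk n
      (fun a' ha' S' hS' => ih ⟨k, by omega⟩ a' (Or.inr ha') S' hS' rfl) _ a rfl h
    have h1 := hfull.2 S hS
    rw [Fk_iff (gM t u), Multiset.map_replicate]
    exact h1

/-- The numerical properties of the main system (`RM_slow`, `FM_eq`, `FM_lower`, `FM_drop`, `RM_pos`, `dimM`,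
`Mg.reg`, `sysM_tr_none`, `sysM_tr_some`). -/
theorem numR_sysM (ht : 1 ≤ t) (hR : 1 ≤ R) (hts : t + s = (t + 1) ^ (R + 1))
    (u u' v : Fin (R + 1)) (hu : 1 ≤ u.val) (huu : u.val = u'.val + 1) (hv : v.val = 1) :
    ∃ C : ℕ, 1 ≤ C ∧ ∀ M T Ta : ℕ, 1 ≤ M → TT u.val M (t + 1) ≤ T → C * T ≤ Ta →
      ExM t s u' M Ta → ExV (t + 1) v u M Ta → ∀ (n : Fin t ⊕ Fin s → ℕ)
      (N : Option (Fin t) → ℕ), Mg R Ta n N → NumR (sysM ht u hu n) M T Ta N := by
  have huR : u.val ≤ R := by omega
  obtain ⟨C1, hC11, hC1⟩ := FM_lower (s := s) ht hR hts u.val hu huR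
  obtain ⟨C2, hC21, hC2⟩ := FM_drop (s := s) ht hR hts u.val hu huR
  obtain ⟨C3, hC31, hC3⟩ := RM_slow (s := s) ht hR hts u.val huR
  refine ⟨C1 + C2 + C3 + R * t + 1, by omega, ?_⟩
  intro M T Ta hM hT hTa hExM hExV n N hN
  have hT1 : 1 ≤ T := by
    have : 8 ≤ TT u.val M (t + 1) := by
      unfold TT
      omega
    omega
  have hexp : (C1 + C2 + C3 + R * t + 1) * T = C1 * T + C2 * T + C3 * T + R * t * T + T := by
    ring
  rw [hexp] at hTa
  have h1T : C1 * 1 ≤ C1 * T := Nat.mul_le_mul_left _ hT1
  have h2T : R * t * 1 ≤ R * t * T := Nat.mul_le_mul_left _ hT1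
  have hreg : ∀ a : Option (Fin t) → ℕ, Reg N Ta a → Mg R Ta n a := fun a ha =>
    hN.reg ht hR hts le_rfl (by omega) ha
  refine ⟨hu, hM, by omega, ?_, ?_, ?_, ?_, ?_, ?_⟩
  · have h1 : Fintype.card (Option (Fin t)) = t + 1 := by simp
    rw [h1]
    exact hT
  · intro a b l ha hal hab hbN
    exact hC2 T hT1 n N a b Ta (by omega) hN ha hab hbN l hal
  · intro a l ha hal
    have h1 := hC1 Ta n a (by omega) (hreg a ha) l (by omega)
    change T ≤ FM R u.val n l a
    omega
  · intro a l ha hal
    have hMa := hreg a ha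
    have h1 := (hC3 T hT1 n a (hMa.le (by omega)) l (by omega)).2
    have h2 := FM_eq (s := s) ht hR hts u.val hu huR (hMa.le (by omega)) l (by omega)
    change (T : ℤ) * (FM R u.val n l a : ℕ) ≤ RM R u.val n a
    rw [h2]
    exact h1
  · intro a ha
    have hMa : Mg R 1 n a := (hreg a ha).le (by omega)
    refine ⟨RM_pos ht hR hts u.val huR (Or.inr hMa), fun S hS => ?_⟩
    have h1 := dimM ht hR hts u n a (Or.inr hMa) S hS
    rw [Fk_iff (gM t u), Multiset.map_replicate] at h1
    exact h1
  · intro a l ha hal S hS hF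
    have hMa := hreg a ha
    rcases l with _ | l
    · refine sysM_tr_none ht u u' hu huu n a S (hExM n a hMa S hS ?_)
      change FM R u.val n none a ≤ _ at hF
      have h1 : FM R u.val n none a =
          tau (t + 1) (R + 1 - u.val) u.val (dd a) - ∑ b, ell u.val (mu n a b) := rfl
      have h2 : R - u'.val = R + 1 - u.val := by omega
      rw [h2, ← huu]
      omega
    · have hv' : u.val - v.val + 1 = u.val := by omega
      refine sysM_tr_some ht u v hu hv n a l S (hExV ((l.val + 1) ^ (t + 1))
        (Nat.pow_pos (by omega)) (dd a) _ (hMa.line l) S hS ?_)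
      change FM R u.val n (some l) a ≤ _ at hF
      have h1 : FM R u.val n (some l) a =
          tau (t + 1) (R - u.val) u.val (dd a) - ell u.val (mu n a (.inl l)) := rfl
      rw [hv']
      omega

end Pool.Agent.H18.Pr
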