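import Pool.Agent.H18.Pr.Kap
import Pool.Agent.H18.Pr.FkL
import Pool.Agent.H18.Cub.Trace

/-!
# Module OneD (PR): exactness in dimension one
-/

namespace Pool.Agent.H18.Pr

open Finset Pool.Agent.H18.Ex Pool.Agent.H18.Cub

variable {R : ℕ}

private theorem one_tay {ι : Type} [Fintype ι] [DecidableEq ι] (i : ι) (f : Polynomial ℂ)
    (q : ι → ℂ) (j : ℕ) :
    tay (Polynomial.aeval (MvPolynomial.X i : MvPolynomial ι ℂ) f) q (Pi.single i j) =
      (Polynomial.taylor (q i) f).coeff j := by
  unfold tay
  have h1 : trl q (Polynomial.aeval (MvPolynomial.X i : MvPolynomial ι ℂ) f) =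
      Polynomial.aeval (MvPolynomial.X i : MvPolynomial ι ℂ) (Polynomial.taylor (q i) f) := by
    rw [← Polynomial.aeval_algHom_apply, Polynomial.taylor_apply, Polynomial.aeval_comp]
    congr 1
    congr 1
    unfold trl
    rw [MvPolynomial.aeval_X, map_add, Polynomial.aeval_X, Polynomial.aeval_C]
    rfl
  rw [h1]
  set h := Polynomial.taylor (q i) f with hh
  have h2 : Finsupp.equivFunOnFinite.symm (Pi.single i j : ι → ℕ) = Finsupp.single i j :=
    Finsupp.equivFunOnFinite_symm_single i j
  rw [h2, Polynomial.aeval_eq_sum_range, MvPolynomial.coeff_sum]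
  have h3 : ∀ n, MvPolynomial.coeff (Finsupp.single i j)
      (h.coeff n • (MvPolynomial.X i : MvPolynomial ι ℂ) ^ n) =
        if n = j then h.coeff n else 0 := by
    intro n
    rw [MvPolynomial.coeff_smul, MvPolynomial.coeff_X_pow]
    by_cases hn : n = j
    · subst hn
      simp
    · rw [if_neg hn, if_neg, smul_zero]
      intro h4
      exact hn (Finsupp.single_injective i h4)
  rw [Finset.sum_congr rfl fun n _ => h3 n]
  by_cases hj : j ∈ range (h.natDegree + 1)
  · rw [Finset.sum_ite_eq' (range (h.natDegree + 1)) j fun n => h.coeff n, if_pos hj]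
  · rw [Finset.sum_ite_eq' (range (h.natDegree + 1)) j fun n => h.coeff n, if_neg hj]
    rw [Finset.mem_range] at hj
    exact (Polynomial.coeff_eq_zero_of_natDegree_lt (by omega)).symm

private theorem one_dvd {ι : Type} [Fintype ι] [DecidableEq ι] (i : ι) (f : Polynomial ℂ)
    (q : ι → ℂ) (s : ℕ)
    (h : ∀ b : ι → ℕ, ∑ k, b k < s →
      tay (Polynomial.aeval (MvPolynomial.X i : MvPolynomial ι ℂ) f) q b = 0) :
    (Polynomial.X - Polynomial.C (q i)) ^ s ∣ f := by
  rw [Polynomial.X_sub_C_pow_dvd_iff, Polynomial.X_pow_dvd_iff]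
  intro j hj
  have h1 := h (Pi.single i j) (by rw [Finset.sum_pi_single']; simpa using hj)
  rw [one_tay] at h1
  rwa [Polynomial.taylor_apply] at h1

/-- A polynomial in one of the variables. -/
private theorem one_uni (u : Fin (R + 1)) (F : MvPolynomial (Fin (R + 1)) ℂ)
    (hF : ∀ i, i < u ∨ u < i → F.degreeOf i = 0) :
    Polynomial.aeval (MvPolynomial.X u : MvPolynomial (Fin (R + 1)) ℂ)
      (MvPolynomial.aeval (fun _ => (Polynomial.X : Polynomial ℂ)) F) = F := by
  have hv : ∀ i ∈ F.vars, i = u := by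
    intro i hi
    by_contra hne
    have h0 := hF i (lt_or_gt_of_ne hne)
    rw [MvPolynomial.vars_def, Multiset.mem_toFinset] at hi
    rw [MvPolynomial.degreeOf_def, Multiset.count_eq_zero] at h0
    exact h0 hi
  have := MvPolynomial.hom_congr_vars
    (f₁ := ((Polynomial.aeval (MvPolynomial.X u : MvPolynomial (Fin (R + 1)) ℂ)).comp
      (MvPolynomial.aeval (fun _ : Fin (R + 1) => (Polynomial.X : Polynomial ℂ))) :
        MvPolynomial (Fin (R + 1)) ℂ →ₐ[ℂ] MvPolynomial (Fin (R + 1)) ℂ).toRingHom)
    (f₂ := RingHom.id _) (p₁ := F) (p₂ := F) ?_ ?_ rfl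
  · exact this
  · ext1 c
    simp [MvPolynomial.algebraMap_eq]
  · intro i hi _
    simp [hv i hi]

private theorem one_supp (g : Polynomial ℂ) (u : Fin (R + 1)) (n : ℕ) (hn : n ∈ g.support) :
    Finsupp.single u n ∈
      (Polynomial.aeval (MvPolynomial.X u : MvPolynomial (Fin (R + 1)) ℂ) g).support := by
  rw [MvPolynomial.mem_support_iff, Polynomial.aeval_eq_sum_range, MvPolynomial.coeff_sum]
  have h3 : ∀ k, MvPolynomial.coeff (Finsupp.single u n)
      (g.coeff k • (MvPolynomial.X u : MvPolynomial (Fin (R + 1)) ℂ) ^ k) =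
        if k = n then g.coeff k else 0 := by
    intro k
    rw [MvPolynomial.coeff_smul, MvPolynomial.coeff_X_pow]
    by_cases hn : k = n
    · subst hn
      simp
    · rw [if_neg hn, if_neg, smul_zero]
      intro h4
      exact hn (Finsupp.single_injective u h4)
  rw [Finset.sum_congr rfl fun n _ => h3 n]
  rw [Finset.sum_ite_eq' (range (g.natDegree + 1)) n fun n => g.coeff n, if_pos]
  · exact Polynomial.mem_support_iff.1 hn
  · rw [Finset.mem_range]
    exact Nat.lt_succ_of_le (Polynomial.le_natDegree_of_mem_supp n hn)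

private theorem one_Th (e : ℕ) (u : Fin (R + 1)) (p : ℂ) (f : Polynomial ℂ) :
    Th e u u p (Polynomial.aeval (MvPolynomial.X u : MvPolynomial (Fin (R + 1)) ℂ) f) =
      Polynomial.aeval (MvPolynomial.X u : MvPolynomial (Fin (R + 1)) ℂ)
        (f.comp (Polynomial.X - Polynomial.C p)) := by
  rw [← Polynomial.aeval_algHom_apply, Polynomial.aeval_comp]
  congr 1
  congr 1
  unfold Th
  rw [MvPolynomial.aeval_X, if_pos rfl, map_sub, Polynomial.aeval_X, Polynomial.aeval_C]
  rfl

private theorem one_cost (e : ℕ) (u : Fin (R + 1)) (n : ℕ) :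
    cost e u (Finsupp.single u n) = kap e (R - u.val) n := by
  unfold cost
  rw [Finset.sum_eq_single u]
  · simp
  · intro b _ hb
    rw [if_neg hb, Finsupp.single_eq_of_ne hb]
  · intro h
    exact absurd (mem_univ _) h

private theorem one_shift (f : Polynomial ℂ) (a p : ℂ) (s : ℕ)
    (h : (Polynomial.X - Polynomial.C a) ^ s ∣ f) :
    (Polynomial.X - Polynomial.C (a + p)) ^ s ∣ f.comp (Polynomial.X - Polynomial.C p) := by
  obtain ⟨g, rfl⟩ := h
  rw [Polynomial.mul_comp, Polynomial.pow_comp, Polynomial.sub_comp, Polynomial.X_comp,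
    Polynomial.C_comp, map_add, sub_sub, add_comm (Polynomial.C p)]
  exact Dvd.intro _ rfl

/-- An element of `WW e u u p d x m` is a polynomial in `z_u`; as a polynomial in `x_u = z_u + p` it
has exponents `a` with `kap e (R - u) a ≤ d`, that is at most `tau e (R - u) 1 d` exponents
(`kap_card`, `le_kap`), and zeros of order `m b` at the positive integers `y b`.  Choose the free points at
further positive integers and use the theorem of Descartes (`Pool.Agent.H18.Cub.Desc`), as in
`WC_trace_curve`. -/
theorem WW_one (e : ℕ) (he : 1 ≤ e) (u : Fin (R + 1)) (p : ℂ) (d : ℕ) {B : Type} [Fintype B]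
    (x : B → ℂ) (m : B → ℕ) (y : B → ℕ) (hy : Function.Injective y) (hpos : ∀ b, 0 < y b)
    (hxy : ∀ b, x b + p = (y b : ℂ)) (S : Multiset ℕ)
    (h : tau e (R - u.val) 1 d ≤ ∑ b, m b + S.sum) : Fk (WW e u u p d x m) S := by
  obtain ⟨k, s, hs⟩ := multi_exists_fin S
  refine ⟨k, s, hs, ?_⟩
  set Y : Fin k → ℕ := fun i => ∑ b, y b + 1 + i with hY
  refine ⟨fun i => ptv u ((Y i : ℂ) - p), fun F hF hsat => ?_⟩
  obtain ⟨hF1, hF2, hF3⟩ := hF
  set f : Polynomial ℂ := MvPolynomial.aeval (fun _ => (Polynomial.X : Polynomial ℂ)) F with hf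
  have hfF : Polynomial.aeval (MvPolynomial.X u : MvPolynomial (Fin (R + 1)) ℂ) f = F :=
    one_uni u F hF1
  suffices hf0 : f.comp (Polynomial.X - Polynomial.C p) = 0 by
    have : f = 0 := by
      have h2 : (f.comp (Polynomial.X - Polynomial.C p)).comp (Polynomial.X + Polynomial.C p) = f := by
        rw [Polynomial.comp_assoc]
        simp
      rw [← h2, hf0, Polynomial.zero_comp]
    rw [← hfF, this, map_zero]
  have hpt : ∀ a : ℂ, ptv u a u = a := fun a => by simp [ptv]
  have hd1 : ∀ b, (Polynomial.X - Polynomial.C (y b : ℂ)) ^ m b ∣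
      f.comp (Polynomial.X - Polynomial.C p) := by
    intro b
    rw [← hxy b]
    apply one_shift
    have := one_dvd u f (ptv u (x b)) (m b) fun β hβ => by
      rw [hfF]; exact hF3 b β hβ
    rwa [hpt] at this
  have hd2 : ∀ i, (Polynomial.X - Polynomial.C (Y i : ℂ)) ^ s i ∣
      f.comp (Polynomial.X - Polynomial.C p) := by
    intro i
    have h0 : (Y i : ℂ) = ((Y i : ℂ) - p) + p := by ring
    rw [h0]
    apply one_shift
    have := one_dvd u f (ptv u ((Y i : ℂ) - p)) (s i) fun β hβ => by
      rw [hfF]; exact hsat i β hβ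
    rwa [hpt] at this
  refine descartes_complex _ (Sum.elim (fun b => (y b : ℝ)) fun i => (Y i : ℝ)) ?_ ?_
    (Sum.elim m s) ?_ ?_
  · have hxY : ∀ b i, y b ≠ Y i := by
      intro b i hbi
      have h1 : y b ≤ ∑ b, y b := Finset.single_le_sum (fun _ _ => Nat.zero_le _) (mem_univ b)
      rw [hY] at hbi
      simp only at hbi
      omega
    have hYi : ∀ i i', Y i = Y i' → i = i' := by
      intro i i' hii
      rw [hY] at hii
      simp only at hii
      exact Fin.ext (by omega)
    rintro (b | i) (b' | i') hbb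
    · simp only [Sum.elim_inl, Nat.cast_inj] at hbb
      rw [hy hbb]
    · simp only [Sum.elim_inl, Sum.elim_inr, Nat.cast_inj] at hbb
      exact absurd hbb (hxY b i')
    · simp only [Sum.elim_inl, Sum.elim_inr, Nat.cast_inj] at hbb
      exact absurd hbb.symm (hxY b' i)
    · simp only [Sum.elim_inr, Nat.cast_inj] at hbb
      rw [hYi i i' hbb]
  · rintro (b | i)
    · simp only [Sum.elim_inl, Nat.cast_pos]
      exact hpos b
    · simp only [Sum.elim_inr, Nat.cast_pos]
      rw [hY]
      simp only
      omega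
  · rintro (b | i)
    · have := hd1 b
      simpa using this
    · have := hd2 i
      simpa using this
  · have h1 : (f.comp (Polynomial.X - Polynomial.C p)).support.card ≤
        tau e (R - u.val) 1 d := by
      rw [← kap_card e (R - u.val) d he]
      apply Finset.card_le_card
      intro n hn
      have h3 := hF2 (Finsupp.single u n) (by
        rw [← hfF, one_Th]
        exact one_supp _ u n hn)
      rw [one_cost] at h3
      rw [Finset.mem_filter, Finset.mem_range]
      refine ⟨?_, h3⟩
      have h4 := le_kap e (R - u.val) n he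
      have h5 : e ^ (R - u.val) * (kap e (R - u.val) n + 1) ≤ e ^ (R - u.val) * (d + 1) :=
        Nat.mul_le_mul_left _ (by omega)
      omega
    have h2 : ∑ k, Sum.elim m s k = ∑ b, m b + S.sum := by
      rw [Fintype.sum_sum_type, ← hs]
      rfl
    rw [h2]
    exact h1.trans h

end Pool.Agent.H18.Pr
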