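import Pool.Agent.H18.Pr.SysV
import Pool.Agent.H18.Pr.OneD

/-!
# Module FullV (PR): dimensions for one big point, and the numerical properties
-/

namespace Pool.Agent.H18.Pr

open Finset Pool.Agent.H18.Ex Pool.Agent.H18.Cub

variable {R : ℕ}

/-- The fields of the system. -/
private theorem FullV_F (e : ℕ) (he : 2 ≤ e) (v u : Fin (R + 1)) (hvu : v < u) (p : ℂ) (k : ℕ)
    (l : Unit) (a : Unit → ℕ) : (sysV e he v u hvu p k).F l a =
      tau e (R - u.val) (u.val - v.val) (a ()) - ell (u.val - v.val) (a () - k) := rfl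

private theorem FullV_R (e : ℕ) (he : 2 ≤ e) (v u : Fin (R + 1)) (hvu : v < u) (p : ℂ) (k : ℕ)
    (a : Unit → ℕ) : (sysV e he v u hvu p k).R a =
      (tau e (R - u.val) (u.val - v.val + 1) (a ()) : ℤ) -
        ell (u.val - v.val + 1) (a () - k) := rfl

/-- The dimensions of the states, given the traces. -/
private theorem FullV_full (e : ℕ) (he : 2 ≤ e) (v v' u : Fin (R + 1)) (hvu : v < u)
    (hv : v'.val = v.val + 1) (q k : ℕ)
    (IH : ∀ d m : ℕ, m ≤ d → ∀ S : ℕ,
      tau e (R - u.val) (u.val - v'.val + 1) d ≤ ell (u.val - v'.val + 1) m + S →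
      Fk (WW e v' u ((q ^ e : ℕ) : ℂ) d (fun _ : Unit => (0 : ℂ)) fun _ => m)
        (Multiset.replicate S 1)) (d : ℕ) :
    FullN (sysV e he v u hvu (q : ℂ) k) (fun _ => d) := by
  have h0 : v.val < u.val := hvu
  have hj : u.val - v'.val + 1 = u.val - v.val := by omega
  rw [hj] at IH
  induction d with
  | zero => exact fullN_zero _
  | succ d ih =>
    have h1 := ell_lt_tau e (R - u.val) (u.val - v.val) (d + 1) (d + 1 - k) (by omega) (by omega)
      (by omega)
    refine FullN.step () (by simp) ?_ ?_ ?_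
    · rw [FullV_F]
      omega
    · refine sysV_tr e he v v' u hvu hv q k _ _ (IH (d + 1) (d + 1 - k) (by omega) _ ?_)
      rw [FullV_F]
      omega
    · have h2 : dn () (fun _ : Unit => d + 1) = fun _ => d := by
        funext x
        rw [dn_self]
        rfl
      rw [h2]
      exact ih

private theorem FullV_dim (e : ℕ) (he : 2 ≤ e) (u : Fin (R + 1)) : ∀ j : ℕ, ∀ v : Fin (R + 1),
    v.val + j = u.val → ∀ q : ℕ, 0 < q → ∀ d m : ℕ, m ≤ d → ∀ S : ℕ,
    tau e (R - u.val) (j + 1) d ≤ ell (j + 1) m + S →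
    Fk (WW e v u (q : ℂ) d (fun _ : Unit => (0 : ℂ)) fun _ => m) (Multiset.replicate S 1) := by
  intro j
  induction j with
  | zero =>
    intro v hv q hq d m _ S h
    obtain rfl : v = u := Fin.ext (by omega)
    refine WW_one e (by omega) v (q : ℂ) d (fun _ : Unit => (0 : ℂ)) (fun _ => m) (fun _ => q)
      (fun a b _ => rfl) (fun _ => hq) (fun _ => by simp) _ ?_
    rw [Multiset.sum_replicate]
    have h1 : ell (0 + 1) m = m := by
      unfold ell
      simp
    rw [h1] at h
    simpa using h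
  | succ j ih =>
    intro v hv q hq d m hm S h
    have hvu : v < u := by
      change v.val < u.val
      omega
    have hlt : v.val + 1 < R + 1 := by omega
    have hj : u.val - v.val = j + 1 := by omega
    have hfull := FullV_full e he v ⟨v.val + 1, hlt⟩ u hvu rfl q (d - m) (fun d' m' hm' S' h' => by
      refine ih ⟨v.val + 1, hlt⟩ (by simp only; omega) (q ^ e) (pow_pos hq e) d' m' hm' S' ?_
      have h1 : u.val - (v.val + 1) + 1 = j + 1 := by omega
      rw [← h1]
      exact h') d
    have h2 := hfull.2 S ?_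
    · have h3 : GMP (gV v) (WW e v u (q : ℂ) d (fun _ : Unit => (0 : ℂ)) fun _ => d - (d - m))
        (Multiset.replicate S (Kind.free 1)) := h2
      have h4 : d - (d - m) = m := by omega
      rw [h4] at h3
      rw [Fk_iff (gV v), Multiset.map_replicate]
      exact h3
    · rw [FullV_R, hj]
      have h4 : d - (d - m) = m := by omega
      simp only [h4]
      omega

/-- The dimension is at most the expected one.  Induction on `u - v`: for `u = v` use `WW_one`
(`B = Unit`, `y = q`); for `v < u` induction on `d`, with `FullN.step` for the system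
`sysV e he v u hvu q (d - m)` (all states), `sysV_tr`, `ell_lt_tau`, starting from `fullN_zero`. -/
theorem dimV (e : ℕ) (he : 2 ≤ e) (v u : Fin (R + 1)) (hvu : v ≤ u) (q : ℕ) (hq : 0 < q)
    (d m : ℕ) (hm : m ≤ d) (S : ℕ)
    (h : tau e (R - u.val) (u.val - v.val + 1) d ≤ ell (u.val - v.val + 1) m + S) :
    Fk (WW e v u (q : ℂ) d (fun _ : Unit => (0 : ℂ)) fun _ => m) (Multiset.replicate S 1) := by
  have h0 : v.val ≤ u.val := hvu
  exact FullV_dim e he u (u.val - v.val) v (by omega) q hq d m hm S h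

/-- The numerical properties of the system of one big point.  (`floor`, `rlow`, `drop`: `tau_slow` for
`j = u - v - 1` and `j = u - v`, `tau_drop`; `full`: `dimV` and `ell_lt_tau`; `gd`: `sysV_tr` and the
hypothesis.) -/
theorem numR_sysV (e : ℕ) (he : 2 ≤ e) (v v' u : Fin (R + 1)) (hvu : v < u)
    (hv : v'.val = v.val + 1) : ∃ C : ℕ, 1 ≤ C ∧ ∀ M T Ta : ℕ, 1 ≤ M →
      TT (u.val - v.val) M 1 ≤ T → C * T ≤ Ta → ExV e v' u M Ta → ∀ q k N : ℕ, 0 < q → Ta ≤ k →
      NumR (sysV e he v u hvu (q : ℂ) k) M T Ta (fun _ => N) := by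
  have h0 : v.val < u.val := hvu
  obtain ⟨j, hj⟩ : ∃ j, u.val - v.val = j + 1 := ⟨u.val - v.val - 1, by omega⟩
  obtain ⟨C1, hC1, hs1⟩ := tau_slow e (R - u.val) j (by omega)
  obtain ⟨C2, hC2, hs2⟩ := tau_slow e (R - u.val) (j + 1) (by omega)
  refine ⟨C1 + C2, by omega, ?_⟩
  intro M T Ta hM hT hTa hEx q k N hq hk
  have hT1 : 1 ≤ T := by
    unfold TT at hT
    omega
  have hCT : C1 * T + C2 * T ≤ Ta := by
    rw [← Nat.add_mul]
    exact hTa
  have hC1T : T ≤ C1 * T := Nat.le_mul_of_pos_left T hC1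
  have key1 : ∀ d, Ta ≤ d →
      T * tau e (R - u.val) j d + ell (j + 1) (d - k) ≤ tau e (R - u.val) (j + 1) d :=
    fun d hd => hs1 T d (d - k) hT1 (by omega)
  have key2 : ∀ d, Ta ≤ d →
      T * tau e (R - u.val) (j + 1) d + ell (j + 2) (d - k) ≤ tau e (R - u.val) (j + 2) d :=
    fun d hd => hs2 T d (d - k) hT1 (by omega)
  refine ⟨by omega, hM, by omega, ?_, ?_, ?_, ?_, ?_, ?_⟩
  · rw [Fintype.card_unit]
    exact hT
  · -- drop
    intro a b l _ hal hab _
    have ha : Ta ≤ a () := hal
    have hle : a () ≤ b () := hab ()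
    rw [FullV_F, FullV_F, hj, Fintype.sum_unique]
    change T * _ ≤ T * _ + (b () - a ()) * _
    have h1 := key1 (b ()) (by omega)
    have h2 := tau_drop e (R - u.val) j hle
    have h3 : ell (j + 1) (a () - k) ≤ ell (j + 1) (b () - k) := ell_mono _ (by omega)
    have h4 := key1 (a ()) ha
    set x := tau e (R - u.val) (j + 1) (b ()) with hx
    set y := tau e (R - u.val) (j + 1) (a ()) with hy
    set z := tau e (R - u.val) j (b ()) with hz
    have h5 : x - ell (j + 1) (b () - k) ≤ y - ell (j + 1) (a () - k) + (b () - a ()) * z := by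
      omega
    have h6 : T * z ≤ x - ell (j + 1) (b () - k) := by omega
    calc T * (x - ell (j + 1) (b () - k))
        ≤ T * (y - ell (j + 1) (a () - k) + (b () - a ()) * z) := Nat.mul_le_mul_left _ h5
      _ = T * (y - ell (j + 1) (a () - k)) + (b () - a ()) * (T * z) := by ring
      _ ≤ T * (y - ell (j + 1) (a () - k)) + (b () - a ()) * (x - ell (j + 1) (b () - k)) :=
        Nat.add_le_add_left (Nat.mul_le_mul_left _ h6) _
  · -- floor
    intro a l _ hal
    have ha : Ta ≤ a () := hal
    rw [FullV_F, hj]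
    have h1 := key1 (a ()) ha
    have h2 := tau_pos e (R - u.val) j (a ()) (by omega)
    have h3 : T ≤ T * tau e (R - u.val) j (a ()) := Nat.le_mul_of_pos_right T h2
    omega
  · -- rlow
    intro a l _ hal
    have ha : Ta ≤ a () := hal
    rw [FullV_F, FullV_R, hj]
    have h1 := key2 (a ()) ha
    have h2 : T * (tau e (R - u.val) (j + 1) (a ()) - ell (j + 1) (a () - k)) ≤
        T * tau e (R - u.val) (j + 1) (a ()) := Nat.mul_le_mul_left _ (Nat.sub_le _ _)
    have h3 : j + 1 + 1 = j + 2 := rfl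
    rw [h3]
    have h4 : ((T * (tau e (R - u.val) (j + 1) (a ()) - ell (j + 1) (a () - k)) : ℕ) : ℤ) =
      (T : ℤ) * ((tau e (R - u.val) (j + 1) (a ()) - ell (j + 1) (a () - k) : ℕ) : ℤ) := by
      push_cast
      rfl
    rw [← h4]
    omega
  · -- full
    intro a _
    have h1 : a = fun _ => a () := by
      funext x
      rfl
    rw [h1]
    refine FullV_full e he v v' u hvu hv q k (fun d m hm S h => ?_) (a ())
    have h2 : v' ≤ u := by
      change v'.val ≤ u.val
      omega
    exact dimV e he v' u h2 (q ^ e) (pow_pos hq e) d m hm S h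
  · -- gd
    intro a l _ hal S hS hF
    have ha : Ta ≤ a () := hal
    refine sysV_tr e he v v' u hvu hv q k a S
      (hEx (q ^ e) (pow_pos hq e) (a ()) (a () - k) (by omega) S hS ?_)
    have h1 : u.val - v'.val + 1 = u.val - v.val := by omega
    rw [h1]
    rw [FullV_F] at hF
    omega

end Pool.Agent.H18.Pr
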