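import Pool.Agent.H18.Pr.FinN
import Pool.Agent.H18.Ex.Main

/-!
# Module MainN: the bridging argument (abstract version, traces of dimension `n`)
-/

namespace Pool.Agent.H18.Pr

open Finset Pool.Agent.H18.Ex Pool.Agent.H18.Cub

variable {Λ : Type} [Fintype Λ] [DecidableEq Λ] {n : ℕ}

/-- Bridging for configurations. -/
theorem bridge_cfgN (Y : SysN Λ n) (c : Cfg Λ) (l : Λ) (s₀ : ℕ)
    (hs : Multiset.replicate s₀ (1, 1) ≤ c.Φ l) (a : Λ → ℕ) (ha : 1 ≤ a l)
    (h1 : Y.K a (c.upd l (c.Φ l - Multiset.replicate s₀ (1, 1)) (c.s + s₀)).kinds)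
    (h2 : Y.K (dn l a) (c.upd l (shf (c.Φ l - Multiset.replicate s₀ (1, 1))) c.s).kinds) :
    Y.K a c.kinds := by
  set X := c.Φ l - Multiset.replicate s₀ (1, 1) with hX
  have hXs : c.Φ l = X + Multiset.replicate s₀ (1, 1) := by
    rw [hX, tsub_add_cancel_of_le hs]
  set S : Multiset (Kind Λ) := c.N.map Kind.free + Multiset.replicate c.s (Kind.free 1) +
      ∑ i ∈ univ.erase l, ((c.Φ i).map fun x => Kind.forced i x.1 x.2) +
      X.map fun x => Kind.forced l x.1 x.2 with hS
  have e1 : c.kinds = S + Multiset.replicate s₀ (Kind.forced l 1 1) := by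
    rw [Cfg.kinds_split c l, hXs, Multiset.map_add, Multiset.map_replicate, ← add_assoc]
  rw [e1]
  apply Y.bridge a l ha S s₀
  · rw [Cfg.kinds_upd] at h1
    convert h1 using 1
    rw [hS, Multiset.replicate_add]
    abel
  · rw [Cfg.kinds_upd] at h2
    refine Y.mono _ _ _ ?_ h2
    rw [hS, Multiset.map_add, Multiset.map_add, Multiset.map_add]
    have e2 : (c.N.map (Kind.free : ℕ → Kind Λ)).map (Kind.dn l) = c.N.map Kind.free := by
      rw [Multiset.map_map]
      rfl
    have e3 : (Multiset.replicate c.s (Kind.free 1 : Kind Λ)).map (Kind.dn l) =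
        Multiset.replicate c.s (Kind.free 1) := by
      rw [Multiset.map_replicate]
      rfl
    have e4 : (∑ i ∈ univ.erase l, ((c.Φ i).map fun x => Kind.forced i x.1 x.2)).map
        (Kind.dn l) = ∑ i ∈ univ.erase l, ((c.Φ i).map fun x => Kind.forced i x.1 x.2) := by
      have e5 : ∀ (T : Finset Λ), (∀ i ∈ T, i ≠ l) →
          (∑ i ∈ T, ((c.Φ i).map fun x => Kind.forced i x.1 x.2)).map (Kind.dn l) =
            ∑ i ∈ T, ((c.Φ i).map fun x => Kind.forced i x.1 x.2) := by
        intro T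
        induction T using Finset.induction_on with
        | empty => simp
        | insert i T hi ih =>
          intro hT
          rw [sum_insert hi, Multiset.map_add, ih fun j hj => hT j (mem_insert_of_mem hj),
            Multiset.map_map]
          congr 1
          refine Multiset.map_congr rfl fun x _ => ?_
          simp only [Function.comp_apply, Kind.dn]
          rw [if_neg (hT i (mem_insert_self _ _))]
      exact e5 _ fun i hi => ne_of_mem_erase hi
    rw [e2, e3, e4]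
    refine add_le_add le_rfl ?_
    unfold shf
    rw [Multiset.map_map]
    refine (Multiset.map_le_map (Multiset.filter_le _ _)).trans (le_of_eq ?_)
    rw [Multiset.map_map]
    refine Multiset.map_congr rfl fun x _ => ?_
    simp [Kind.dn]


/-- Prefix of a good list of equal directions. -/
theorem GoodN.replicate_le {Y : SysN Λ n} {M : ℕ} {l : Λ} {x y : ℕ} (hxy : x ≤ y) {a φ : Λ → ℕ}
    (h : GoodN Y M (List.replicate y l) a φ) : GoodN Y M (List.replicate x l) a φ := by
  obtain ⟨c, rfl⟩ := Nat.exists_eq_add_of_le hxy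
  rw [List.replicate_add, GoodN.append] at h
  exact h.1

/-- What the schedule has to provide. -/
structure PlanN (Y : SysN Λ n) (M C : ℕ) (N : Λ → ℕ) (ls : Λ) (dirs : List Λ) : Prop where
  hls : ls ∈ dirs
  hF : C ≤ Y.F ls N
  hFR : (Y.F ls N : ℤ) ≤ Y.R N
  hrep : GoodN Y M (List.replicate (M + 1) ls) N (fun _ => 0)
  hr1 : ∀ j, 1 ≤ j → j ≤ M + 1 → 4 * M * ephN Y M (List.replicate j ls) N (fun _ => 0) ls ≤
    (4 * M - 3) * Y.F ls (stt N ls j)
  hr2 : ∀ j, j ≤ M + 1 → (8 * M - 1) * Y.F ls N ≤ 8 * M * Y.F ls (stt N ls j)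
  hsch : ∀ j, j ≤ M → ∀ φ : Λ → ℕ, (∀ i, i ≠ ls → φ i = 0) →
    2 * M * φ ls ≤ (2 * M - 1) * Y.F ls (stt N ls j) →
    ∃ L : List Λ, (∀ i ∈ L, i ∈ dirs) ∧ GoodN Y M (L ++ clean M dirs) (stt N ls j) φ ∧
      (C : ℤ) * Y.R (ew L (stt N ls j)) ≤ Y.F ls N ∧
      ((∑ i, ephN Y M L (stt N ls j) φ i : ℕ) : ℤ) ≤ (n + 1) * Y.R (ew L (stt N ls j)) ∧
      FullN Y (ew L (stt N ls j)) ∧ FullN Y (ew (L ++ clean M dirs) (stt N ls j))

private theorem tr_eq_zero {c : Cfg Λ} {l : Λ} (h : c.Φ l = 0) : c.tr n l = 0 := by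
  unfold Cfg.tr
  rw [h]
  simp

/-- The main bridging theorem. -/
theorem mainN (Y : SysN Λ n) (M : ℕ) (hn : 1 ≤ n) (hM : 1 ≤ M) (N : Λ → ℕ) (ls : Λ) (dirs : List Λ)
    (P : PlanN Y M (cC n M) N ls dirs) (G : Multiset ℕ) (hG : ∀ m ∈ G, m ≤ M)
    (hsum : Y.R N ≤ ((G.map (ell (n + 1))).sum : ℕ)) : Y.K N (G.map Kind.free) := by
  set L := ell (n + 1) M with hL
  set L' := ell n M with hL'
  obtain ⟨hls, hF, hFP, hrep, hr1, hr2, hsch⟩ := P
  have hcC : cC n M = 2 * (1 + L * M) * (L + 1) + 2 * L' * (L + 1) +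
    2 * M * (L + M * (n + 1)) + 1 := rfl
  rw [hcC] at hF hsch
  set C := 2 * (1 + L * M) * (L + 1) + 2 * L' * (L + 1) + 2 * M * (L + M * (n + 1)) + 1 with hC
  have hL1 : 1 ≤ L := ell_pos _ hM
  have hL'1 : 1 ≤ L' := ell_pos _ hM
  set F := Y.F ls N with hFdef
  set s₀ := F / C + L + 1 with hs₀
  -- ending (A)
  have endA : ∀ j ≤ M, ∀ (x : ℕ) (c : Cfg Λ), c.OK M → (∀ i, i ≠ ls → c.Φ i = 0) →
      c.tr n ls ≤ x → 2 * M * x ≤ (2 * M - 1) * Y.F ls (stt N ls j) →
      Y.R (stt N ls j) ≤ c.sz n →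
      (c.sz n : ℤ) ≤ Y.R (stt N ls j) + L → s₀ ≤ c.s → Y.K (stt N ls j) c.kinds := by
    intro j hj x c hc hΦ hx hx2 hsz1 hsz2 hs
    obtain ⟨Ls, hLs1, hLs2, hLs3, hLs4, hLs5, hLs6⟩ := hsch j hj
      (Function.update (fun _ => 0) ls x)
      (fun i hi => by rw [Function.update_of_ne hi]) (by
        rw [Function.update_self]
        exact hx2)
    refine ending_AN Y M hn hM dirs Ls ?_ hLs1 _ (Function.update (fun _ => 0) ls x) hLs2 hLs6 c hc
      ?_ hsz1 ?_ ?_
    · intro h0
      rw [h0] at hls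
      exact absurd hls List.not_mem_nil
    · intro l
      by_cases h : l = ls
      · subst h
        rw [Function.update_self]
        exact hx
      · rw [Function.update_of_ne h, tr_eq_zero (hΦ l h)]
    · intro l hl
      refine hΦ l ?_
      rintro rfl
      exact hl hls
    · have h0 : 0 ≤ Y.R (ew Ls (stt N ls j)) := by
        have := hLs5.1
        omega
      obtain ⟨r, hr⟩ := Int.eq_ofNat_of_zero_le h0
      have h1 : r ≤ F / C := by
        rw [Nat.le_div_iff_mul_le (by omega), mul_comm]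
        rw [hr] at hLs3
        exact_mod_cast hLs3
      rw [hr]
      have h2 : ((s₀ : ℕ) : ℤ) ≤ c.s := by exact_mod_cast hs
      have h3 : ((r : ℕ) : ℤ) ≤ ((F / C : ℕ) : ℤ) := by exact_mod_cast h1
      have h4 : ((s₀ : ℕ) : ℤ) = ((F / C : ℕ) : ℤ) + L + 1 := by
        rw [hs₀]
        push_cast
        ring
      change (c.sz n : ℤ) + (r : ℤ) < _
      omega
  -- ending (B)
  have endB : ∀ j ≤ M, ∀ (x : ℕ) (c : Cfg Λ), c.OK M → (∀ i, i ≠ ls → c.Φ i = 0) →
      c.tr n ls ≤ x → 2 * M * x ≤ (2 * M - 1) * Y.F ls (stt N ls j) →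
      2 * M * Y.R (stt N ls j) + F ≤ 2 * M * (c.sz n : ℤ) → Y.K (stt N ls j) c.kinds := by
    intro j hj x c hc hΦ hx hx2 hsz
    obtain ⟨Ls, hLs1, hLs2, hLs3, hLs4, hLs5, hLs6⟩ := hsch j hj
      (Function.update (fun _ => 0) ls x)
      (fun i hi => by rw [Function.update_of_ne hi]) (by
        rw [Function.update_self]
        exact hx2)
    rw [GoodN.append] at hLs2
    have h2M : 0 < 2 * M := by omega
    have h2M' : (0 : ℤ) < 2 * M := by exact_mod_cast h2M
    set e := Y.R (ew Ls (stt N ls j)) with he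
    have h0 : 0 ≤ e := by
      have := hLs5.1
      omega
    refine ending_BN Y M hn hM Ls _ (Function.update (fun _ => 0) ls x) hLs2.1 hLs5 c hc ?_ ?_ ?_
    · intro l
      by_cases h : l = ls
      · subst h
        rw [Function.update_self]
        exact hx
      · rw [Function.update_of_ne h, tr_eq_zero (hΦ l h)]
    · change (L : ℤ) * e + _ + Y.R (stt N ls j) ≤ c.sz n + e
      have h1 : (2 * M * (L + M * (n + 1)) : ℤ) * e ≤ F := by
        refine le_trans (mul_le_mul_of_nonneg_right ?_ h0) hLs3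
        have h9 : 2 * M * (L + M * (n + 1)) ≤ C := by omega
        exact_mod_cast h9
      have h2 : ((M * ∑ i, ephN Y M Ls (stt N ls j)
          (Function.update (fun _ => 0) ls x) i : ℕ) : ℤ) ≤ M * ((n + 1) * e) := by
        rw [Nat.cast_mul]
        exact mul_le_mul_of_nonneg_left hLs4 (by positivity)
      have h3 : (2 * M : ℤ) * (L * e + M * ((n + 1) * e) + Y.R (stt N ls j)) ≤
          2 * M * (c.sz n : ℤ) := by
        calc (2 * M : ℤ) * (L * e + M * ((n + 1) * e) + Y.R (stt N ls j)) =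
            (2 * M * (L + M * (n + 1)) : ℤ) * e + 2 * M * Y.R (stt N ls j) := by ring
          _ ≤ F + 2 * M * Y.R (stt N ls j) := by linarith only [h1]
          _ ≤ 2 * M * (c.sz n : ℤ) := by linarith only [hsz]
      have h4 := le_of_mul_le_mul_left h3 h2M'
      linarith only [h0, h2, h4]
    · change Y.R (stt N ls j) ≤ c.sz n
      have h3 : (2 * M : ℤ) * Y.R (stt N ls j) ≤ 2 * M * (c.sz n : ℤ) := by
        have : (0 : ℤ) ≤ F := by positivity
        linarith only [hsz]
      exact le_of_mul_le_mul_left h3 h2M'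
  -- drop superfluous points
  obtain ⟨rN, hrN⟩ : ∃ r : ℕ, Y.R N = r := by
    apply Int.eq_ofNat_of_zero_le
    have : (0 : ℤ) ≤ F := by positivity
    linarith only [hFP]
  rw [hrN] at hsum hFP
  have hFP' : F ≤ rN := by exact_mod_cast hFP
  obtain ⟨G₁, hG₁, hs1, hs2, hG₁pos⟩ := exists_drop (ell (n + 1)) L rN G
    (fun m hm => ell_mono _ (hG m hm)) (by exact_mod_cast hsum)
  have hG1 : ∀ m ∈ G₁, 1 ≤ m := by
    intro m hm
    by_contra h
    have h0 : m = 0 := by omega
    have := hG₁pos m hm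
    rw [h0, ell_zero (by omega)] at this
    omega
  have hGM : ∀ m ∈ G₁, m ≤ M := fun m hm => hG m (Multiset.mem_of_le hG₁ hm)
  refine Y.mono _ _ _ (Multiset.map_le_map hG₁) ?_
  rw [← cfg0_kinds (ι := Λ) G₁ hG1]
  set c := cfg0 Λ G₁ with hcdef
  have hcOK : c.OK M := cfg0_OK M G₁ hGM
  obtain ⟨hcsz, hcnsz⟩ := cfg0_sz (ι := Λ) n G₁ hG1
  rw [← hcdef] at hcsz hcnsz
  rw [← hcsz] at hs1 hs2
  have hcsz' : c.nsz n = c.sz n := by rw [hcsz, hcnsz]
  have hcΦ : ∀ i, c.Φ i = 0 := fun i => rfl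
  have htr0 : ∀ i, c.tr n i = 0 := fun i => tr_eq_zero (hcΦ i)
  by_cases hbig : s₀ ≤ c.s
  · have := endA 0 (by omega) 0 c hcOK (fun i _ => hcΦ i) (by rw [htr0]) (by simp)
      (by rw [stt_zero, hrN]; exact_mod_cast hs1)
      (by rw [stt_zero, hrN]; exact_mod_cast hs2) hbig
    rwa [stt_zero] at this
  push Not at hbig
  -- many points of the same multiplicity
  have hdiv : F / C * C ≤ F := Nat.div_mul_le_self F C
  have hb1 : (1 + L * M) * s₀ ≤ F := by
    have h1 : 2 * ((1 + L * M) * (F / C)) ≤ F := by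
      refine le_trans ?_ hdiv
      calc 2 * ((1 + L * M) * (F / C)) = (F / C) * (2 * (1 + L * M) * 1) := by ring
        _ ≤ (F / C) * C := by
          apply Nat.mul_le_mul_left
          have : 2 * (1 + L * M) * 1 ≤ 2 * (1 + L * M) * (L + 1) :=
            Nat.mul_le_mul_left _ (by omega)
          omega
    have h2 : 2 * ((1 + L * M) * (L + 1)) ≤ F := by
      refine le_trans ?_ hF
      have : 2 * ((1 + L * M) * (L + 1)) = 2 * (1 + L * M) * (L + 1) := by ring
      omega
    have h3 : (1 + L * M) * s₀ = (1 + L * M) * (F / C) + (1 + L * M) * (L + 1) := by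
      rw [hs₀]; ring
    omega
  have hb2 : s₀ * L' ≤ F := by
    have h1 : 2 * (L' * (F / C)) ≤ F := by
      refine le_trans ?_ hdiv
      calc 2 * (L' * (F / C)) = (F / C) * (2 * L' * 1) := by ring
        _ ≤ (F / C) * C := by
          apply Nat.mul_le_mul_left
          have : 2 * L' * 1 ≤ 2 * L' * (L + 1) := Nat.mul_le_mul_left _ (by omega)
          omega
    have h2 : 2 * (L' * (L + 1)) ≤ F := by
      refine le_trans ?_ hF
      have : 2 * (L' * (L + 1)) = 2 * L' * (L + 1) := by ring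
      omega
    have h3 : s₀ * L' = L' * (F / C) + L' * (L + 1) := by
      rw [hs₀]; ring
    omega
  have hcard : M * s₀ ≤ c.N.card := by
    have h1 : (c.N.map (ell (n + 1))).sum ≤ L * c.N.card := by
      have := Multiset.sum_le_card_nsmul (c.N.map (ell (n + 1))) L (by
        intro x hx
        obtain ⟨m, hm, rfl⟩ := Multiset.mem_map.1 hx
        exact ell_mono _ (hcOK.hN m hm).2)
      rw [Multiset.card_map, smul_eq_mul, mul_comm] at this
      exact this
    have h2 : c.sz n = (c.N.map (ell (n + 1))).sum + c.s := by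
      rw [← hcsz']; rfl
    have h3 : L * (M * s₀) ≤ L * c.N.card := by
      have h4 : (1 + L * M) * s₀ = s₀ + L * (M * s₀) := by ring
      have h5 : rN ≤ (c.N.map (ell (n + 1))).sum + c.s := by
        rw [← h2]; exact hs1
      have h6 : s₀ + L * (M * s₀) ≤ rN := by
        rw [← h4]; exact hb1.trans hFP'
      clear_value L L' C F s₀ c
      omega
    exact Nat.le_of_mul_le_mul_left h3 (by omega)
  obtain ⟨μ, hμN, hμ⟩ := exists_replicate_le c.N M s₀ (fun m hm => by
    have := hcOK.hN m hm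
    omega) hcard hM (by omega)
  have hμ2 := hcOK.hN μ hμN
  -- the first step
  have hg1 := hrep
  rw [List.replicate_succ] at hg1
  obtain ⟨hw1, hE1, hφ1, hav1, hrest⟩ := hg1
  rw [hrN] at hav1
  have hav1' := Int.ofNat_le.1 hav1
  obtain ⟨c₁, hc₁OK, hc₁GM, hc₁Φ, hc₁tr, hc₁sz, -, -, -, -, hc₁I⟩ :=
    peelN Y M hn hM N ls hw1 hE1 F rfl c hcOK
      (Multiset.replicate s₀ μ) hμ (by
        rw [htr0, Multiset.map_replicate, Multiset.sum_replicate, smul_eq_mul, zero_add]
        exact (Nat.mul_le_mul_left _ (ell_mono _ hμ2.2)).trans hb2) (by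
        rw [hcsz']
        simp only [sum_const_zero, mul_zero, zero_add] at hav1'
        exact hav1'.trans hs1)
  refine hc₁GM ?_
  have hc₁I' : Multiset.replicate s₀ (μ - 1, 1) ≤ c₁.Φ ls := by
    refine le_trans ?_ hc₁I
    rw [hcΦ, Multiset.map_replicate]
    simp [shf]
  have hF1 : 1 ≤ F := by omega
  have hcard1 := Y.count N ls hw1 hF1
  -- the following steps
  obtain ⟨ν, hν⟩ : ∃ ν, μ = ν + 2 := ⟨μ - 2, by omega⟩
  have hnphi : c₁.tr n ls ≤ nphi n M F := by
    unfold nphi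
    have h1 : M * (c₁.tr n ls - L' ^ 2) ≤ (M - 1) * F := by
      rw [Nat.mul_sub]
      exact Nat.sub_le_iff_le_add.2 hc₁tr
    have h2 : c₁.tr n ls - L' ^ 2 ≤ (M - 1) * F / M := by
      rw [Nat.le_div_iff_mul_le (by omega), mul_comm]
      exact h1
    exact Nat.sub_le_iff_le_add.1 h2
  have hgν : GoodN Y M (List.replicate ν ls) (dn ls N)
      (Function.update (fun _ => 0) ls (nphi n M F)) :=
    GoodN.replicate_le (by omega) hrest
  have hszc1 : Y.R (dn ls N) ≤ c₁.sz n := by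
    have h1 : ((rN : ℕ) : ℤ) ≤ c.sz n := by exact_mod_cast hs1
    have h2 : ((c₁.sz n : ℕ) : ℤ) + F = c.sz n := by exact_mod_cast hc₁sz
    rw [hrN] at hcard1
    linarith only [hs1, hc₁sz, hcard1]
  obtain ⟨c₂, hc₂OK, hc₂GM, hc₂tr, hc₂sz, -, -, -, -, hc₂I, hc₂Φ⟩ :=
    runN Y M hn hM (List.replicate ν ls) (dn ls N)
      (Function.update (fun _ => 0) ls (nphi n M F)) hgν c₁ hc₁OK (by
        intro l
        by_cases h : l = ls
        · subst h
          rw [Function.update_self]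
          exact hnphi
        · rw [Function.update_of_ne h, tr_eq_zero]
          rw [hc₁Φ l h, hcΦ]) hszc1
  have hRR : ew (List.replicate ν ls) (dn ls N) = stt N ls (ν + 1) := by
    unfold stt
    rw [ew_replicate]
    unfold dn
    rw [Function.update_idem, Function.update_self, Nat.sub_sub, add_comm 1 ν]
  rw [hRR] at hc₂GM hc₂sz
  refine hc₂GM ?_
  -- the trace
  have heph : ephN Y M (List.replicate ν ls) (dn ls N)
      (Function.update (fun _ => 0) ls (nphi n M F)) ls =
      ephN Y M (List.replicate (ν + 1) ls) N (fun _ => 0) ls := by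
    rw [List.replicate_succ]
    rfl
  have htr2 := hc₂tr ls
  rw [heph] at htr2
  have hr1a := hr1 (ν + 1) (by omega) (by omega)
  -- the forced simple points
  have hrepl : Multiset.replicate s₀ (1, 1) ≤ c₂.Φ ls := by
    refine le_trans ?_ (hc₂I ls)
    rw [List.count_replicate_self]
    have h1 : shf^[ν] (Multiset.replicate s₀ (μ - 1, 1)) ≤ shf^[ν] (c₁.Φ ls) := by
      have hmono : Monotone shf := fun X Y h =>
        Multiset.filter_le_filter _ (Multiset.map_le_map h)
      exact hmono.iterate ν hc₁I'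
    refine le_trans (le_of_eq ?_) h1
    have h2 : μ - 1 = ν + 1 := by omega
    rw [h2, shf_iterate_replicate _ _ _ le_rfl]
    simp
  have hc₂0 : ∀ i, i ≠ ls → c₂.Φ i = 0 := by
    intro i hi
    rw [hc₂Φ i, hc₁Φ i hi, hcΦ]
    rw [List.count_replicate]
    rw [if_neg (by simpa using (Ne.symm hi))]
  -- the next step exists
  have hgν1 : GoodN Y M (List.replicate (ν + 2) ls) N (fun _ => 0) :=
    GoodN.replicate_le (by omega) hrep
  rw [show ν + 2 = (ν + 1) + 1 from rfl, List.replicate_add, GoodN.append] at hgν1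
  obtain ⟨_, hw2, -, hφ2, hav2, -⟩ := hgν1
  rw [ew_replicate] at hw2 hφ2
  change 1 ≤ stt N ls (ν + 1) ls at hw2
  change _ ≤ Y.F ls (stt N ls (ν + 1)) at hφ2
  have hg0 : 1 ≤ g0 n M * ell n M := by
    unfold g0
    exact Nat.mul_pos (Nat.mul_pos (by omega) (ell_pos n hM)) (ell_pos n hM)
  have hcardR := Y.count (stt N ls (ν + 1)) ls hw2 (by omega)
  rw [dn_stt] at hcardR
  -- sizes
  have hszc2 : (c₂.sz n : ℤ) + rN = c.sz n + Y.R (stt N ls (ν + 1)) := by
    have h2 : ((c₁.sz n : ℕ) : ℤ) + F = c.sz n := by exact_mod_cast hc₁sz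
    rw [hrN] at hcard1
    linarith only [hc₁sz, hcard1, hc₂sz]
  have hs1' : ((rN : ℕ) : ℤ) ≤ c.sz n := by exact_mod_cast hs1
  have hs2' : (c.sz n : ℤ) ≤ rN + L := by exact_mod_cast hs2
  set X := c₂.Φ ls - Multiset.replicate s₀ (1, 1) with hX
  have hXs : c₂.Φ ls = X + Multiset.replicate s₀ (1, 1) := by
    rw [hX, tsub_add_cancel_of_le hrepl]
  clear_value X
  have hXval : ∀ x ∈ X, 1 ≤ x.2 ∧ x.2 ≤ 2 ∧ x.2 ≤ x.1 ∧ x.1 ≤ M := by
    intro x hx
    exact hc₂OK.hΦ ls x (by rw [hXs]; exact Multiset.mem_add.2 (Or.inl hx))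
  obtain ⟨hY1, hY2, hY3⟩ := shf_numbers n M hn X hXval
  have htrX : c₂.tr n ls = (X.map fun x => ell n x.1).sum + s₀ := by
    unfold Cfg.tr
    rw [hXs, Multiset.map_add, Multiset.sum_add, Multiset.map_replicate, Multiset.sum_replicate]
    simp only [ell_one, smul_eq_mul, mul_one]
  have hflX : c₂.fl n ls = (X.map fun x => ell (n + 1) x.1 + 1 - x.2).sum + s₀ := by
    unfold Cfg.fl
    rw [hXs, Multiset.map_add, Multiset.sum_add, Multiset.map_replicate, Multiset.sum_replicate]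
    simp only [ell_one, smul_eq_mul]
    omega
  have hszA : (c₂.upd ls X (c₂.s + s₀)).sz n = c₂.sz n := by
    rw [Cfg.sz_upd, Cfg.sz_split n c₂ ls, hflX]
    omega
  have hszB : (c₂.upd ls (shf X) c₂.s).sz n + c₂.tr n ls = c₂.sz n := by
    rw [Cfg.sz_upd, Cfg.sz_split n c₂ ls, hflX, htrX]
    omega
  have hM1 : 0 < 4 * M := by omega
  refine bridge_cfgN Y c₂ ls s₀ hrepl (stt N ls (ν + 1)) hw2 ?_ ?_ <;> rw [← hX]
  · -- (A)
    refine endA (ν + 1) (by omega) (ephN Y M (List.replicate (ν + 1) ls) N (fun _ => 0) ls) _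
      (Cfg.OK_upd hc₂OK _ _ _ hXval) ?_ ?_ ?_ ?_ ?_ ?_
    · intro i hi
      rw [show (c₂.upd ls X (c₂.s + s₀)).Φ i = c₂.Φ i from Function.update_of_ne hi _ _]
      exact hc₂0 i hi
    · rw [Cfg.tr_upd_self]
      omega
    · have h1 : 2 * (2 * M * ephN Y M (List.replicate (ν + 1) ls) N (fun _ => 0) ls) ≤
          2 * ((2 * M - 1) * Y.F ls (stt N ls (ν + 1))) := by
        calc 2 * (2 * M * ephN Y M (List.replicate (ν + 1) ls) N (fun _ => 0) ls) =
            4 * M * ephN Y M (List.replicate (ν + 1) ls) N (fun _ => 0) ls := by ring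
          _ ≤ (4 * M - 3) * Y.F ls (stt N ls (ν + 1)) := hr1a
          _ ≤ (2 * (2 * M - 1)) * Y.F ls (stt N ls (ν + 1)) :=
            Nat.mul_le_mul_right _ (by omega)
          _ = 2 * ((2 * M - 1) * Y.F ls (stt N ls (ν + 1))) := by ring
      exact Nat.le_of_mul_le_mul_left h1 (by norm_num)
    · rw [hszA]
      linarith only [hrN, hs1, hc₁sz, hcard1, hc₂sz]
    · rw [hszA]
      linarith only [hrN, hs2, hc₁sz, hcard1, hc₂sz]
    · change s₀ ≤ c₂.s + s₀
      omega
  · -- (B)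
    have hr1b := hr1 (ν + 2) (by omega) (by omega)
    have heph2 : ephN Y M (List.replicate (ν + 2) ls) N (fun _ => 0) ls =
        nphi n M (Y.F ls (stt N ls (ν + 1))) := by
      rw [show ν + 2 = (ν + 1) + 1 from rfl, List.replicate_add, ephN_append]
      rw [ew_replicate]
      change (Function.update _ ls (nphi n M _) : Λ → ℕ) ls = _
      rw [Function.update_self]
      rfl
    rw [heph2] at hr1b
    have htrle : 4 * M * c₂.tr n ls ≤ (4 * M - 3) * Y.F ls (stt N ls (ν + 1)) :=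
      (Nat.mul_le_mul_left _ htr2).trans hr1a
    have htrlef : c₂.tr n ls ≤ Y.F ls (stt N ls (ν + 1)) := by
      have h1 : 4 * M * c₂.tr n ls ≤ 4 * M * Y.F ls (stt N ls (ν + 1)) :=
        htrle.trans (Nat.mul_le_mul_right _ (by omega))
      exact Nat.le_of_mul_le_mul_left h1 hM1
    rw [dn_stt]
    refine endB (ν + 2) (by omega) (nphi n M (Y.F ls (stt N ls (ν + 1)))) _
      (Cfg.OK_upd hc₂OK _ _ _ hY1) ?_ ?_ ?_ ?_
    · intro i hi
      rw [show (c₂.upd ls (shf X) c₂.s).Φ i = c₂.Φ i from Function.update_of_ne hi _ _]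
      exact hc₂0 i hi
    · rw [Cfg.tr_upd_self]
      have h1 : M * ((shf X).map fun x => ell n x.1).sum ≤
          (M - 1) * Y.F ls (stt N ls (ν + 1)) :=
        hY3.trans (Nat.mul_le_mul_left _ (by omega))
      unfold nphi
      have h2 : ((shf X).map fun x => ell n x.1).sum ≤
          (M - 1) * Y.F ls (stt N ls (ν + 1)) / M := by
        rw [Nat.le_div_iff_mul_le (by omega), mul_comm]
        exact h1
      omega
    · have h1 : 2 * (2 * M * nphi n M (Y.F ls (stt N ls (ν + 1)))) ≤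
          2 * ((2 * M - 1) * Y.F ls (stt N ls (ν + 2))) := by
        calc 2 * (2 * M * nphi n M (Y.F ls (stt N ls (ν + 1)))) =
            4 * M * nphi n M (Y.F ls (stt N ls (ν + 1))) := by ring
          _ ≤ (4 * M - 3) * Y.F ls (stt N ls (ν + 2)) := hr1b
          _ ≤ (2 * (2 * M - 1)) * Y.F ls (stt N ls (ν + 2)) :=
            Nat.mul_le_mul_right _ (by omega)
          _ = 2 * ((2 * M - 1) * Y.F ls (stt N ls (ν + 2))) := by ring
      exact Nat.le_of_mul_le_mul_left h1 (by norm_num)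
    · -- the excess
      obtain ⟨κ, hκ⟩ := Nat.exists_eq_add_of_le htrlef
      have hk : Y.R (stt N ls (ν + 2)) + κ ≤ ((c₂.upd ls (shf X) c₂.s).sz n : ℕ) := by
        have h1 : ((c₂.upd ls (shf X) c₂.s).sz n : ℤ) + c₂.tr n ls = c₂.sz n := by
          exact_mod_cast hszB
        have h2 : (Y.F ls (stt N ls (ν + 1)) : ℤ) = c₂.tr n ls + κ := by exact_mod_cast hκ
        linarith only [hrN, hs1, hc₁sz, hcard1, hc₂sz, hcardR, hszB, hκ]
      have hk2 : F ≤ 2 * M * κ := by
        have h1 := hr2 (ν + 1) (by omega)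
        have h2 : 3 * Y.F ls (stt N ls (ν + 1)) ≤ 4 * M * κ := by
          have h3 : 4 * M * Y.F ls (stt N ls (ν + 1)) =
              (4 * M - 3) * Y.F ls (stt N ls (ν + 1)) + 3 * Y.F ls (stt N ls (ν + 1)) := by
            rw [← add_mul]
            congr 1
            omega
          have h4 : 4 * M * Y.F ls (stt N ls (ν + 1)) = 4 * M * c₂.tr n ls + 4 * M * κ := by
            rw [hκ, mul_add]
          omega
        have h4 : 7 * F ≤ 8 * Y.F ls (stt N ls (ν + 1)) := by
          have h5 : M * (7 * F) ≤ M * (8 * Y.F ls (stt N ls (ν + 1))) := by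
            calc M * (7 * F) = (7 * M) * F := by ring
              _ ≤ (8 * M - 1) * F := Nat.mul_le_mul_right _ (by omega)
              _ ≤ 8 * M * Y.F ls (stt N ls (ν + 1)) := h1
              _ = M * (8 * Y.F ls (stt N ls (ν + 1))) := by ring
          exact Nat.le_of_mul_le_mul_left h5 (by omega)
        have h6 : 2 * (2 * M * κ) = 4 * M * κ := by ring
        omega
      have hk2' : (F : ℤ) ≤ 2 * M * κ := by exact_mod_cast hk2
      have h2M : (0 : ℤ) ≤ 2 * M := by positivity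
      calc 2 * (M : ℤ) * Y.R (stt N ls (ν + 2)) + F
          ≤ 2 * M * Y.R (stt N ls (ν + 2)) + 2 * M * κ := by linarith only [hk2]
        _ = 2 * M * (Y.R (stt N ls (ν + 2)) + κ) := by ring
        _ ≤ 2 * M * ((c₂.upd ls (shf X) c₂.s).sz n : ℤ) := mul_le_mul_of_nonneg_left hk h2M

end Pool.Agent.H18.Pr
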