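import Pool.Agent.H18.Pr.NumTau2

/-!
# Module NumReg (PR): margins of states
-/

namespace Pool.Agent.H18.Pr

open Finset Pool.Agent.H18.Ex Pool.Agent.H18.Cub

variable {R t s : ℕ}

/-- The sum of the multiplicities: `mu = uu - n` (truncated), `∑ uu = (t + s) a_none + ∑ a_l`. -/
theorem sum_mu_eq (n : Fin t ⊕ Fin s → ℕ) (a : Option (Fin t) → ℕ) :
    ∑ b, mu n a b + ∑ b, min (n b) (uu (s := s) a b) = (t + s) * a none + ∑ l, a (some l) := by
  have h1 : ∑ b, mu n a b + ∑ b, min (n b) (uu a b) = ∑ b : Fin t ⊕ Fin s, uu a b := by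
    rw [← Finset.sum_add_distrib]
    refine Finset.sum_congr rfl fun b _ => ?_
    simp only [mu]
    omega
  rw [h1, Fintype.sum_sum_type]
  simp only [uu, Finset.sum_add_distrib, Finset.sum_const, Finset.card_univ, Fintype.card_fin,
    smul_eq_mul]
  ring

/-- The margin of the curve: `(t + 1)^R dd a - ∑ mu = ((t + 1)^R - 1) ∑ a_l + ∑ min (n b) (uu b)`. -/
theorem curve_eq (hts : t + s = (t + 1) ^ (R + 1)) (n : Fin t ⊕ Fin s → ℕ)
    (a : Option (Fin t) → ℕ) :
    ∑ b, mu n a b + (((t + 1) ^ R - 1) * ∑ l, a (some l) + ∑ b, min (n b) (uu (s := s) a b)) =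
      (t + 1) ^ R * dd a := by
  have h := sum_mu_eq n a
  have hp : 1 ≤ (t + 1) ^ R := Nat.one_le_pow _ _ (by omega)
  obtain ⟨k, hk⟩ := Nat.exists_eq_add_of_le hp
  have e1 : (t + 1) ^ R * dd a = (t + s) * a none + (1 + k) * ∑ l, a (some l) := by
    rw [hts, dd, pow_succ, ← hk]
    ring
  have e2 : (t + 1) ^ R - 1 = k := by omega
  have e3 : (1 + k) * ∑ l, a (some l) = ∑ l, a (some l) + k * ∑ l, a (some l) := by ring
  rw [e1, e2, e3]
  omega

theorem dd_mono {a b : Option (Fin t) → ℕ} (h : ∀ i, a i ≤ b i) : dd a ≤ dd b := by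
  unfold dd
  exact Nat.add_le_add (Nat.mul_le_mul_left _ (h none)) (Finset.sum_le_sum fun l _ => h (some l))

theorem NumReg_uu_mono {a b : Option (Fin t) → ℕ} (h : ∀ i, a i ≤ b i) (x : Fin t ⊕ Fin s) :
    uu a x ≤ uu b x := by
  rcases x with l | x
  · have h1 := h none
    have h2 := h (some l)
    simp only [uu]
    omega
  · exact h none

theorem mu_mono {n : Fin t ⊕ Fin s → ℕ} {a b : Option (Fin t) → ℕ} (h : ∀ i, a i ≤ b i)
    (x : Fin t ⊕ Fin s) : mu n a x ≤ mu n b x := by
  have h1 : uu a x ≤ uu b x := NumReg_uu_mono h x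
  simp only [mu]
  omega

theorem dd_sub_le {a b : Option (Fin t) → ℕ} (h : ∀ i, a i ≤ b i) :
    dd b ≤ dd a + (t + 1) * ∑ i, (b i - a i) := by
  rw [Fintype.sum_option]
  unfold dd
  have h1 : ∑ l, b (some l) = ∑ l, a (some l) + ∑ l, (b (some l) - a (some l)) := by
    rw [← Finset.sum_add_distrib]
    refine Finset.sum_congr rfl fun l _ => ?_
    have := h (some l)
    omega
  have h2 : b none = a none + (b none - a none) := by
    have := h none
    omega
  have h3 : (t + 1) * b none = (t + 1) * a none + (t + 1) * (b none - a none) := by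
    rw [← mul_add, ← h2]
  have h4 : ∑ l, (b (some l) - a (some l)) ≤ (t + 1) * ∑ l, (b (some l) - a (some l)) :=
    Nat.le_mul_of_pos_left _ (by omega)
  rw [mul_add, h1, h3]
  omega

/-- Sums of terms which are at least `min (x k) c`. -/
theorem NumReg_sum {κ : Type} (K : Finset κ) (x y : κ → ℕ) (c : ℕ)
    (h : ∀ k ∈ K, min (x k) c ≤ y k) : min (∑ k ∈ K, x k) c ≤ ∑ k ∈ K, y k := by
  classical
  induction K using Finset.induction_on with
  | empty => simp
  | insert k K hk ih =>
    have h1 := ih fun j hj => h j (Finset.mem_insert_of_mem hj)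
    have h2 := h k (Finset.mem_insert_self k K)
    rw [Finset.sum_insert hk, Finset.sum_insert hk]
    omega

theorem NumReg_mul (k x y c : ℕ) (h : min x c ≤ y) : min (k * x) c ≤ k * y := by
  rcases Nat.eq_zero_or_pos k with rfl | hk
  · simp
  · rcases min_le_iff.1 h with h1 | h1
    · exact (min_le_left _ _).trans (Nat.mul_le_mul_left _ h1)
    · exact (min_le_right _ _).trans (h1.trans (Nat.le_mul_of_pos_left _ hk))

theorem NumReg_uu {N a : Option (Fin t) → ℕ} {c : ℕ} (ha : ∀ i, min (N i) c ≤ a i)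
    (b : Fin t ⊕ Fin s) : min (uu N b) c ≤ uu a b := by
  rcases b with l | b
  · have h3 := ha none
    have h4 := ha (some l)
    simp only [uu]
    omega
  · exact ha none

/-- The fields `curve`, `line` and `deg` in the region. -/
theorem NumReg_core (hts : t + s = (t + 1) ^ (R + 1))
    {n : Fin t ⊕ Fin s → ℕ} {N a : Option (Fin t) → ℕ} {D Ta : ℕ} (h : Mg R D n N)
    (hTa : Ta ≤ D) (ha : ∀ i, min (N i) Ta ≤ a i) (ha' : ∀ i, a i ≤ N i)
    (hs : R * t - 2 ≤ ∑ l, a (some l)) : Mg R Ta n a := by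
  have hA : min (∑ l, N (some l)) Ta ≤ ∑ l, a (some l) :=
    NumReg_sum _ _ _ _ fun l _ => ha (some l)
  have hdeg : Ta ≤ dd a := by
    have h1 := NumReg_mul (t + 1) _ _ _ (ha none)
    have h2 := h.deg
    simp only [dd] at h2 ⊢
    omega
  refine ⟨hs, ?_, fun l => ?_, hdeg⟩
  · have h1 := NumReg_mul ((t + 1) ^ R - 1) _ _ _ hA
    have h2 : min (∑ b, min (n b) (uu N b)) Ta ≤ ∑ b, min (n b) (uu a b) := by
      refine NumReg_sum _ _ _ _ fun b _ => ?_
      have h3 : min (uu N b) Ta ≤ uu a b := NumReg_uu ha b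
      omega
    have h3 := curve_eq hts n N
    have h4 := curve_eq hts n a
    have h5 := h.curve
    omega
  · rcases Nat.eq_zero_or_pos (mu n a (.inl l)) with h0 | h0
    · rw [h0, zero_add]
      exact hdeg
    · have h1 : mu n a (.inl l) ≤ mu n N (.inl l) := mu_mono ha' _
      have h2 := h.line l
      have h3 : min (∑ l' ∈ univ.erase l, N (some l')) Ta ≤ ∑ l' ∈ univ.erase l, a (some l') :=
        NumReg_sum _ _ _ _ fun l' _ => ha (some l')
      have h4 := NumReg_mul t _ _ _ (ha none)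
      have e1 : ∑ l', a (some l') = a (some l) + ∑ l' ∈ univ.erase l, a (some l') :=
        (Finset.add_sum_erase _ (fun l' => a (some l')) (Finset.mem_univ l)).symm
      have e2 : ∑ l', N (some l') = N (some l) + ∑ l' ∈ univ.erase l, N (some l') :=
        (Finset.add_sum_erase _ (fun l' => N (some l')) (Finset.mem_univ l)).symm
      have e3 : (t + 1) * a none = t * a none + a none := by ring
      have e4 : (t + 1) * N none = t * N none + N none := by ring
      simp only [dd, mu, uu] at h0 h1 h2 ⊢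
      omega

/-- The margins in the region `Reg N Ta`.

For the field `curve` use `curve_eq`: if some `a_l ≥ Ta` it is clear (`1 ≤ R`, `1 ≤ t`);
otherwise `a_l = N_l` for all `l`, and either `a none = N none`, or `a none ≥ Ta`, and then some
`n b ≥ Ta`, or all the minima are the same for `a` and for `N`.  The other fields are similar; if
`mu n a (inl l) > 0` then
`dd a - mu n a (inl l) = t * a none + ∑_{l' ≠ l} a_{l'} + n (inl l)`. -/
theorem Mg.reg (ht : 1 ≤ t) (hR : 1 ≤ R) (hts : t + s = (t + 1) ^ (R + 1))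
    {n : Fin t ⊕ Fin s → ℕ} {N a : Option (Fin t) → ℕ} {D Ta : ℕ} (h : Mg R D n N)
    (hTa : Ta ≤ D) (hTa' : R * t ≤ Ta) (ha : Reg N Ta a) : Mg R Ta n a := by
  have hA : min (∑ l, N (some l)) Ta ≤ ∑ l, a (some l) :=
    NumReg_sum _ _ _ _ fun l _ => (ha (some l)).1
  have hs := h.slack
  exact NumReg_core hts h hTa (fun i => (ha i).1) (fun i => (ha i).2) (by omega)

theorem Mg.le {n : Fin t ⊕ Fin s → ℕ} {N : Option (Fin t) → ℕ} {D D' : ℕ} (h : Mg R D n N)
    (hD : D' ≤ D) : Mg R D' n N := by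
  obtain ⟨h1, h2, h3, h4⟩ := h
  exact ⟨h1, by omega, fun l => by have := h3 l; omega, by omega⟩

/-- Lowering the coefficient of the curve to a positive number. -/
theorem Mg.none (ht : 1 ≤ t) (hR : 1 ≤ R) (hts : t + s = (t + 1) ^ (R + 1))
    {n : Fin t ⊕ Fin s → ℕ} {N : Option (Fin t) → ℕ} (h : Mg R 1 n N) (c : ℕ) (hc : 1 ≤ c)
    (hc' : c ≤ N none) : Mg R 1 n (Function.update N none c) := by
  have e : ∀ l : Fin t, Function.update N Option.none c (some l) = N (some l) := fun l =>
    Function.update_of_ne (by simp) _ _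
  refine NumReg_core hts h le_rfl (fun i => ?_) (fun i => ?_) ?_
  · rcases i with _ | l
    · rw [Function.update_self]
      omega
    · rw [e]
      omega
  · rcases i with _ | l
    · rw [Function.update_self]
      exact hc'
    · rw [e]
  · simp only [e]
    exact h.slack

end Pool.Agent.H18.Pr
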