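import Pool.Agent.H18.Pr.NumRM

/-!
# Module NumSlow (PR): slow variation of the virtual dimensions
-/

namespace Pool.Agent.H18.Pr

open Finset Pool.Agent.H18.Ex Pool.Agent.H18.Cub

variable {R t s : ℕ}

/-- Positivity (all dimensions).  Induction on `j`, then on `a none`: `RM_zero_pos`,
`RM_pos_of_none`, `RM_diff_none`, `Mg.none`. -/
theorem RM_pos (ht : 1 ≤ t) (hR : 1 ≤ R) (hts : t + s = (t + 1) ^ (R + 1)) (j : ℕ) (hj : j ≤ R)
    {n : Fin t ⊕ Fin s → ℕ} {a : Option (Fin t) → ℕ} (h : a none = 0 ∨ Mg R 1 n a) :
    1 ≤ RM R j n a := by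
  induction j generalizing a with
  | zero =>
    rcases Nat.eq_zero_or_pos (a none) with h0 | h0
    · exact RM_pos_of_none 0 h0
    · rcases h with h | h
      · omega
      · exact RM_zero_pos ht hR hts h h0
  | succ j ih =>
    obtain ⟨c, hc⟩ : ∃ c, a none = c := ⟨_, rfl⟩
    induction c generalizing a with
    | zero => exact RM_pos_of_none (j + 1) hc
    | succ c ihc =>
      have hM : Mg R 1 n a := by
        rcases h with h | h
        · omega
        · exact h
      have h1 := RM_diff_none (j + 1) (by omega) hj n a (by omega)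
      have h2 : 1 ≤ RM R (j + 1 - 1) n a := ih (by omega) (Or.inr hM)
      have h3 : 1 ≤ RM R (j + 1) n (dn none a) := by
        have h4 : (dn none a) none = c := by
          unfold dn
          rw [Function.update_self]
          omega
        apply ihc
        · rcases Nat.eq_zero_or_pos c with h5 | h5
          · exact Or.inl (h4.trans h5)
          · refine Or.inr ?_
            have h6 : dn none a = Function.update a none c := by
              unfold dn
              rw [show a none - 1 = c by omega]
            rw [h6]
            exact hM.none ht hR hts c h5 (by omega)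
        · exact h4
      omega

/-- lowering one coordinate -/
def NumSlow_low (a : Option (Fin t) → ℕ) (i : Option (Fin t)) (v : ℕ) : Option (Fin t) → ℕ :=
  Function.update a i (a i - v)

theorem NumSlow_low_zero (a : Option (Fin t) → ℕ) (i : Option (Fin t)) :
    NumSlow_low a i 0 = a := by
  unfold NumSlow_low
  rw [Nat.sub_zero, Function.update_eq_self]

theorem NumSlow_low_self (a : Option (Fin t) → ℕ) (i : Option (Fin t)) (v : ℕ) :
    NumSlow_low a i v i = a i - v := by
  unfold NumSlow_low
  rw [Function.update_self]

theorem NumSlow_dn_low (a : Option (Fin t) → ℕ) (i : Option (Fin t)) (v : ℕ) :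
    dn i (NumSlow_low a i v) = NumSlow_low a i (v + 1) := by
  unfold dn
  rw [NumSlow_low_self]
  unfold NumSlow_low
  rw [Function.update_idem, Nat.sub_sub]

theorem NumSlow_low_le (a : Option (Fin t) → ℕ) (i : Option (Fin t)) (v : ℕ) (k : Option (Fin t)) :
    NumSlow_low a i v k ≤ a k := by
  unfold NumSlow_low
  rcases eq_or_ne k i with rfl | h
  · rw [Function.update_self]
    omega
  · rw [Function.update_of_ne h]

theorem NumSlow_mg (ht : 1 ≤ t) (hR : 1 ≤ R) (hts : t + s = (t + 1) ^ (R + 1))
    {n : Fin t ⊕ Fin s → ℕ} {a : Option (Fin t) → ℕ} {D Ta v : ℕ} (h : Mg R D n a) (hTa : Ta ≤ D)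
    (hTa' : R * t ≤ Ta) (i : Option (Fin t)) (hi : Ta + v ≤ a i) :
    Mg R Ta n (NumSlow_low a i v) := by
  refine h.reg ht hR hts hTa hTa' ?_
  intro k
  refine ⟨?_, NumSlow_low_le a i v k⟩
  rcases eq_or_ne k i with rfl | hk
  · rw [NumSlow_low_self]
    exact (min_le_right _ _).trans (by omega)
  · unfold NumSlow_low
    rw [Function.update_of_ne hk]
    exact min_le_left _ _

theorem NumSlow_dd (a : Option (Fin t) → ℕ) (l : Fin t) (v : ℕ) (hv : v ≤ a (some l)) :
    dd (NumSlow_low a (some l) v) + v = dd a := by
  induction v with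
  | zero => rw [NumSlow_low_zero, Nat.add_zero]
  | succ v ih =>
    have h1 := ih (by omega)
    have h2 : 1 ≤ NumSlow_low a (some l) v (some l) := by
      rw [NumSlow_low_self]
      omega
    have h3 := dd_dn_some (NumSlow_low a (some l) v) l h2
    rw [NumSlow_dn_low] at h3
    have h4 : 1 ≤ dd (NumSlow_low a (some l) v) := by
      unfold dd
      have h5 := single_le_sum (f := fun l => NumSlow_low a (some l) v (some l))
        (fun _ _ => Nat.zero_le _) (mem_univ l)
      have h6 : NumSlow_low a (some l) v (some l) ≤
          ∑ l', NumSlow_low a (some l) v (some l') :=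
        single_le_sum (f := fun l' => NumSlow_low a (some l) v (some l'))
          (fun _ _ => Nat.zero_le _) (mem_univ l)
      omega
    omega

theorem NumSlow_ell_mono (j : ℕ) {m m' : ℕ} (h : m ≤ m') : ell j m ≤ ell j m' := by
  unfold ell
  exact Nat.choose_le_choose _ (by omega)

/-- The summation argument. -/
theorem NumSlow_sum (g f : ℕ → ℤ) (T : ℕ) (h1 : ∀ v, v < 2 * T → g v = g (v + 1) + f v)
    (h2 : ∀ v, v < 2 * T → f 0 ≤ 2 * f v) (h3 : 0 ≤ g (2 * T)) : (T : ℤ) * f 0 ≤ g 0 := by
  have h4 : ∀ v : ℕ, v ≤ 2 * T → (v : ℤ) * f 0 ≤ 2 * (g 0 - g v) := by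
    intro v
    induction v with
    | zero => intro _; simp
    | succ v ih =>
      intro hv
      have e1 := ih (by omega)
      have e2 := h1 v (by omega)
      have e3 := h2 v (by omega)
      push_cast
      have e4 : ((v : ℤ) + 1) * f 0 = v * f 0 + f 0 := by ring
      rw [e4]
      linarith only [e1, e2, e3]
  have h5 := h4 (2 * T) le_rfl
  push_cast at h5
  have h6 : (2 : ℤ) * T * f 0 = 2 * (T * f 0) := by ring
  rw [h6] at h5
  linarith

/-- Slow variation.  Induction on `j`.

`j = 0`: `RM_diff_zero` and `RM_zero_lower`.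

`j → j + 1`: let `C` be the constant for `j` and take `C' ≥ 4 * C + 2` (and larger than the constants
needed for `tau_slow`).  Let `T ≥ 1`, `Mg R (C' * T) n a`, `C' * T ≤ a i`.  Then
`RM R (j + 1) n a = ∑_{w < 2 T} f (a - w e_i) + RM R (j + 1) n (a - 2 T e_i)`
where `f = RM R j n` for `i = none` (`RM_diff_none`) and `f a = tau .. (dd a) - ell .. (mu n a (inl l))` for
`i = some l` (`RM_diff_some`).  The last term is nonnegative (`RM_pos`, `Mg.reg`), and
`2 * f (a - w e_i) ≥ f a` for `w ≤ 2 T`: for `i = none` by the case `j` with `4 * T` instead of `T`,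
for `i = some l` since `f a - f (a - w e_i) ≤ tau .. (j+1) (dd a) - tau .. (j+1) (dd a - w) ≤
w * tau .. j (dd a)` (`tau_drop`) and `4 * T * tau .. j (dd a) ≤ f a` (`tau_slow`).  Hence
`RM R (j + 1) n a ≥ 2 T * (f a / 2) = T * f a`. -/
theorem RM_slow (ht : 1 ≤ t) (hR : 1 ≤ R) (hts : t + s = (t + 1) ^ (R + 1)) (j : ℕ)
    (hj : j ≤ R) : ∃ C : ℕ, 1 ≤ C ∧ ∀ T : ℕ, 1 ≤ T → ∀ (n : Fin t ⊕ Fin s → ℕ)
      (a : Option (Fin t) → ℕ), Mg R (C * T) n a → ∀ i, C * T ≤ a i →
      0 ≤ RM R j n a - RM R j n (dn i a) ∧
        (T : ℤ) * (RM R j n a - RM R j n (dn i a)) ≤ RM R j n a := by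
  induction j with
  | zero =>
    refine ⟨(t + 1) ^ (R + 1) + R * t * (t + 1) ^ R + (R + 1) * t, ?_, ?_⟩
    · have : 1 ≤ (t + 1) ^ (R + 1) := Nat.one_le_pow _ _ (by omega)
      omega
    · intro T hT n a hM i hi
      set C := (t + 1) ^ (R + 1) + R * t * (t + 1) ^ R + (R + 1) * t with hC
      have hC1 : 1 ≤ (t + 1) ^ (R + 1) := Nat.one_le_pow _ _ (by omega)
      have hCT : C ≤ C * T := Nat.le_mul_of_pos_right _ hT
      have h1 := RM_diff_zero hts n a i (by omega) (by have := hM.deg; omega)
      refine ⟨h1.1, ?_⟩
      have h2 := RM_zero_lower n a (C * T) hM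
      have h3 : (T : ℤ) * (RM R 0 n a - RM R 0 n (dn i a)) ≤ T * (t + 1) ^ (R + 1) :=
        mul_le_mul_of_nonneg_left h1.2 (Int.natCast_nonneg _)
      have h4 : ((C * T : ℕ) : ℤ) = T * (t + 1) ^ (R + 1) + T * (R * t * (t + 1) ^ R) +
          T * ((R + 1) * t) := by
        rw [hC]
        push_cast
        ring
      rw [h4] at h2
      have h5 : (R : ℤ) * t * (t + 1) ^ R ≤ T * (R * t * (t + 1) ^ R) := by
        have : (0 : ℤ) ≤ R * t * (t + 1) ^ R := by positivity
        have hT' : (1 : ℤ) ≤ T := by exact_mod_cast hT
        nlinarith only [hT, this]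
      have h6 : (0 : ℤ) ≤ T * ((R + 1) * t) := by positivity
      linarith only [h2, h3, h5, h6]
  | succ j ih =>
    obtain ⟨C, hC1, hC⟩ := ih (by omega)
    obtain ⟨C1, hC11, hC1s⟩ := tau_slow (t + 1) (R - (j + 1)) j (by omega)
    refine ⟨4 * C + 4 * C1 + R * t + 3, by omega, ?_⟩
    intro T hT n a hM i hi
    -- the margins of the lowered states
    have hTa : ∀ v, v ≤ 2 * T →
        Mg R ((4 * C + R * t + 1) * T) n (NumSlow_low a i v) := by
      intro v hv
      refine NumSlow_mg ht hR hts hM ?_ ?_ i ?_
      · exact Nat.mul_le_mul_right _ (by omega)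
      · calc R * t ≤ 4 * C + R * t + 1 := by omega
          _ ≤ (4 * C + R * t + 1) * T := Nat.le_mul_of_pos_right _ hT
      · refine le_trans ?_ hi
        have e1 : (4 * C + 4 * C1 + R * t + 3) * T =
          (4 * C + R * t + 1) * T + 2 * T + 4 * C1 * T := by ring
        rw [e1]
        omega
    have hai : ∀ v, v ≤ 2 * T → (4 * C + R * t + 1) * T ≤ NumSlow_low a i v i := by
      intro v hv
      rw [NumSlow_low_self]
      have e1 : (4 * C + 4 * C1 + R * t + 3) * T =
          (4 * C + R * t + 1) * T + 2 * T + 4 * C1 * T := by ring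
      rw [e1] at hi
      omega
    have hT1 : 1 ≤ (4 * C + R * t + 1) * T := Nat.mul_pos (by omega) hT
    have hpos : ∀ v, v ≤ 2 * T → ∀ j' ≤ R, 1 ≤ RM R j' n (NumSlow_low a i v) := by
      intro v hv j' hj'
      exact RM_pos ht hR hts j' hj' (Or.inr ((hTa v hv).le hT1))
    rcases i with _ | l
    · -- direction of the curve
      have hd : ∀ v, v ≤ 2 * T → RM R (j + 1) n (NumSlow_low a none v) =
          RM R (j + 1) n (NumSlow_low a none (v + 1)) + RM R j n (NumSlow_low a none v) := by
        intro v hv
        have e1 := RM_diff_none (j + 1) (by omega) hj n (NumSlow_low a none v)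
          (by have := hai v hv; omega)
        rw [NumSlow_dn_low, Nat.add_sub_cancel] at e1
        exact e1
      -- slow variation of `RM R j`
      have hs : ∀ v, v ≤ 2 * T →
          (4 * T : ℤ) * (RM R j n (NumSlow_low a none 0) - RM R j n (NumSlow_low a none v)) ≤
            v * RM R j n (NumSlow_low a none 0) ∧
          RM R j n (NumSlow_low a none v) ≤ RM R j n (NumSlow_low a none 0) := by
        intro v
        induction v with
        | zero => intro _; simp
        | succ v ihv =>
          intro hv
          obtain ⟨e1, e2⟩ := ihv (by omega)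
          have hm : C * (4 * T) ≤ (4 * C + R * t + 1) * T := by
            have : (4 * C + R * t + 1) * T = C * (4 * T) + (R * t + 1) * T := by ring
            omega
          obtain ⟨e3, e4⟩ := hC (4 * T) (by omega) n (NumSlow_low a none v)
            ((hTa v (by omega)).le hm) none (hm.trans (hai v (by omega)))
          rw [NumSlow_dn_low] at e3 e4
          push_cast at e4
          constructor
          · push_cast
            nlinarith only [e1, e2, e4]
          · linarith only [e2, e3]
      have key := NumSlow_sum (fun v => RM R (j + 1) n (NumSlow_low a none v))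
        (fun v => RM R j n (NumSlow_low a none v)) T (fun v hv => hd v (by omega))
        (by
          intro v hv
          obtain ⟨e1, -⟩ := hs v (by omega)
          have e2 := hpos 0 (by omega) j (by omega)
          have hT' : (1 : ℤ) ≤ T := by exact_mod_cast hT
          have hv' : (v : ℤ) ≤ 2 * T := by
            have : v ≤ 2 * T := by omega
            exact_mod_cast this
          have e3 : (v : ℤ) * RM R j n (NumSlow_low a none 0) ≤
              2 * T * RM R j n (NumSlow_low a none 0) :=
            mul_le_mul_of_nonneg_right hv' (by linarith only [e2])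
          have e4 : (2 * T : ℤ) *
              (2 * (RM R j n (NumSlow_low a none 0) - RM R j n (NumSlow_low a none v))) ≤
              2 * T * RM R j n (NumSlow_low a none 0) := by linarith only [e1, e3]
          have e5 := le_of_mul_le_mul_left e4 (by linarith only [hT])
          linarith only [e5])
        (by have := hpos (2 * T) le_rfl (j + 1) hj; linarith)
      have h0 := hd 0 (by omega)
      have hp0 := hpos 0 (by omega) j (by omega)
      have hdn : dn none a = NumSlow_low a none (0 + 1) := by
        rw [← NumSlow_dn_low, NumSlow_low_zero]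
      rw [hdn]
      rw [NumSlow_low_zero] at key h0 hp0
      constructor
      · linarith only [h0, hp0]
      · have e6 : RM R (j + 1) n a - RM R (j + 1) n (NumSlow_low a none (0 + 1)) =
            RM R j n a := by linarith only [h0]
        rw [e6]
        exact key
    · -- the other directions
      have hla : ∀ v, v ≤ 2 * T → v ≤ a (some l) := by
        intro v hv
        have := hai (2 * T) le_rfl
        rw [NumSlow_low_self] at this
        omega
      set f : ℕ → ℤ := fun v =>
        (tau (t + 1) (R - (j + 1)) (j + 1) (dd (NumSlow_low a (some l) v)) : ℤ) -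
          ell (j + 1) (mu n (NumSlow_low a (some l) v) (.inl l)) with hf
      have hd : ∀ v, v ≤ 2 * T → RM R (j + 1) n (NumSlow_low a (some l) v) =
          RM R (j + 1) n (NumSlow_low a (some l) (v + 1)) + f v := by
        intro v hv
        have e1 := RM_diff_some (R := R) (j + 1) (by omega) n (NumSlow_low a (some l) v) l
          (by have := hai v hv; omega)
        rw [NumSlow_dn_low] at e1
        exact e1
      have hmt : mu n a (.inl l) + C1 * (4 * T) ≤ dd a := by
        have e1 := hM.line l
        have e2 : (4 * C + 4 * C1 + R * t + 3) * T =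
          C1 * (4 * T) + (4 * C + R * t + 3) * T := by ring
        rw [e2] at e1
        omega
      have hslow := hC1s (4 * T) (dd a) (mu n a (.inl l)) (by omega) hmt
      have hslow' : (4 * T : ℤ) * tau (t + 1) (R - (j + 1)) j (dd a) ≤ f 0 := by
        rw [hf]
        dsimp only
        rw [NumSlow_low_zero]
        have : (((4 * T * tau (t + 1) (R - (j + 1)) j (dd a) + ell (j + 1) (mu n a (.inl l)) :
          ℕ)) : ℤ) ≤ (tau (t + 1) (R - (j + 1)) (j + 1) (dd a) : ℕ) := by exact_mod_cast hslow
        push_cast at this
        linarith only [hslow]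
      have hdrop : ∀ v, v ≤ 2 * T →
          f 0 ≤ f v + v * tau (t + 1) (R - (j + 1)) j (dd a) := by
        intro v hv
        have e1 := NumSlow_dd a l v (hla v hv)
        have e2 := tau_drop (t + 1) (R - (j + 1)) j
          (by omega : dd (NumSlow_low a (some l) v) ≤ dd a)
        have e3 : dd a - dd (NumSlow_low a (some l) v) = v := by omega
        rw [e3] at e2
        have e4 : ell (j + 1) (mu n (NumSlow_low a (some l) v) (.inl l)) ≤
            ell (j + 1) (mu n a (.inl l)) :=
          NumSlow_ell_mono _ (mu_mono (NumSlow_low_le a (some l) v) _)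
        rw [hf]
        dsimp only
        rw [NumSlow_low_zero]
        have e5 : ((tau (t + 1) (R - (j + 1)) (j + 1) (dd a) : ℕ) : ℤ) ≤
            ((tau (t + 1) (R - (j + 1)) (j + 1) (dd (NumSlow_low a (some l) v)) +
              v * tau (t + 1) (R - (j + 1)) j (dd a) : ℕ) : ℤ) := by exact_mod_cast e2
        have e6 : ((ell (j + 1) (mu n (NumSlow_low a (some l) v) (.inl l)) : ℕ) : ℤ) ≤
            (ell (j + 1) (mu n a (.inl l)) : ℕ) := by exact_mod_cast e4
        push_cast at e5
        linarith only [e2, e4]
      have hT' : (1 : ℤ) ≤ T := by exact_mod_cast hT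
      have htau : (0 : ℤ) ≤ tau (t + 1) (R - (j + 1)) j (dd a) := Int.natCast_nonneg _
      have hf0 : 0 ≤ f 0 := by
        refine le_trans ?_ hslow'
        positivity
      have key := NumSlow_sum (fun v => RM R (j + 1) n (NumSlow_low a (some l) v)) f T
        (fun v hv => hd v (by omega))
        (by
          intro v hv
          have e1 := hdrop v (by omega)
          have hv' : (v : ℤ) ≤ 2 * T := by
            have : v ≤ 2 * T := by omega
            exact_mod_cast this
          have e2 : (v : ℤ) * tau (t + 1) (R - (j + 1)) j (dd a) ≤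
              2 * T * tau (t + 1) (R - (j + 1)) j (dd a) :=
            mul_le_mul_of_nonneg_right hv' htau
          have e3 : (4 * T : ℤ) * tau (t + 1) (R - (j + 1)) j (dd a) =
            2 * (2 * T * tau (t + 1) (R - (j + 1)) j (dd a)) := by ring
          rw [e3] at hslow'
          linarith only [hslow', e1, e2])
        (by have := hpos (2 * T) le_rfl (j + 1) hj; linarith only [this])
      have h0 := hd 0 (by omega)
      have hdn : dn (some l) a = NumSlow_low a (some l) (0 + 1) := by
        rw [← NumSlow_dn_low, NumSlow_low_zero]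
      rw [hdn]
      rw [NumSlow_low_zero] at key h0
      constructor
      · linarith only [hf0, h0]
      · have e6 : RM R (j + 1) n a - RM R (j + 1) n (NumSlow_low a (some l) (0 + 1)) =
            f 0 := by linarith only [h0]
        rw [e6]
        exact key

end Pool.Agent.H18.Pr
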