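import Pool.Agent.H18.Pr.Defs

/-!
# Module NumTau (PR): the numbers `tau`
-/

namespace Pool.Agent.H18.Pr

open Finset Pool.Agent.H18.Ex Pool.Agent.H18.Cub

theorem tau_zero_right (e A n : ℕ) (he : 1 ≤ e) : tau e A n 0 = 1 := by
  induction A with
  | zero => simp [tau]
  | succ A ih =>
    rw [tau, Finset.sum_eq_single 0]
    · rw [if_pos le_rfl]
      exact ih
    · intro b _ hb
      rw [if_neg]
      omega
    · intro h
      exact absurd (mem_range.2 (by omega)) h

theorem tau_zero_aux (e A n : ℕ) : tau e A (n + 1) 0 = tau e A n 0 := by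
  rcases Nat.eq_zero_or_pos e with rfl | he
  · cases A with
    | zero => simp [tau]
    | succ A => simp [tau]
  · rw [tau_zero_right e A _ he, tau_zero_right e A _ he]

theorem tau_succ (e A n d : ℕ) :
    tau e A (n + 1) (d + 1) = tau e A (n + 1) d + tau e A n (d + 1) := by
  induction A generalizing d with
  | zero =>
    simp only [tau]
    have h := Nat.choose_succ_succ (d + n + 1) n
    have h1 : d + 1 + (n + 1) = d + n + 1 + 1 := by ring
    have h2 : d + (n + 1) = d + n + 1 := by ring
    have h3 : d + 1 + n = d + n + 1 := by ring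
    rw [h1, h2, h3, h, Nat.succ_eq_add_one]
    ring
  | succ A ih =>
    rw [tau, tau, tau, ← Finset.sum_add_distrib]
    refine Finset.sum_congr rfl fun δ _ => ?_
    rcases Nat.lt_trichotomy δ (d + 1) with h | h | h
    · rw [if_pos h.le, if_pos (by omega), if_pos h.le]
      have h1 : d + 1 - δ = (d - δ) + 1 := by omega
      rw [h1]
      exact ih _
    · rw [if_pos h.le, if_neg (by omega), if_pos h.le, zero_add, h, Nat.sub_self]
      exact tau_zero_aux e A n
    · rw [if_neg (by omega), if_neg (by omega), if_neg (by omega)]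

theorem tau_mono (e A n : ℕ) {d d' : ℕ} (h : d ≤ d') : tau e A n d ≤ tau e A n d' := by
  induction A generalizing d d' with
  | zero =>
    simp only [tau]
    exact Nat.choose_le_choose _ (by omega)
  | succ A ih =>
    rw [tau, tau]
    refine Finset.sum_le_sum fun δ _ => ?_
    by_cases h1 : δ ≤ d
    · rw [if_pos h1, if_pos (h1.trans h)]
      exact ih (by omega)
    · rw [if_neg h1]
      exact Nat.zero_le _

theorem tau_tele (e A n d k : ℕ) (hk : k ≤ d) :
    tau e A (n + 1) d = tau e A (n + 1) (d - k) + ∑ δ ∈ range k, tau e A n (d - δ) := by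
  induction k with
  | zero => simp
  | succ k ih =>
    rw [ih (by omega), Finset.sum_range_succ]
    have h1 : d - k = (d - (k + 1)) + 1 := by omega
    rw [h1, tau_succ]
    ring

/-- The second recursion. -/
theorem tau_eq (e A n d : ℕ) (he : 1 ≤ e) (hd : e ≤ d) :
    tau e A (n + 1) d = tau e A (n + 1) (d - e) + tau e (A + 1) n d := by
  rw [tau_tele e A n d e hd]
  congr 1
  rw [tau]
  refine Finset.sum_congr rfl fun δ hδ => ?_
  rw [if_pos]
  have := mem_range.1 hδ
  omega

theorem tau_eq_of_lt (e A n d : ℕ) (hd : d < e) : tau e A (n + 1) d = tau e (A + 1) n d := by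
  rw [tau_tele e A n d d le_rfl, Nat.sub_self, tau_zero_aux]
  rw [tau]
  have h1 : range e = range (d + 1) ∪ (range e \ range (d + 1)) := by
    rw [Finset.union_sdiff_of_subset]
    intro x hx
    rw [mem_range] at hx ⊢
    omega
  rw [h1, Finset.sum_union disjoint_sdiff, Finset.sum_range_succ]
  have h2 : ∑ δ ∈ range e \ range (d + 1), (if δ ≤ d then tau e A n (d - δ) else 0) = 0 := by
    refine Finset.sum_eq_zero fun δ hδ => ?_
    rw [mem_sdiff, mem_range, mem_range] at hδ
    rw [if_neg]
    omega
  have h3 : ∑ δ ∈ range d, (if δ ≤ d then tau e A n (d - δ) else 0) =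
      ∑ δ ∈ range d, tau e A n (d - δ) := by
    refine Finset.sum_congr rfl fun δ hδ => ?_
    rw [if_pos (mem_range.1 hδ).le]
  rw [h2, h3, if_pos le_rfl, Nat.sub_self]
  ring

theorem choose_le_tau (e A n d : ℕ) (he : 1 ≤ e) : (d + n).choose n ≤ tau e A n d := by
  induction A with
  | zero => simp [tau]
  | succ A ih =>
    rw [tau]
    refine ih.trans ?_
    have h1 := Finset.single_le_sum (f := fun δ => if δ ≤ d then tau e A n (d - δ) else 0)
      (fun _ _ => Nat.zero_le _) (mem_range.2 (show 0 < e by omega))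
    simpa using h1

theorem tau_pos (e A n d : ℕ) (he : 1 ≤ e) : 1 ≤ tau e A n d := by
  exact (Nat.choose_pos (Nat.le_add_left _ _)).trans_le (choose_le_tau e A n d he)

theorem tau_le (e A n d : ℕ) : tau e A n d ≤ e ^ A * (d + n).choose n := by
  induction A generalizing d with
  | zero => simp [tau]
  | succ A ih =>
    rw [tau]
    calc ∑ δ ∈ range e, (if δ ≤ d then tau e A n (d - δ) else 0)
        ≤ ∑ δ ∈ range e, e ^ A * (d + n).choose n := by
          refine Finset.sum_le_sum fun δ _ => ?_
          by_cases h1 : δ ≤ d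
          · rw [if_pos h1]
            refine (ih _).trans (Nat.mul_le_mul_left _ ?_)
            exact Nat.choose_le_choose _ (by omega)
          · rw [if_neg h1]
            exact Nat.zero_le _
      _ = e ^ (A + 1) * (d + n).choose n := by
          rw [Finset.sum_const, card_range, smul_eq_mul, pow_succ]
          ring

theorem tau_one_lower (e A d : ℕ) (he : 1 ≤ e) :
    2 * (e ^ A * (d + 1)) ≤ 2 * tau e A 1 d + A * (e - 1) * e ^ A := by
  have key : ∀ d : ℕ, (2 : ℤ) * ((e : ℤ) ^ A * ((d : ℤ) + 1)) ≤
      2 * (tau e A 1 d : ℤ) + A * ((e : ℤ) - 1) * (e : ℤ) ^ A := by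
    induction A with
    | zero =>
      intro d
      simp [tau]
    | succ A ih =>
      intro d
      rw [tau]
      push_cast
      have h1 : ∀ δ ∈ range e, 2 * ((e : ℤ) ^ A * ((d : ℤ) + 1 - δ)) -
          A * ((e : ℤ) - 1) * (e : ℤ) ^ A ≤
          2 * (if δ ≤ d then (tau e A 1 (d - δ) : ℤ) else 0) := by
        intro δ hδ
        by_cases h2 : δ ≤ d
        · rw [if_pos h2]
          have h3 := ih (d - δ)
          push_cast [Nat.cast_sub h2] at h3
          linarith
        · rw [if_neg h2]
          have h3 : (d : ℤ) + 1 - δ ≤ 0 := by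
            have : d + 1 ≤ δ := by omega
            have h4 : ((d + 1 : ℕ) : ℤ) ≤ (δ : ℤ) := by exact_mod_cast this
            push_cast at h4
            linarith
          have h4 : (0 : ℤ) ≤ (e : ℤ) ^ A := by positivity
          have h5 : (e : ℤ) ^ A * ((d : ℤ) + 1 - δ) ≤ 0 := mul_nonpos_of_nonneg_of_nonpos h4 h3
          have h6 : (0 : ℤ) ≤ A * ((e : ℤ) - 1) * (e : ℤ) ^ A := by
            have h7 : (0 : ℤ) ≤ (e : ℤ) - 1 := by
              have : (1 : ℤ) ≤ (e : ℤ) := by exact_mod_cast he
              linarith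
            positivity
          linarith
      have h2 := Finset.sum_le_sum h1
      rw [← Finset.mul_sum] at h2
      have h3 : ∑ δ ∈ range e, (2 * ((e : ℤ) ^ A * ((d : ℤ) + 1 - δ)) -
          A * ((e : ℤ) - 1) * (e : ℤ) ^ A) =
          2 * ((e : ℤ) ^ (A + 1) * ((d : ℤ) + 1)) - (A + 1) * ((e : ℤ) - 1) * (e : ℤ) ^ (A + 1) := by
        have h4 : ∀ m : ℕ, ∑ δ ∈ range m, (2 * ((e : ℤ) ^ A * ((d : ℤ) + 1 - δ)) -
            A * ((e : ℤ) - 1) * (e : ℤ) ^ A) =
            2 * ((e : ℤ) ^ A * m * ((d : ℤ) + 1)) - (e : ℤ) ^ A * (m * ((m : ℤ) - 1)) -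
              m * (A * ((e : ℤ) - 1) * (e : ℤ) ^ A) := by
          intro m
          induction m with
          | zero => simp
          | succ m ihm =>
            rw [Finset.sum_range_succ, ihm]
            push_cast
            ring
        rw [h4, pow_succ]
        ring
      rw [h3] at h2
      linarith
  have h := key d
  zify [he]
  exact h

theorem tau_zero_le (e A d : ℕ) : tau e A 0 d ≤ e ^ A := by
  have h := tau_le e A 0 d
  rwa [Nat.choose_zero_right, mul_one] at h

/-- For large `d` all digits are allowed. -/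
theorem tau_zero_eq (e A d : ℕ) (h : A * (e - 1) ≤ d) : tau e A 0 d = e ^ A := by
  induction A generalizing d with
  | zero => simp [tau]
  | succ A ih =>
    rw [tau]
    have h1 : ∀ δ ∈ range e, (if δ ≤ d then tau e A 0 (d - δ) else 0) = e ^ A := by
      intro δ hδ
      rw [mem_range] at hδ
      have h2 : (A + 1) * (e - 1) = A * (e - 1) + (e - 1) := by ring
      rw [h2] at h
      rw [if_pos (by omega)]
      exact ih _ (by omega)
    rw [Finset.sum_congr rfl h1, Finset.sum_const, card_range, smul_eq_mul, pow_succ]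
    ring

theorem tau_drop (e A n : ℕ) {d d' : ℕ} (h : d' ≤ d) :
    tau e A (n + 1) d ≤ tau e A (n + 1) d' + (d - d') * tau e A n d := by
  rw [tau_tele e A n d (d - d') (by omega)]
  have h1 : d - (d - d') = d' := by omega
  rw [h1]
  refine Nat.add_le_add_left ?_ _
  calc ∑ δ ∈ range (d - d'), tau e A n (d - δ) ≤ ∑ δ ∈ range (d - d'), tau e A n d :=
        Finset.sum_le_sum fun δ _ => tau_mono e A n (Nat.sub_le _ _)
    _ = (d - d') * tau e A n d := by rw [Finset.sum_const, card_range, smul_eq_mul]

end Pool.Agent.H18.Pr
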