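import Pool.Agent.H18.Pr.NumTau

/-!
# Module NumTau2 (PR): comparison of the numbers `tau`
-/

namespace Pool.Agent.H18.Pr

open Finset Pool.Agent.H18.Ex Pool.Agent.H18.Cub

theorem tau_rise (e A n c s : ℕ) :
    tau e A (n + 1) c + s * tau e A n c ≤ tau e A (n + 1) (c + s) := by
  induction s with
  | zero => simp
  | succ s ih =>
    have h1 := tau_succ e A n (c + s)
    have h2 : tau e A n c ≤ tau e A n (c + s + 1) := tau_mono e A n (by omega)
    have h3 : (s + 1) * tau e A n c = s * tau e A n c + tau e A n c := by ring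
    rw [← Nat.add_assoc, h1, h3]
    omega

theorem ell_le_tau (e A j m : ℕ) (he : 1 ≤ e) : ell (j + 1) m ≤ tau e A (j + 1) m := by
  refine le_trans ?_ (choose_le_tau e A (j + 1) m he)
  unfold ell
  exact Nat.choose_le_choose _ (by omega)

theorem tau_slow_of_half (e A j : ℕ) (he : 1 ≤ e)
    (hH : ∃ C, 1 ≤ C ∧ ∀ s d, C * s ≤ d → tau e A j d ≤ 2 * tau e A j (d - s)) :
    ∃ C, 1 ≤ C ∧ ∀ T d m, 1 ≤ T → m + C * T ≤ d →
      T * tau e A j d + ell (j + 1) m ≤ tau e A (j + 1) d := by
  obtain ⟨C, hC, hH⟩ := hH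
  refine ⟨2 * C, by omega, fun T d m hT h => ?_⟩
  have h1 : C * (2 * T) ≤ d := by
    have : C * (2 * T) = 2 * C * T := by ring
    omega
  have h2 : 2 * T ≤ C * (2 * T) := Nat.le_mul_of_pos_left _ (by omega)
  have h2' : C * (2 * T) = 2 * C * T := by ring
  have h3 := hH (2 * T) d h1
  have h4 := tau_rise e A j (d - 2 * T) (2 * T)
  have h5 : d - 2 * T + 2 * T = d := by omega
  rw [h5] at h4
  have h6 : tau e A (j + 1) m ≤ tau e A (j + 1) (d - 2 * T) := tau_mono e A (j + 1) (by omega)
  have h7 := ell_le_tau e A j m he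
  have h8 : T * tau e A j d ≤ T * (2 * tau e A j (d - 2 * T)) := Nat.mul_le_mul_left _ h3
  have h9 : T * (2 * tau e A j (d - 2 * T)) = 2 * T * tau e A j (d - 2 * T) := by ring
  omega

theorem tau_half (e A j : ℕ) (he : 1 ≤ e) :
    ∃ C, 1 ≤ C ∧ ∀ s d, C * s ≤ d → tau e A j d ≤ 2 * tau e A j (d - s) := by
  induction j with
  | zero =>
    refine ⟨A * (e - 1) + 1, by omega, fun s d h => ?_⟩
    rcases Nat.eq_zero_or_pos s with hs | hs
    · subst hs
      simp only [Nat.sub_zero]
      omega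
    · have h1 : (A * (e - 1) + 1) * s = A * (e - 1) * s + s := by ring
      have h2 : A * (e - 1) ≤ A * (e - 1) * s := Nat.le_mul_of_pos_right _ hs
      rw [tau_zero_eq e A d (by omega), tau_zero_eq e A (d - s) (by omega)]
      omega
  | succ j ih =>
    obtain ⟨C2, hC2, hs⟩ := tau_slow_of_half e A j he ih
    obtain ⟨C1, hC1, hH⟩ := ih
    refine ⟨C1 + 2 * C2 + 1, by omega, fun s d h => ?_⟩
    rcases Nat.eq_zero_or_pos s with hs0 | hs0
    · subst hs0
      simp only [Nat.sub_zero]
      omega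
    · have e1 : (C1 + 2 * C2 + 1) * s = C1 * s + C2 * (2 * s) + s := by ring
      have h1 := hH s d (by omega)
      have h2 := hs (2 * s) (d - s) 0 (by omega) (by omega)
      have h3 := tau_drop e A j (d := d) (d' := d - s) (by omega)
      have h4 : d - (d - s) = s := by omega
      rw [h4] at h3
      have h5 : s * tau e A j d ≤ s * (2 * tau e A j (d - s)) := Nat.mul_le_mul_left _ h1
      have h6 : s * (2 * tau e A j (d - s)) = 2 * s * tau e A j (d - s) := by ring
      omega

/-- `tau e A (j + 1) d` is much larger than `tau e A j d`, even after subtracting a point of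
multiplicity `m`, provided that `d - m` is large.  (Hint: with `s = min (d - m) (d / C')` one has
`tau e A (j + 1) d - tau e A (j + 1) (d - s) ≥ s * tau e A j (d - s)`,
`tau e A (j + 1) (d - s) ≥ tau e A (j + 1) m ≥ ell (j + 1) m`, and
`2 * tau e A j (d - s) ≥ tau e A j d`.) -/
theorem tau_slow (e A j : ℕ) (he : 1 ≤ e) : ∃ C, 1 ≤ C ∧ ∀ T d m, 1 ≤ T → m + C * T ≤ d →
    T * tau e A j d + ell (j + 1) m ≤ tau e A (j + 1) d :=
  tau_slow_of_half e A j he (tau_half e A j he)

theorem ell_succ_le_choose (j d : ℕ) (hj : 1 ≤ j) : ell j d + 1 ≤ (d + j).choose j := by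
  obtain ⟨k, rfl⟩ : ∃ k, j = k + 1 := ⟨j - 1, by omega⟩
  have h1 : (d + (k + 1)).choose (k + 1) = (d + k).choose k + (d + k).choose (k + 1) := by
    rw [← Nat.add_assoc, Nat.choose_succ_succ]
  have h2 : ell (k + 1) d = (d + k).choose (k + 1) := by
    unfold ell
    rw [show d + (k + 1) - 1 = d + k by omega]
  have h3 : 0 < (d + k).choose k := Nat.choose_pos (by omega)
  omega

/-- A point of multiplicity at most `d`. -/
theorem ell_lt_tau (e A j d m : ℕ) (he : 1 ≤ e) (hj : 1 ≤ j) (h : m ≤ d) :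
    ell j m + 1 ≤ tau e A j d := by
  have h1 := ell_mono j h
  have h2 := ell_succ_le_choose j d hj
  have h3 := choose_le_tau e A j d he
  omega

theorem ell_succ_sub (j m : ℕ) (hj : 1 ≤ j) : ell (j + 1) m = ell (j + 1) (m - 1) + ell j m := by
  rcases m with _ | c
  · rw [Nat.zero_sub, ell_zero hj, ell_zero (by omega)]
  · rw [Nat.add_sub_cancel]
    exact ell_succ j c

theorem ell_superadd (k a b : ℕ) : ell (k + 1) a + ell (k + 1) b ≤ ell (k + 1) (a + b) := by
  induction b with
  | zero =>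
    rw [ell_zero (by omega), Nat.add_zero]
    exact le_of_eq rfl
  | succ b ih =>
    have h1 := ell_succ k b
    have h2 := ell_succ k (a + b)
    have h3 : ell k (b + 1) ≤ ell k (a + b + 1) := ell_mono k (by omega)
    rw [← Nat.add_assoc]
    omega

/-- Several points of small total multiplicity. -/
theorem sum_ell_le (j : ℕ) (hj : 1 ≤ j) {B : Type} [Fintype B] (m : B → ℕ) (d : ℕ)
    (h : ∑ b, m b ≤ d) : ∑ b, ell j (m b) + 1 ≤ (d + j).choose j := by
  classical
  obtain ⟨k, rfl⟩ : ∃ k, j = k + 1 := ⟨j - 1, by omega⟩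
  have key : ∀ s : Finset B, ∑ b ∈ s, ell (k + 1) (m b) ≤ ell (k + 1) (∑ b ∈ s, m b) := by
    intro s
    induction s using Finset.induction_on with
    | empty => simp
    | insert a s ha ih =>
      rw [sum_insert ha, sum_insert ha]
      exact le_trans (Nat.add_le_add_left ih _) (ell_superadd k _ _)
  have h1 := key univ
  have h2 := ell_mono (k + 1) h
  have h3 := ell_succ_le_choose (k + 1) d hj
  omega

end Pool.Agent.H18.Pr
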