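import Pool.Agent.H18.Pr.PeelN

/-!
# Module RunN: running along a good list of directions (abstract version, traces of dimension `n`)
-/

namespace Pool.Agent.H18.Pr

open Finset Pool.Agent.H18.Ex Pool.Agent.H18.Cub

variable {Λ : Type} [Fintype Λ] [DecidableEq Λ] {n : ℕ}

/-- A list of directions along which the state can be peeled; `φ` bounds the traces of the forced
conditions. -/
def GoodN (Y : SysN Λ n) (M : ℕ) : List Λ → (Λ → ℕ) → (Λ → ℕ) → Prop
  | [], _, _ => True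
  | l :: L, a, φ =>
    1 ≤ a l ∧ Y.Gd M l a ∧ φ l + g0 n M * ell n M ≤ Y.F l a ∧
    ((M * ∑ i, φ i + ell (n + 1) M * (Y.F l a + g0 n M) + Y.F l a : ℕ) : ℤ) ≤ Y.R a ∧
    GoodN Y M L (dn l a) (Function.update φ l (nphi n M (Y.F l a)))

/-- The bounds at the end of a list of directions. -/
def ephN (Y : SysN Λ n) (M : ℕ) : List Λ → (Λ → ℕ) → (Λ → ℕ) → (Λ → ℕ)
  | [], _, φ => φ
  | l :: L, a, φ => ephN Y M L (dn l a) (Function.update φ l (nphi n M (Y.F l a)))

/-- `GoodN` for an appended list. -/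
theorem GoodN.append {Y : SysN Λ n} {M : ℕ} (L L' : List Λ) (a φ : Λ → ℕ) :
    GoodN Y M (L ++ L') a φ ↔
      GoodN Y M L a φ ∧ GoodN Y M L' (ew L a) (ephN Y M L a φ) := by
  induction L generalizing a φ with
  | nil =>
    rw [ew_nil']
    change GoodN Y M L' a φ ↔ True ∧ GoodN Y M L' a φ
    exact ⟨fun h => ⟨trivial, h⟩, fun h => h.2⟩
  | cons l L ih =>
    rw [ew_cons']
    change (1 ≤ a l ∧ _ ∧ _ ∧ _ ∧ GoodN Y M (L ++ L') _ _) ↔
      (1 ≤ a l ∧ _ ∧ _ ∧ _ ∧ GoodN Y M L _ _) ∧ _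
    rw [ih]
    constructor
    · rintro ⟨h1, h2, h3, h4, h5, h6⟩
      exact ⟨⟨h1, h2, h3, h4, h5⟩, h6⟩
    · rintro ⟨⟨h1, h2, h3, h4, h5⟩, h6⟩
      exact ⟨h1, h2, h3, h4, h5, h6⟩

theorem ephN_append (Y : SysN Λ n) (M : ℕ) (L L' : List Λ) (a φ : Λ → ℕ) :
    ephN Y M (L ++ L') a φ = ephN Y M L' (ew L a) (ephN Y M L a φ) := by
  induction L generalizing a φ with
  | nil =>
    rw [ew_nil']
    rfl
  | cons l L ih =>
    rw [ew_cons']
    exact ih _ _

private theorem shf_mono {S T : Multiset (ℕ × ℕ)} (h : S ≤ T) : shf S ≤ shf T :=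
  Multiset.filter_le_filter _ (Multiset.map_le_map h)

private theorem shf_iterate_mono (k : ℕ) {S T : Multiset (ℕ × ℕ)} (h : S ≤ T) :
    shf^[k] S ≤ shf^[k] T := by
  induction k generalizing S T with
  | zero => exact h
  | succ k ih =>
    rw [Function.iterate_succ_apply, Function.iterate_succ_apply]
    exact ih (shf_mono h)

/-- Running along a good list. -/
theorem runNs (Y : SysN Λ n) (M : ℕ) (hn : 1 ≤ n) (hM : 1 ≤ M) (L : List Λ) (a φ : Λ → ℕ)
    (hG : GoodN Y M L a φ) (c : Cfg Λ) (hc : c.OK M)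
    (htr : ∀ l, c.tr n l ≤ φ l) (hsz : Y.R a ≤ c.sz n) :
    ∃ c' : Cfg Λ, c'.OK M ∧
      (Y.K (ew L a) c'.kinds → Y.K a c.kinds) ∧
      (∀ l, c'.tr n l ≤ ephN Y M L a φ l) ∧
      (c'.sz n : ℤ) + Y.R a = c.sz n + Y.R (ew L a) ∧
      (c'.s = c.s ∨ c'.N.card < g0 n M) ∧
      c'.N.card ≤ c.N.card ∧
      (L ≠ [] → c.N.card < g0 n M → c'.N = 0) ∧
      (c.N = 0 → c'.N = 0 ∧ ∀ l, c'.Φ l = shf^[L.count l] (c.Φ l)) ∧
      (∀ l, shf^[L.count l] (c.Φ l) ≤ c'.Φ l) ∧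
      (∀ l, L.count l = 0 → c'.Φ l = c.Φ l) ∧ c'.s ≤ c.s := by
  induction L generalizing a φ c with
  | nil =>
    refine ⟨c, hc, ?_, htr, ?_, Or.inl rfl, le_rfl, fun h => absurd rfl h,
      fun h => ⟨h, fun l => rfl⟩, fun l => le_rfl, fun l _ => rfl, le_rfl⟩
    · rw [ew_nil']
      exact id
    · rw [ew_nil']
  | cons l L ih =>
    obtain ⟨h2, hE, h4, h5, h6⟩ := hG
    have hg0 : 1 ≤ g0 n M * ell n M := by
      unfold g0
      exact Nat.mul_pos (Nat.mul_pos (by omega) (ell_pos n hM)) (ell_pos n hM)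
    have hfl : ∑ l', c.fl n l' ≤ M * ∑ l', φ l' := by
      rw [Finset.mul_sum]
      refine Finset.sum_le_sum fun l' _ => ?_
      exact le_trans (Cfg.fl_le n M c hc l') (Nat.mul_le_mul_left _ (htr l'))
    have hszdef : c.sz n = c.nsz n + ∑ l', c.fl n l' := rfl
    have hav : ell (n + 1) M * (Y.F l a + g0 n M) + Y.F l a ≤ c.nsz n := by
      have h7 : ((M * ∑ i, φ i + ell (n + 1) M * (Y.F l a + g0 n M) + Y.F l a : ℕ) : ℤ) ≤
          ((c.sz n : ℕ) : ℤ) := h5.trans hsz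
      have h8 := Int.ofNat_le.1 h7
      omega
    have htrl := htr l
    obtain ⟨c₁, hc₁, hGM, hΦ, htr₁, hsz₁, hs₁, hN₁, hN₁0, hz₁, hle₁, hss₁⟩ :=
      peelNs Y M hn hM a l h2 hE (Y.F l a) rfl c hc 0
        (Multiset.zero_le _) (by rw [Multiset.map_zero, Multiset.sum_zero]; omega) hav
    have hpeel := Y.count a l h2 (by omega)
    have htr₁' : ∀ l', c₁.tr n l' ≤ Function.update φ l (nphi n M (Y.F l a)) l' := by
      intro l'
      by_cases hl' : l' = l
      · subst hl'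
        rw [Function.update_self]
        unfold nphi
        have h7 : c₁.tr n l' ≤ ((M - 1) * Y.F l' a + M * ell n M ^ 2) / M := by
          rw [Nat.le_div_iff_mul_le (by omega), Nat.mul_comm]
          exact htr₁
        rw [Nat.add_mul_div_left _ _ (by omega)] at h7
        exact h7
      · rw [Function.update_of_ne hl']
        have h8 : c₁.tr n l' = c.tr n l' := by
          unfold Cfg.tr
          rw [hΦ l' hl']
        rw [h8]
        exact htr l'
    obtain ⟨c₂, hc₂, hGM₂, htr₂, hsz₂, hs₂, hN₂, hN₂0, hz₂, hle₂, hcnt₂, hss₂⟩ :=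
      ih (dn l a) (Function.update φ l (nphi n M (Y.F l a))) h6 c₁ hc₁ htr₁' (by omega)
    refine ⟨c₂, hc₂, ?_, htr₂, ?_, ?_, le_trans hN₂ hN₁, ?_, ?_, ?_, ?_, le_trans hss₂ hss₁⟩
    · rw [ew_cons']
      exact fun h => hGM (hGM₂ h)
    · rw [ew_cons']
      omega
    · rcases hs₂ with h | h
      · rcases hs₁ with h' | h'
        · exact Or.inl (h.trans h')
        · exact Or.inr (by omega)
      · exact Or.inr h
    · intro _ hlt
      exact (hz₂ (hN₁0 hlt (by omega))).1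
    · intro h0
      obtain ⟨h7, h8⟩ := hz₁ h0
      obtain ⟨h9, h10⟩ := hz₂ h7
      refine ⟨h9, fun l' => ?_⟩
      by_cases hl' : l' = l
      · subst hl'
        rw [List.count_cons_self, Function.iterate_succ_apply, ← h8]
        exact h10 l'
      · rw [List.count_cons_of_ne (fun h => hl' h.symm), ← hΦ l' hl']
        exact h10 l'
    · intro l'
      by_cases hl' : l' = l
      · subst hl'
        rw [List.count_cons_self, Function.iterate_succ_apply]
        rw [Multiset.map_zero, add_zero] at hle₁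
        exact le_trans (shf_iterate_mono _ hle₁) (hle₂ l')
      · rw [List.count_cons_of_ne (fun h => hl' h.symm), ← hΦ l' hl']
        exact hle₂ l'
    · intro l' hcount
      by_cases hl' : l' = l
      · subst hl'
        rw [List.count_cons_self] at hcount
        omega
      · rw [List.count_cons_of_ne (fun h => hl' h.symm)] at hcount
        rw [hcnt₂ l' hcount, hΦ l' hl']

/-- `runNs` without the last statement. -/
theorem runN (Y : SysN Λ n) (M : ℕ) (hn : 1 ≤ n) (hM : 1 ≤ M) (L : List Λ) (a φ : Λ → ℕ)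
    (hG : GoodN Y M L a φ) (c : Cfg Λ) (hc : c.OK M)
    (htr : ∀ l, c.tr n l ≤ φ l) (hsz : Y.R a ≤ c.sz n) :
    ∃ c' : Cfg Λ, c'.OK M ∧
      (Y.K (ew L a) c'.kinds → Y.K a c.kinds) ∧
      (∀ l, c'.tr n l ≤ ephN Y M L a φ l) ∧
      (c'.sz n : ℤ) + Y.R a = c.sz n + Y.R (ew L a) ∧
      (c'.s = c.s ∨ c'.N.card < g0 n M) ∧
      c'.N.card ≤ c.N.card ∧
      (L ≠ [] → c.N.card < g0 n M → c'.N = 0) ∧
      (c.N = 0 → c'.N = 0 ∧ ∀ l, c'.Φ l = shf^[L.count l] (c.Φ l)) ∧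
      (∀ l, shf^[L.count l] (c.Φ l) ≤ c'.Φ l) ∧
      (∀ l, L.count l = 0 → c'.Φ l = c.Φ l) := by
  obtain ⟨c', h1, h2, h3, h4, h5, h6, h7, h8, h9, h10, -⟩ :=
    runNs Y M hn hM L a φ hG c hc htr hsz
  exact ⟨c', h1, h2, h3, h4, h5, h6, h7, h8, h9, h10⟩

end Pool.Agent.H18.Pr
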