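import Pool.Agent.H18.Pr.MainN
import Pool.Agent.H18.Cub.Sched

/-!
# Module SchedN: the schedule (abstract version, traces of dimension `n`)

Always peel a direction with maximal `a l`, until all `a l ≤ T'`; then clean.
-/

namespace Pool.Agent.H18.Pr

open Finset Pool.Agent.H18.Ex Pool.Agent.H18.Cub

variable {Λ : Type} [Fintype Λ] [DecidableEq Λ] {n : ℕ}

/-- The required size of the traces. -/
def TT (n M c : ℕ) : ℕ :=
  16 * M * (c * (2 * M + 3) + ell n M ^ 2 + M * ell n M ^ 2) + 8 * ell (n + 1) M + 8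

/-- The numerical properties of a Horace system below the state `N`. -/
structure NumR (Y : SysN Λ n) (M T Ta : ℕ) (N : Λ → ℕ) : Prop where
  hn : 1 ≤ n
  hM : 1 ≤ M
  hTa : 1 ≤ Ta
  hT : TT n M (Fintype.card Λ) ≤ T
  drop : ∀ a b l, Reg N Ta a → Ta ≤ a l → (∀ i, a i ≤ b i) → (∀ i, b i ≤ N i) →
    T * Y.F l b ≤ T * Y.F l a + (∑ i, (b i - a i)) * Y.F l b
  floor : ∀ a l, Reg N Ta a → Ta ≤ a l → T ≤ Y.F l a
  rlow : ∀ a l, Reg N Ta a → Ta ≤ a l → (T : ℤ) * Y.F l a ≤ Y.R a
  full : ∀ a, Reg N Ta a → FullN Y a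
  gd : ∀ a l, Reg N Ta a → Ta ≤ a l → Y.Gd M l a

/-- The bound for the traces of the forced conditions. -/
def BdN (n M φ X : ℕ) : Prop := 2 * M * φ + X ≤ 2 * M * X + 2 * M * ell n M ^ 2

theorem BdN_nphi {M : ℕ} (hM : 1 ≤ M) (f : ℕ) : BdN n M (nphi n M f) f := by
  unfold BdN nphi
  have h1 : M * ((M - 1) * f / M) ≤ (M - 1) * f := Nat.mul_div_le _ _
  have h2 : 2 * M * ((M - 1) * f / M + ell n M ^ 2) =
      2 * (M * ((M - 1) * f / M)) + 2 * M * ell n M ^ 2 := by ring
  have h3 : 2 * ((M - 1) * f) + 2 * f = 2 * M * f := by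
    obtain ⟨k, rfl⟩ : ∃ k, M = k + 1 := ⟨M - 1, by omega⟩
    rw [Nat.add_sub_cancel]
    ring
  omega

/-- The number of steps allowed between two uses of a direction. -/
def KK (Λ : Type) [Fintype Λ] (M : ℕ) : ℕ := Fintype.card Λ * (2 * M + 3)

/-- The bound `φ` for the direction `l` at the state `a`, with slack `s`. -/
def Act (Y : SysN Λ n) (M Ta : ℕ) (N a φ : Λ → ℕ) (s : ℕ) (l : Λ) : Prop :=
  φ l = 0 ∨ (Ta ≤ a l ∧ ∃ b : Λ → ℕ, (∀ i, a i ≤ b i) ∧ (∀ i, b i ≤ N i) ∧
    ∑ i, (b i - a i) ≤ s ∧ BdN n M (φ l) (Y.F l b))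

theorem Act.mono {Y : SysN Λ n} {M Ta : ℕ} {N a φ : Λ → ℕ} {s s' : ℕ} {l : Λ} (hs : s ≤ s')
    (h : Act Y M Ta N a φ s l) : Act Y M Ta N a φ s' l := by
  rcases h with h | ⟨h1, b, h2, h3, h4, h5⟩
  · exact Or.inl h
  · exact Or.inr ⟨h1, b, h2, h3, h4.trans hs, h5⟩

/-- The key estimates. -/
theorem NumR.key {Y : SysN Λ n} {M T Ta : ℕ} {N : Λ → ℕ} (H : NumR Y M T Ta N)
    {a φ : Λ → ℕ} {s : ℕ} (hreg : Reg N Ta a) (hs : s ≤ KK Λ M)
    (hφ : ∀ l, Act Y M Ta N a φ s l) (l : Λ) (hl : Ta ≤ a l) :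
    φ l + g0 n M * ell n M ≤ Y.F l a ∧
    ((M * ∑ i, φ i + ell (n + 1) M * (Y.F l a + g0 n M) + Y.F l a : ℕ) : ℤ) ≤ Y.R a ∧
    ((∑ i, φ i : ℕ) : ℤ) ≤ Y.R a := by
  have hM := H.hM
  have hT := H.hT
  set L := ell (n + 1) M with hL
  set L' := ell n M with hL'
  have hL'1 : 1 ≤ L' := ell_pos _ hM
  have hg : g0 n M = M * L' := rfl
  set c := Fintype.card Λ with hc
  have hTT : TT n M c = 16 * M * (c * (2 * M + 3)) + 16 * M * L' ^ 2 + 16 * M * (M * L' ^ 2) +
      8 * L + 8 := by
    unfold TT
    rw [← hL, ← hL']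
    ring
  rw [hTT] at hT
  have hK : KK Λ M = c * (2 * M + 3) := rfl
  rw [hK] at hs
  have hsT : 16 * M * s ≤ T := by
    have : 16 * M * s ≤ 16 * M * (c * (2 * M + 3)) := Nat.mul_le_mul_left _ hs
    omega
  have hR1 := (H.full a hreg).1
  -- every `φ i` is small
  have hφF : ∀ i, φ i ≠ 0 → 2 * M * φ i + 2 * M * (M * L' ^ 2) ≤ 2 * M * Y.F i a := by
    intro i hi
    rcases hφ i with h | ⟨h1, b, h2, h3, h4, h5⟩
    · exact absurd h hi
    · have h6 := H.drop a b i hreg h1 h2 h3
      have h7 : Reg N Ta b := fun j => ⟨(hreg j).1.trans (h2 j), h3 j⟩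
      have h8 := H.floor b i h7 (h1.trans (h2 i))
      unfold BdN at h5
      rw [← hL'] at h5
      set X := Y.F i b with hX
      have h9 : 16 * M * X ≤ 16 * M * Y.F i a + X := by
        have h10 : T * (16 * M * X) ≤ T * (16 * M * Y.F i a + X) := by
          calc T * (16 * M * X) = 16 * M * (T * X) := by ring
            _ ≤ 16 * M * (T * Y.F i a + (∑ j, (b j - a j)) * X) := Nat.mul_le_mul_left _ h6
            _ = T * (16 * M * Y.F i a) + 16 * M * (∑ j, (b j - a j)) * X := by ring
            _ ≤ T * (16 * M * Y.F i a) + T * X := by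
              apply Nat.add_le_add_left
              apply Nat.mul_le_mul_right
              exact (Nat.mul_le_mul_left _ h4).trans hsT
            _ = T * (16 * M * Y.F i a + X) := by ring
        exact Nat.le_of_mul_le_mul_left h10 (by omega)
      have h11 : 16 * M * L' ^ 2 = 8 * (2 * M * L' ^ 2) := by ring
      have h12 : 16 * M * (M * L' ^ 2) = 8 * (2 * M * (M * L' ^ 2)) := by ring
      have h13 : 16 * M * X = 8 * (2 * M * X) := by ring
      have h14 : 16 * M * Y.F i a = 8 * (2 * M * Y.F i a) := by ring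
      omega
  have hφle : ∀ i, φ i ≤ Y.F i a := by
    intro i
    by_cases hi : φ i = 0
    · omega
    · have h1 := hφF i hi
      have h2 : 2 * M * φ i ≤ 2 * M * Y.F i a := by omega
      exact Nat.le_of_mul_le_mul_left h2 (by omega)
  have hTφ : ∀ i, (T : ℤ) * φ i ≤ Y.R a := by
    intro i
    rcases hφ i with h | ⟨h1, _⟩
    · rw [h]
      push_cast
      linarith only [hR1]
    · have h2 := H.rlow a i hreg h1
      have h3 : (φ i : ℤ) ≤ Y.F i a := by exact_mod_cast hφle i
      exact (mul_le_mul_of_nonneg_left h3 (by positivity)).trans h2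
  have hSum : (T : ℤ) * ((∑ i, φ i : ℕ) : ℤ) ≤ c * Y.R a := by
    rw [Nat.cast_sum, mul_sum]
    calc ∑ i, (T : ℤ) * (φ i : ℤ) ≤ ∑ _i : Λ, Y.R a := sum_le_sum fun i _ => hTφ i
      _ = c * Y.R a := by rw [sum_const, card_univ, nsmul_eq_mul]
  have hTF := H.rlow a l hreg hl
  have hfl := H.floor a l hreg hl
  have hTpos' : (0 : ℤ) < T := by
    have : 0 < T := by omega
    exact_mod_cast this
  have hcM : c * M ≤ T := by
    have h1 : c * M ≤ 16 * M * (c * (2 * M + 3)) := by
      calc c * M = 1 * M * (c * 1) := by ring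
        _ ≤ 16 * M * (c * (2 * M + 3)) :=
          Nat.mul_le_mul (Nat.mul_le_mul_right _ (by omega)) (Nat.mul_le_mul_left _ (by omega))
    omega
  refine ⟨?_, ?_, ?_⟩
  · rw [hg]
    by_cases hi : φ l = 0
    · rw [hi]
      have h1 : M * L' * L' ≤ 16 * M * (M * L' ^ 2) := by
        calc M * L' * L' = 1 * 1 * (M * L' ^ 2) := by ring
          _ ≤ 16 * M * (M * L' ^ 2) := by
            apply Nat.mul_le_mul_right
            omega
      omega
    · have h1 := hφF l hi
      have h2 : 2 * M * (φ l + M * L' * L') ≤ 2 * M * Y.F l a := by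
        have h3 : 2 * M * (φ l + M * L' * L') = 2 * M * φ l + 2 * M * (M * L' ^ 2) := by ring
        omega
      exact Nat.le_of_mul_le_mul_left h2 (by omega)
  · rw [hg]
    have hF2 : Y.F l a + M * L' ≤ 2 * Y.F l a := by
      have h1 : M * L' ≤ 16 * M * (M * L' ^ 2) := by
        calc M * L' = 1 * (1 * (M * L' ^ 1)) := by ring
          _ ≤ 16 * (M * (M * L' ^ 2)) := by
            refine Nat.mul_le_mul (by omega) (Nat.mul_le_mul hM (Nat.mul_le_mul_left _ ?_))
            exact Nat.pow_le_pow_right hL'1 (by omega)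
          _ = 16 * M * (M * L' ^ 2) := by ring
      omega
    have h1 : M * ∑ i, φ i + L * (Y.F l a + M * L') + Y.F l a ≤
        M * ∑ i, φ i + (2 * L + 1) * Y.F l a := by
      have h2 : L * (Y.F l a + M * L') ≤ L * (2 * Y.F l a) := Nat.mul_le_mul_left _ hF2
      have h3 : (2 * L + 1) * Y.F l a = L * (2 * Y.F l a) + Y.F l a := by ring
      omega
    refine le_trans (Int.ofNat_le.2 h1) ?_
    have h4 : (T : ℤ) * ((M * ∑ i, φ i + (2 * L + 1) * Y.F l a : ℕ) : ℤ) ≤ T * Y.R a := by
      have h5 : (T : ℤ) * ((M * ∑ i, φ i + (2 * L + 1) * Y.F l a : ℕ) : ℤ) =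
          M * (T * ((∑ i, φ i : ℕ) : ℤ)) + (2 * L + 1) * (T * Y.F l a) := by
        push_cast
        ring
      have h6 : (M : ℤ) * (T * ((∑ i, φ i : ℕ) : ℤ)) ≤ M * (c * Y.R a) :=
        mul_le_mul_of_nonneg_left hSum (by positivity)
      have h7 : (2 * (L : ℤ) + 1) * (T * Y.F l a) ≤ (2 * L + 1) * Y.R a :=
        mul_le_mul_of_nonneg_left hTF (by positivity)
      have hM1 : c * M ≤ 16 * M * (c * (2 * M + 3)) := by
        calc c * M = 1 * M * (c * 1) := by ring
          _ ≤ 16 * M * (c * (2 * M + 3)) :=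
            Nat.mul_le_mul (Nat.mul_le_mul_right _ (by omega)) (Nat.mul_le_mul_left _ (by omega))
      have h8 : ((c * M + (2 * L + 1) : ℕ) : ℤ) * Y.R a ≤ T * Y.R a :=
        mul_le_mul_of_nonneg_right (by exact_mod_cast (show c * M + (2 * L + 1) ≤ T by omega))
          (by omega)
      have h9 : ((c * M + (2 * L + 1) : ℕ) : ℤ) * Y.R a =
          M * (c * Y.R a) + (2 * L + 1) * Y.R a := by
        push_cast
        ring
      rw [h5]
      linarith only [h6, h7, h8, h9]
    exact le_of_mul_le_mul_left h4 hTpos'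
  · have h8 : ((c : ℕ) : ℤ) * Y.R a ≤ T * Y.R a := by
      refine mul_le_mul_of_nonneg_right ?_ (by omega)
      have h1 : c ≤ c * M := Nat.le_mul_of_pos_right _ (by omega)
      exact_mod_cast (h1.trans hcM)
    have h10 : (T : ℤ) * ((∑ i, φ i : ℕ) : ℤ) ≤ T * Y.R a := by linarith only [hSum, h8]
    exact le_of_mul_le_mul_left h10 hTpos'

omit [DecidableEq Λ] in
private theorem sum_sub_dn [DecidableEq Λ] {a b : Λ → ℕ} (h : ∀ i, a i ≤ b i) (l : Λ)
    (hl : 1 ≤ a l) :
    ∑ i, (b i - dn l a i) = ∑ i, (b i - a i) + 1 := by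
  rw [← add_sum_erase univ _ (mem_univ l), ← add_sum_erase univ (fun i => b i - a i)
    (mem_univ l), dn_self]
  have h4 : ∑ i ∈ univ.erase l, (b i - dn l a i) = ∑ i ∈ univ.erase l, (b i - a i) :=
    sum_congr rfl fun i hi => by rw [dn_ne (ne_of_mem_erase hi)]
  rw [h4]
  have := h l
  omega

/-- The bounds after a peel. -/
theorem Act.dn {Y : SysN Λ n} {M Ta : ℕ} {N a φ : Λ → ℕ} {s : ℕ} (hM : 1 ≤ M)
    (hreg : Reg N Ta a) (h : ∀ l, Act Y M Ta N a φ s l) (l : Λ) (hl : Ta + 1 ≤ a l) (k : Λ) :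
    Act Y M Ta N (dn l a) (Function.update φ l (nphi n M (Y.F l a))) (s + 1) k := by
  by_cases hkl : k = l
  · subst hkl
    right
    rw [Function.update_self, dn_self]
    refine ⟨by omega, a, dn_le k a, hreg.le, ?_, BdN_nphi hM _⟩
    rw [sum_sub_dn (fun _ => le_rfl) k (by omega)]
    simp
  · unfold Act
    rw [Function.update_of_ne hkl, dn_ne hkl]
    rcases h k with h | ⟨h1, b, h2, h3, h4, h5⟩
    · exact Or.inl h
    · right
      refine ⟨h1, b, fun i => (dn_le l a i).trans (h2 i), h3, ?_, h5⟩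
      rw [sum_sub_dn h2 l (by omega)]
      omega

/-- Lists of bounded length, staying in the region, are good. -/
theorem NumR.list_good {Y : SysN Λ n} {M T Ta : ℕ} {N : Λ → ℕ} (H : NumR Y M T Ta N)
    (L : List Λ) : ∀ (a φ : Λ → ℕ) (s : ℕ), Reg N Ta a →
      (∀ l ∈ L, Ta + L.count l ≤ a l) → (∀ l, Act Y M Ta N a φ s l) →
      s + L.length ≤ KK Λ M → GoodN Y M L a φ := by
  induction L with
  | nil =>
    intro a φ s _ _ _ _
    trivial
  | cons l L ih =>
    intro a φ s hreg hcount hφ hs
    have hl := hcount l List.mem_cons_self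
    rw [List.count_cons_self] at hl
    rw [List.length_cons] at hs
    have hkey := H.key hreg (by omega) hφ l (by omega)
    refine ⟨by omega, H.gd a l hreg (by omega), hkey.1, hkey.2.1, ?_⟩
    apply ih (dn l a) _ (s + 1) (hreg.dn l (by omega))
    · intro k hk
      by_cases hkl : k = l
      · subst hkl
        rw [dn_self]
        omega
      · rw [dn_ne hkl]
        have := hcount k (List.mem_cons_of_mem _ hk)
        rw [List.count_cons_of_ne (fun h => hkl h.symm)] at this
        exact this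
    · exact Act.dn H.hM hreg hφ l (by omega)
    · omega

/-- The invariant of the path; `b l` is the state at which the direction `l` was used for the last
time. -/
structure InvN (Y : SysN Λ n) (M T' : ℕ) (N a φ : Λ → ℕ) (b : Λ → Λ → ℕ) : Prop where
  reg : Reg N T' a
  act : ∀ l, φ l = 0 ∨ (T' ≤ a l ∧ (∀ k, a k ≤ b l k) ∧ (∀ k, b l k ≤ N k) ∧
    BdN n M (φ l) (Y.F l (b l)) ∧ (∀ k, b l k ≤ a l + (M + 1)) ∧
    ∀ k, b l k ≤ a k ∨ a l ≤ a k + 1)

theorem InvN.bd {Y : SysN Λ n} {M Ta T' : ℕ} {N a φ : Λ → ℕ} {b : Λ → Λ → ℕ}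
    (h : InvN Y M T' N a φ b) (hT' : Ta ≤ T') (l : Λ) :
    Act Y M Ta N a φ (Fintype.card Λ * (M + 2)) l := by
  rcases h.act l with h1 | ⟨h1, h2, h3, h4, h5, h6⟩
  · exact Or.inl h1
  · right
    refine ⟨hT'.trans h1, b l, h2, h3, ?_, h4⟩
    calc ∑ k, (b l k - a k) ≤ ∑ _k : Λ, (M + 2) := by
          refine sum_le_sum fun k _ => ?_
          have h8 := h5 k
          rcases h6 k with h9 | h9 <;> omega
      _ = Fintype.card Λ * (M + 2) := by rw [sum_const, card_univ, smul_eq_mul]

theorem NumR.path {Y : SysN Λ n} {M T Ta T' : ℕ} {N : Λ → ℕ} (H : NumR Y M T Ta N)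
    (hT' : Ta ≤ T') (q : ℕ) : ∀ (a φ : Λ → ℕ) (b : Λ → Λ → ℕ), ∑ i, a i = q →
      InvN Y M T' N a φ b →
      ∃ L : List Λ, (∀ l ∈ L, T' < N l) ∧ GoodN Y M L a φ ∧
        (∃ b', InvN Y M T' N (ew L a) (ephN Y M L a φ) b') ∧ ∀ i, ew L a i ≤ T' := by
  induction q with
  | zero =>
    intro a φ b hn h
    refine ⟨[], fun l hl => absurd hl List.not_mem_nil, trivial, ⟨b, ?_⟩, fun i => ?_⟩
    · rw [ew_nil']
      exact h
    · rw [ew_nil', sum_eq_zero_iff.1 hn i (mem_univ i)]
      exact Nat.zero_le _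
  | succ q ih =>
    intro a φ b hn h
    by_cases hend : ∀ i, a i ≤ T'
    · refine ⟨[], fun l hl => absurd hl List.not_mem_nil, trivial, ⟨b, ?_⟩, ?_⟩
      · rw [ew_nil']
        exact h
      · rw [ew_nil']
        exact hend
    · push Not at hend
      obtain ⟨i₀, hi₀⟩ := hend
      obtain ⟨l, -, hl⟩ := exists_max_image univ a ⟨i₀, mem_univ _⟩
      have hlT : T' < a l := lt_of_lt_of_le hi₀ (hl i₀ (mem_univ _))
      have hregTa : Reg N Ta a := h.reg.mono hT'
      have hkey := H.key hregTa (s := Fintype.card Λ * (M + 2))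
        (Nat.mul_le_mul_left _ (by omega)) (h.bd hT') l (by omega)
      have hsum : ∑ i, dn l a i = q := by
        have h3 : ∑ i, a i = ∑ i, dn l a i + 1 := by
          rw [← add_sum_erase univ _ (mem_univ l), ← add_sum_erase univ (dn l a)
            (mem_univ l), dn_self]
          have h4 : ∑ i ∈ univ.erase l, dn l a i = ∑ i ∈ univ.erase l, a i :=
            sum_congr rfl fun i hi => by rw [dn_ne (ne_of_mem_erase hi)]
          rw [h4]
          omega
        omega
      have hInv : InvN Y M T' N (dn l a) (Function.update φ l (nphi n M (Y.F l a)))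
          (Function.update b l a) := by
        refine ⟨h.reg.dn l hlT, fun j => ?_⟩
        by_cases hj : j = l
        · subst hj
          right
          rw [Function.update_self, Function.update_self, dn_self]
          refine ⟨by omega, dn_le j a, h.reg.le, BdN_nphi H.hM _, fun k => ?_, fun k => ?_⟩
          · have := hl k (mem_univ k)
            omega
          · by_cases hk : k = j
            · subst hk
              right
              rw [dn_self]
              omega
            · left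
              rw [dn_ne hk]
        · rw [Function.update_of_ne hj, Function.update_of_ne hj, dn_ne hj]
          rcases h.act j with h1 | ⟨h1, h2, h3, h4, h5, h6⟩
          · exact Or.inl h1
          · right
            refine ⟨h1, fun k => (dn_le l a k).trans (h2 k), h3, h4, h5, fun k => ?_⟩
            by_cases hk : k = l
            · subst hk
              right
              rw [dn_self]
              have := hl j (mem_univ j)
              omega
            · rw [dn_ne hk]
              exact h6 k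
      obtain ⟨L, hL1, hL2, hL3, hL4⟩ := ih _ _ _ hsum hInv
      refine ⟨l :: L, ?_, ⟨by omega, H.gd a l hregTa (by omega), hkey.1, hkey.2.1, hL2⟩, ?_, ?_⟩
      · intro k hk
        rcases List.mem_cons.1 hk with rfl | hk
        · exact lt_of_lt_of_le hlT (h.reg k).2
        · exact hL1 k hk
      · rw [ew_cons']
        exact hL3
      · rw [ew_cons']
        exact hL4

/-- The plan. -/
theorem NumR.plan {Y : SysN Λ n} {M T Ta C : ℕ} {N : Λ → ℕ} (H : NumR Y M T Ta N) (ls : Λ)
    (hmax : ∀ i, N i ≤ N ls) (hls : Ta + 2 * M + 2 ≤ N ls) (hF : C ≤ Y.F ls N)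
    (hend : ∀ a, Reg N Ta a → (∀ i, a i ≤ Ta + M + 1) → (C : ℤ) * Y.R a ≤ Y.F ls N) :
    PlanN Y M C N ls (dirsS N (Ta + M + 1)) := by
  have hM := H.hM
  have hT := H.hT
  set L' := ell n M with hL'
  have hL'1 : 1 ≤ L' := ell_pos _ hM
  set c := Fintype.card Λ with hc
  have hc1 : 1 ≤ c := Fintype.card_pos_iff.2 ⟨ls⟩
  have hTT : TT n M c = 16 * M * (c * (2 * M + 3)) + 16 * M * L' ^ 2 + 16 * M * (M * L' ^ 2) +
      8 * ell (n + 1) M + 8 := by
    unfold TT
    rw [← hL']
    ring
  rw [hTT] at hT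
  have hTM : 16 * M * (2 * M + 3) ≤ T := by
    have h1 : 16 * M * (1 * (2 * M + 3)) ≤ 16 * M * (c * (2 * M + 3)) :=
      Nat.mul_le_mul_left _ (Nat.mul_le_mul_right _ hc1)
    rw [one_mul] at h1
    omega
  have hTpos : 0 < T := by omega
  have hregN : Reg N Ta N := fun i => ⟨min_le_left _ _, le_rfl⟩
  have hstt : ∀ j, j ≤ M + 1 → Reg N (Ta + M + 1) (stt N ls j) := by
    intro j hj i
    unfold stt
    by_cases hi : i = ls
    · subst hi
      rw [Function.update_self]
      have : min (N i) (Ta + M + 1) ≤ Ta + M + 1 := min_le_right _ _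
      omega
    · rw [Function.update_of_ne hi]
      exact ⟨min_le_left _ _, le_rfl⟩
  have hsttl : ∀ j, stt N ls j ls = N ls - j := by
    intro j
    unfold stt
    rw [Function.update_self]
  have hdrop2 : ∀ i j, i ≤ j → j ≤ M + 1 →
      T * Y.F ls (stt N ls i) ≤ T * Y.F ls (stt N ls j) + (j - i) * Y.F ls (stt N ls i) := by
    intro i j hij hj
    have h1 := H.drop (stt N ls j) (stt N ls i) ls ((hstt j hj).mono (by omega))
      (by rw [hsttl]; omega) (fun k => by
        by_cases hk : k = ls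
        · subst hk
          rw [hsttl, hsttl]
          omega
        · unfold stt
          rw [Function.update_of_ne hk, Function.update_of_ne hk])
      (fun k => (hstt i (by omega) k).2)
    have h2 : ∑ k, (stt N ls i k - stt N ls j k) = j - i := by
      rw [sum_eq_single ls]
      · rw [hsttl, hsttl]
        omega
      · intro k _ hk
        unfold stt
        rw [Function.update_of_ne hk, Function.update_of_ne hk, Nat.sub_self]
      · intro h
        exact absurd (mem_univ _) h
    rw [h2] at h1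
    exact h1
  have hfloor : ∀ j, j ≤ M + 1 → T ≤ Y.F ls (stt N ls j) := fun j hj =>
    H.floor _ ls ((hstt j hj).mono (by omega)) (by rw [hsttl]; omega)
  have hstt0 : stt N ls 0 = N := by
    unfold stt
    rw [Nat.sub_zero, Function.update_eq_self]
  refine ⟨?_, hF, ?_, ?_, ?_, ?_, ?_⟩
  · rw [mem_dirsS]
    omega
  · -- `F ≤ R`
    have h1 := H.floor N ls hregN (by omega)
    have h2 := Y.count N ls (by omega) (by omega)
    have h3 := (H.full _ (hregN.dn ls (by omega))).1
    omega
  · -- the first peels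
    apply H.list_good _ N _ 0 hregN
    · intro l hl
      rw [List.eq_of_mem_replicate hl, List.count_replicate_self]
      omega
    · intro l
      exact Or.inl rfl
    · rw [List.length_replicate, zero_add]
      unfold KK
      calc M + 1 = 1 * (M + 1) := by ring
        _ ≤ Fintype.card Λ * (2 * M + 3) := Nat.mul_le_mul hc1 (by omega)
  · -- hr1
    intro j hj1 hj2
    obtain ⟨i, rfl⟩ : ∃ i, j = i + 1 := ⟨j - 1, by omega⟩
    have heph : ephN Y M (List.replicate (i + 1) ls) N (fun _ => 0) ls =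
        nphi n M (Y.F ls (stt N ls i)) := by
      rw [List.replicate_add, ephN_append, ew_replicate]
      change (Function.update _ ls (nphi n M _) : Λ → ℕ) ls = _
      rw [Function.update_self]
      rfl
    rw [heph]
    have h2 := hdrop2 i (i + 1) (by omega) hj2
    have h3 := hfloor i (by omega)
    unfold nphi
    set f := Y.F ls (stt N ls i) with hf
    set f' := Y.F ls (stt N ls (i + 1)) with hf'
    rw [Nat.add_sub_cancel_left, one_mul] at h2
    -- `16 M f ≤ 16 M f' + f`
    have h5 : 16 * M * f ≤ 16 * M * f' + f := by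
      have h6 : T * (16 * M * f) ≤ T * (16 * M * f' + f) := by
        calc T * (16 * M * f) = 16 * M * (T * f) := by ring
          _ ≤ 16 * M * (T * f' + f) := Nat.mul_le_mul_left _ h2
          _ = T * (16 * M * f') + 16 * M * f := by ring
          _ ≤ T * (16 * M * f') + T * f := by
            apply Nat.add_le_add_left
            apply Nat.mul_le_mul_right
            have h7 : 16 * M * 1 ≤ 16 * M * (2 * M + 3) := Nat.mul_le_mul_left _ (by omega)
            omega
          _ = T * (16 * M * f' + f) := by ring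
      exact Nat.le_of_mul_le_mul_left h6 hTpos
    have h4 : M * ((M - 1) * f / M) ≤ (M - 1) * f := Nat.mul_div_le _ _
    have h6 : 4 * M * ((M - 1) * f / M + L' ^ 2) =
        4 * (M * ((M - 1) * f / M)) + 4 * M * L' ^ 2 := by ring
    have h7 : 16 * M * L' ^ 2 = 4 * (4 * M * L' ^ 2) := by ring
    rw [h6]
    obtain ⟨k, rfl⟩ : ∃ k, M = k + 1 := ⟨M - 1, by omega⟩
    have h8 : 4 * (k + 1) - 3 = 4 * k + 1 := by omega
    rw [h8]
    rw [Nat.add_sub_cancel] at h4 ⊢
    have h11 : (4 * k + 1) * f' = 4 * (k * f') + f' := by ring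
    rcases le_total f f' with hle | hle
    · have h12 : k * f ≤ k * f' := Nat.mul_le_mul_left _ hle
      omega
    · obtain ⟨δ, hδ⟩ := Nat.exists_eq_add_of_le hle
      have h13 : 16 * (k + 1) * f = 16 * (k + 1) * f' + 16 * (k + 1) * δ := by
        rw [hδ]
        ring
      have h14 : (4 * k + 1) * f = (4 * k + 1) * f' + (4 * k + 1) * δ := by
        rw [hδ]
        ring
      have h15 : 4 * ((4 * k + 1) * δ) ≤ 16 * (k + 1) * δ := by
        calc 4 * ((4 * k + 1) * δ) = (4 * (4 * k + 1)) * δ := by ring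
          _ ≤ 16 * (k + 1) * δ := Nat.mul_le_mul_right _ (by omega)
      have h16 : (4 * k + 1) * f = 4 * (k * f) + f := by ring
      omega
  · -- hr2
    intro j hj
    have h1 := hdrop2 0 j (by omega) hj
    rw [hstt0, Nat.sub_zero] at h1
    have h5 : 8 * M * Y.F ls N ≤ 8 * M * Y.F ls (stt N ls j) + Y.F ls N := by
      have h6 : T * (8 * M * Y.F ls N) ≤ T * (8 * M * Y.F ls (stt N ls j) + Y.F ls N) := by
        calc T * (8 * M * Y.F ls N) = 8 * M * (T * Y.F ls N) := by ring
          _ ≤ 8 * M * (T * Y.F ls (stt N ls j) + j * Y.F ls N) := Nat.mul_le_mul_left _ h1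
          _ = T * (8 * M * Y.F ls (stt N ls j)) + 8 * M * j * Y.F ls N := by ring
          _ ≤ T * (8 * M * Y.F ls (stt N ls j)) + T * Y.F ls N := by
            apply Nat.add_le_add_left
            apply Nat.mul_le_mul_right
            have h7 : 8 * M * j ≤ 8 * M * (2 * (2 * M + 3)) := Nat.mul_le_mul_left _ (by omega)
            have h8 : 8 * M * (2 * (2 * M + 3)) = 16 * M * (2 * M + 3) := by ring
            omega
          _ = T * (8 * M * Y.F ls (stt N ls j) + Y.F ls N) := by ring
      exact Nat.le_of_mul_le_mul_left h6 hTpos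
    obtain ⟨k, hk⟩ : ∃ k, 8 * M - 1 = k ∧ k + 1 = 8 * M := ⟨8 * M - 1, rfl, by omega⟩
    rw [hk.1]
    have h6 : 8 * M * Y.F ls N = k * Y.F ls N + Y.F ls N := by
      rw [← hk.2]
      ring
    omega
  · -- the schedule
    intro j hj φ hφ0 hφ
    have hregj := hstt j (by omega)
    have hInv : InvN Y M (Ta + M + 1) N (stt N ls j) φ (fun _ => stt N ls j) := by
      refine ⟨hregj, fun l => ?_⟩
      by_cases hl : l = ls
      · subst hl
        right
        have h1 := hsttl j
        refine ⟨by rw [h1]; omega, fun _ => le_rfl, fun k => (hregj k).2, ?_, fun k => ?_,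
          fun k => Or.inl le_rfl⟩
        · unfold BdN
          obtain ⟨k, hk1, hk2⟩ : ∃ k, 2 * M - 1 = k ∧ k + 1 = 2 * M := ⟨2 * M - 1, rfl, by omega⟩
          rw [hk1] at hφ
          have h2 : 2 * M * Y.F l (stt N l j) = k * Y.F l (stt N l j) + Y.F l (stt N l j) := by
            rw [← hk2]
            ring
          omega
        · rw [h1]
          have h3 := (hregj k).2
          have h4 := hmax k
          omega
      · exact Or.inl (hφ0 l hl)
    obtain ⟨L, hL1, hL2, ⟨b', hL3⟩, hL4⟩ := H.path (T' := Ta + M + 1) (by omega) _ _ _ _ rfl hInv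
    have hregE : Reg N Ta (ew L (stt N ls j)) := hL3.reg.mono (by omega)
    have hnd : (dirsS N (Ta + M + 1)).Nodup := nodup_toList _
    have hbd := hL3.bd (by omega : Ta ≤ Ta + M + 1)
    have hE : ∀ l, Ta + M + 1 < N l → Ta + M + 1 ≤ ew L (stt N ls j) l := by
      intro l hl
      have := (hL3.reg l).1
      rw [min_eq_right hl.le] at this
      exact this
    have hclen : (dirsS N (Ta + M + 1)).length ≤ Fintype.card Λ := by
      unfold dirsS
      rw [length_toList]
      exact card_le_univ _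
    refine ⟨L, fun l hl => mem_dirsS.2 (hL1 l hl), ?_, hend _ hregE hL4, ?_,
      H.full _ hregE, ?_⟩
    · rw [GoodN.append]
      refine ⟨hL2, H.list_good _ _ _ (Fintype.card Λ * (M + 2)) hregE ?_ hbd ?_⟩
      · intro l hl
        have h1 := mem_clean hl
        rw [count_clean M _ hnd, if_pos h1]
        have h2 := hE l (mem_dirsS.1 h1)
        omega
      · rw [length_clean]
        unfold KK
        calc Fintype.card Λ * (M + 2) + (dirsS N (Ta + M + 1)).length * (M + 1)
            ≤ Fintype.card Λ * (M + 2) + Fintype.card Λ * (M + 1) := by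
              apply Nat.add_le_add_left
              exact Nat.mul_le_mul_right _ hclen
          _ = Fintype.card Λ * (2 * M + 3) := by ring
    · have h1 := hE ls (by omega)
      have h2 := (H.key hregE (Nat.mul_le_mul_left _ (by omega)) hbd ls (by omega)).2.2
      have h3 := (H.full _ hregE).1
      refine h2.trans ?_
      have h4 : (0 : ℤ) ≤ n := by positivity
      nlinarith only [h2]
    · apply H.full
      intro l
      rw [ew_append']
      have h1 : ew (clean M (dirsS N (Ta + M + 1))) (ew L (stt N ls j)) l =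
          ew L (stt N ls j) l - (clean M (dirsS N (Ta + M + 1))).count l := rfl
      rw [h1, count_clean M _ hnd]
      have h2 := hregE l
      split_ifs with h3
      · have h4 := hE l (mem_dirsS.1 h3)
        have h5 : min (N l) Ta ≤ Ta := min_le_right _ _
        omega
      · exact h2

/-- Exactness for states with the numerical properties. -/
theorem NumR.exact {Y : SysN Λ n} {M T Ta : ℕ} {N : Λ → ℕ} (H : NumR Y M T Ta N) (ls : Λ)
    (hmax : ∀ i, N i ≤ N ls) (hls : Ta + 2 * M + 2 ≤ N ls) (hF : cC n M ≤ Y.F ls N)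
    (hend : ∀ a, Reg N Ta a → (∀ i, a i ≤ Ta + M + 1) → (cC n M : ℤ) * Y.R a ≤ Y.F ls N)
    (G : Multiset ℕ) (hG : ∀ m ∈ G, m ≤ M)
    (hsum : Y.R N ≤ ((G.map (ell (n + 1))).sum : ℕ)) : Y.K N (G.map Kind.free) :=
  mainN Y M H.hn H.hM N ls _ (H.plan ls hmax hls hF hend) G hG hsum

end Pool.Agent.H18.Pr
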