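import Pool.Agent.H18.Pr.Strict
import Pool.Agent.H18.Cub.WC

/-!
# Module Space (PR): traces and residuals of the spaces `WW`

Compare with `Pool.Agent.H18.Cub.WC` (the case of two variables).
-/

namespace Pool.Agent.H18.Pr

open Finset Pool.Agent.H18.Ex Pool.Agent.H18.Cub

variable {R : ℕ}

/-- The inverse of `Th` on the variables. -/
noncomputable def spaceInv (e : ℕ) (v u : Fin (R + 1)) (p : ℂ) :
    ℕ → MvPolynomial (Fin (R + 1)) ℂ
  | 0 => if v.val = 0 then MvPolynomial.X (Fin.ofNat (R + 1) 0) + MvPolynomial.C p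
      else MvPolynomial.X (Fin.ofNat (R + 1) 0)
  | k + 1 => if v.val = k + 1 then MvPolynomial.X (Fin.ofNat (R + 1) (k + 1)) + MvPolynomial.C p
      else if v.val < k + 1 ∧ k + 1 ≤ u.val then
        MvPolynomial.X (Fin.ofNat (R + 1) (k + 1)) + spaceInv e v u p k ^ e
      else MvPolynomial.X (Fin.ofNat (R + 1) (k + 1))

theorem space_ofNat (i : Fin (R + 1)) : Fin.ofNat (R + 1) i.val = i := by
  apply Fin.ext
  simp [Fin.ofNat, Nat.mod_eq_of_lt i.isLt]

theorem spaceInv_eq (e : ℕ) (v u : Fin (R + 1)) (p : ℂ) (i : Fin (R + 1)) :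
    spaceInv e v u p i.val =
      if i = v then MvPolynomial.X i + MvPolynomial.C p
      else if v < i ∧ i ≤ u then MvPolynomial.X i + spaceInv e v u p (prv i).val ^ e
      else MvPolynomial.X i := by
  rcases i with ⟨k, hk⟩
  cases k with
  | zero =>
    have h0 : (Fin.ofNat (R + 1) 0 : Fin (R + 1)) = ⟨0, hk⟩ := space_ofNat ⟨0, hk⟩
    have h1 : ¬ (v < (⟨0, hk⟩ : Fin (R + 1))) := by
      intro h
      exact absurd (Fin.lt_def.1 h) (Nat.not_lt_zero _)
    by_cases hv : v.val = 0
    · have h2 : (⟨0, hk⟩ : Fin (R + 1)) = v := Fin.ext hv.symm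
      rw [if_pos h2]
      show (if v.val = 0 then _ else _) = _
      rw [if_pos hv, h0]
    · have h2 : ¬ (⟨0, hk⟩ : Fin (R + 1)) = v := fun h => hv (by rw [← h])
      rw [if_neg h2, if_neg (fun h => h1 h.1)]
      show (if v.val = 0 then _ else _) = _
      rw [if_neg hv, h0]
  | succ k =>
    have h0 : (Fin.ofNat (R + 1) (k + 1) : Fin (R + 1)) = ⟨k + 1, hk⟩ := space_ofNat ⟨k + 1, hk⟩
    have hp : (prv (⟨k + 1, hk⟩ : Fin (R + 1))).val = k := by simp [prv]
    rw [hp]
    by_cases hv : v.val = k + 1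
    · have h2 : (⟨k + 1, hk⟩ : Fin (R + 1)) = v := Fin.ext hv.symm
      rw [if_pos h2]
      show (if v.val = k + 1 then _ else _) = _
      rw [if_pos hv, h0]
    · have h2 : ¬ (⟨k + 1, hk⟩ : Fin (R + 1)) = v := fun h => hv (by rw [← h])
      rw [if_neg h2]
      show (if v.val = k + 1 then _ else _) = _
      rw [if_neg hv]
      by_cases hc : v.val < k + 1 ∧ k + 1 ≤ u.val
      · rw [if_pos hc, if_pos (show v < (⟨k + 1, hk⟩ : Fin (R + 1)) ∧
          (⟨k + 1, hk⟩ : Fin (R + 1)) ≤ u from ⟨Fin.lt_def.2 hc.1, Fin.le_def.2 hc.2⟩), h0]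
      · rw [if_neg hc, if_neg (show ¬ (v < (⟨k + 1, hk⟩ : Fin (R + 1)) ∧
          (⟨k + 1, hk⟩ : Fin (R + 1)) ≤ u) from
            fun h => hc ⟨Fin.lt_def.1 h.1, Fin.le_def.1 h.2⟩), h0]

theorem Th_X (e : ℕ) (v u : Fin (R + 1)) (p : ℂ) (i : Fin (R + 1)) :
    Th e v u p (MvPolynomial.X i) =
      if i = v then MvPolynomial.X i - MvPolynomial.C p
      else if v < i ∧ i ≤ u then MvPolynomial.X i - MvPolynomial.X (prv i) ^ e
      else MvPolynomial.X i := by
  rw [Th, MvPolynomial.aeval_X]

theorem Th_C (e : ℕ) (v u : Fin (R + 1)) (p : ℂ) (c : ℂ) :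
    Th e v u p (MvPolynomial.C c) = MvPolynomial.C c := (Th e v u p).commutes c

theorem Th_injective (e : ℕ) (v u : Fin (R + 1)) (p : ℂ) : Function.Injective (Th e v u p) := by
  have h : (MvPolynomial.aeval (fun i : Fin (R + 1) => spaceInv e v u p i.val)).comp
      (Th e v u p) = AlgHom.id ℂ (MvPolynomial (Fin (R + 1)) ℂ) := by
    refine MvPolynomial.algHom_ext (fun i => ?_)
    rw [AlgHom.comp_apply, Th_X, AlgHom.id_apply]
    by_cases h1 : i = v
    · rw [if_pos h1, map_sub, MvPolynomial.aeval_X, spaceInv_eq, if_pos h1,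
        MvPolynomial.aeval_C, MvPolynomial.algebraMap_eq]
      ring
    · rw [if_neg h1]
      by_cases h2 : v < i ∧ i ≤ u
      · rw [if_pos h2, map_sub, map_pow, MvPolynomial.aeval_X, MvPolynomial.aeval_X,
          spaceInv_eq, if_neg h1, if_pos h2]
        ring
      · rw [if_neg h2, MvPolynomial.aeval_X, spaceInv_eq, if_neg h1, if_neg h2]
  have h2 : Function.LeftInverse
      (MvPolynomial.aeval (fun i : Fin (R + 1) => spaceInv e v u p i.val)) (Th e v u p) :=
    fun F => congrArg (fun φ : MvPolynomial (Fin (R + 1)) ℂ →ₐ[ℂ] MvPolynomial (Fin (R + 1)) ℂ =>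
      φ F) h
  exact h2.injective

theorem WW_finite (e : ℕ) (he : 1 ≤ e) (v u : Fin (R + 1)) (p : ℂ) (d : ℕ) {B : Type}
    (x : B → ℂ) (m : B → ℕ) : FiniteDimensional ℂ (WW e v u p d x m) := by
  have hD : ∀ F ∈ WW e v u p d x m, (Th e v u p F).totalDegree ≤
      (R + 1) * (e ^ R * (d + 1)) := by
    intro F hF
    rw [MvPolynomial.totalDegree]
    refine Finset.sup_le fun α hα => ?_
    have h1 := hF.2.1 α hα
    rw [Finsupp.sum_fintype _ _ (fun _ => rfl)]
    calc ∑ i, α i ≤ ∑ _i : Fin (R + 1), e ^ R * (d + 1) := by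
          refine sum_le_sum fun i _ => ?_
          have h2 := le_cost e he u α i
          have h3 : e ^ R * (cost e u α + 1) ≤ e ^ R * (d + 1) :=
            Nat.mul_le_mul_left _ (by omega)
          omega
      _ = (R + 1) * (e ^ R * (d + 1)) := by
          rw [sum_const, card_univ, Fintype.card_fin, smul_eq_mul]
  let f : WW e v u p d x m →ₗ[ℂ]
      MvPolynomial.restrictTotalDegree (Fin (R + 1)) ℂ ((R + 1) * (e ^ R * (d + 1))) :=
    { toFun := fun P => ⟨Th e v u p P.1, (MvPolynomial.mem_restrictTotalDegree _ _ _).2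
        (hD P.1 P.2)⟩
      map_add' := fun P Q => by
        apply Subtype.ext
        exact map_add (Th e v u p) P.1 Q.1
      map_smul' := fun c P => by
        apply Subtype.ext
        exact map_smul (Th e v u p) c P.1 }
  refine Module.Finite.of_injective f ?_
  intro P Q h
  apply Subtype.ext
  exact Th_injective e v u p (congrArg Subtype.val h)

theorem space_degreeOf_zero (i : Fin (R + 1)) (F : MvPolynomial (Fin (R + 1)) ℂ) :
    F.degreeOf i = 0 ↔ i ∉ F.vars := by
  rw [← Nat.le_zero, MvPolynomial.degreeOf_le_iff, MvPolynomial.mem_vars_iff_mem_support]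
  constructor
  · rintro h ⟨d, hd, hi⟩
    exact (Finsupp.mem_support_iff.1 hi) (Nat.le_zero.1 (h d hd))
  · intro h d hd
    by_contra hc
    exact h ⟨d, hd, Finsupp.mem_support_iff.2 fun h0 => hc (by rw [h0])⟩

/-- A polynomial of degree zero in `x_i` keeps this after substituting a constant. -/
theorem space_degreeOf_sub1 (i j : Fin (R + 1)) (c : ℂ) (F : MvPolynomial (Fin (R + 1)) ℂ)
    (h : i ≠ j → F.degreeOf i = 0) : (sub1 j c F).degreeOf i = 0 := by
  rw [space_degreeOf_zero]
  intro hi
  have h1 : sub1 j c F = MvPolynomial.bind₁ (Function.update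
    (MvPolynomial.X : Fin (R + 1) → MvPolynomial (Fin (R + 1)) ℂ) j (MvPolynomial.C c)) F := rfl
  rw [h1] at hi
  have h2 := MvPolynomial.vars_bind₁ _ _ hi
  rw [mem_biUnion] at h2
  obtain ⟨k, hk, hik⟩ := h2
  by_cases hkj : k = j
  · subst hkj
    rw [Function.update_self, MvPolynomial.vars_C] at hik
    exact absurd hik (notMem_empty _)
  · rw [Function.update_of_ne hkj, MvPolynomial.vars_X, mem_singleton] at hik
    subst hik
    exact (space_degreeOf_zero i F).1 (h hkj) hk

/-- The residual has no new variables. -/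
theorem space_degreeOf_resid (i j : Fin (R + 1)) (c : ℂ) (F : MvPolynomial (Fin (R + 1)) ℂ)
    (h : ((MvPolynomial.X j - MvPolynomial.C c) * F).degreeOf i = 0) : F.degreeOf i = 0 := by
  by_cases hF : F = 0
  · rw [hF]
    exact MvPolynomial.degreeOf_zero i
  · have hL : (MvPolynomial.X j - MvPolynomial.C c : MvPolynomial (Fin (R + 1)) ℂ) ≠ 0 := by
      intro hL
      have hc : MvPolynomial.coeff (Finsupp.single j 1)
          (MvPolynomial.X j - MvPolynomial.C c : MvPolynomial (Fin (R + 1)) ℂ) = 1 := by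
        rw [MvPolynomial.coeff_sub, MvPolynomial.coeff_X, MvPolynomial.coeff_C]
        have hne : (0 : Fin (R + 1) →₀ ℕ) ≠ Finsupp.single j 1 := by
          intro hs
          have := congrArg (fun f => f j) hs
          simp at this
        rw [if_neg hne, sub_zero]
        simp
      rw [hL, MvPolynomial.coeff_zero] at hc
      norm_num at hc
    rw [MvPolynomial.degreeOf_mul_eq hL hF] at h
    omega

theorem space_sum_update (j : Fin (R + 1)) (β : Fin (R + 1) → ℕ) :
    ∑ i, Function.update β j (β j + 1) i = ∑ i, β i + 1 := by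
  rw [sum_update_of_mem (mem_univ j), ← add_sum_erase univ β (mem_univ j),
    sdiff_singleton_eq_erase]
  omega

/-- The points of the residual along a hyperplane through the point. -/
theorem space_tay_resid (j : Fin (R + 1)) (c : ℂ) (F : MvPolynomial (Fin (R + 1)) ℂ)
    (q : Fin (R + 1) → ℂ) (hq : q j = c) (m : ℕ)
    (h : ∀ β : Fin (R + 1) → ℕ, ∑ i, β i < m →
      tay ((MvPolynomial.X j - MvPolynomial.C c) * F) q β = 0) :
    ∀ β : Fin (R + 1) → ℕ, ∑ i, β i < m - 1 → tay F q β = 0 := by
  intro β hβ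
  have h3 := h (Function.update β j (β j + 1)) (by rw [space_sum_update]; omega)
  rw [tay_X_sub_mul, hq] at h3
  simpa using h3

/-- The points of the residual along a hyperplane not through the point. -/
theorem space_tay_resid_ne (j : Fin (R + 1)) (c : ℂ) (F : MvPolynomial (Fin (R + 1)) ℂ)
    (q : Fin (R + 1) → ℂ) (hq : q j ≠ c) (m : ℕ)
    (h : ∀ β : Fin (R + 1) → ℕ, ∑ i, β i < m →
      tay ((MvPolynomial.X j - MvPolynomial.C c) * F) q β = 0) :
    ∀ β : Fin (R + 1) → ℕ, ∑ i, β i < m → tay F q β = 0 := by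
  have h4 : q j - algebraMap ℂ ℂ c ≠ 0 := by
    rw [Algebra.algebraMap_self, RingHom.id_apply]
    exact sub_ne_zero.2 hq
  have key : ∀ k : ℕ, ∀ β : Fin (R + 1) → ℕ, β j = k → ∑ i, β i < m → tay F q β = 0 := by
    intro k
    induction k with
    | zero =>
      intro β hk hβ
      have h3 := h β hβ
      rw [tay_X_sub_mul, if_pos hk, add_zero] at h3
      exact (mul_eq_zero.1 h3).resolve_left h4
    | succ k ih =>
      intro β hk hβ
      have h3 := h β hβ
      have h5 : tay F q (Function.update β j (β j - 1)) = 0 := by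
        refine ih _ (by rw [Function.update_self]; omega) ?_
        refine lt_of_le_of_lt (sum_le_sum fun i _ => ?_) hβ
        by_cases hi : i = j
        · subst hi
          rw [Function.update_self]
          omega
        · rw [Function.update_of_ne hi]
      rw [tay_X_sub_mul, if_neg (by omega), h5, add_zero] at h3
      exact (mul_eq_zero.1 h3).resolve_left h4
  intro β hβ
  exact key _ β rfl hβ

theorem space_sub1_X (j : Fin (R + 1)) (c : ℂ) (i : Fin (R + 1)) :
    sub1 j c (MvPolynomial.X i) = if i = j then MvPolynomial.C c else MvPolynomial.X i := by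
  rw [sub1, MvPolynomial.aeval_X]
  by_cases h : i = j
  · subst h
    rw [Function.update_self, if_pos rfl]
  · rw [Function.update_of_ne h, if_neg h]

/-- Trace on `z_u = 0`.  With `σ : x_u ↦ x_{u'}^e` one has `Th e v u' p (sub1 u 0 F) =
σ (Th e v u p F)` (check on the variables); use `sub_S`.  For the points use `tay_sub1`. -/
theorem WW_traceS {Λ : Type} (g : Lines Λ (Fin (R + 1))) (l : Λ) (e : ℕ) (he : 1 ≤ e)
    (v u u' : Fin (R + 1)) (hu : u.val = u'.val + 1) (hv : v ≤ u') (hco : g.co l = u)
    (hva : g.va l = 0) (p : ℂ) (d : ℕ) {B : Type} (x : B → ℂ) (m : B → ℕ) :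
    trW g l (WW e v u p d x m) ≤ WW e v u' p d x m := by
  have hvu : v.val < u.val := by
    have := Fin.le_def.1 hv
    omega
  have hune : u ≠ v := fun h => by rw [h] at hvu; exact lt_irrefl _ hvu
  have hu'u : u' ≠ u := fun h => by rw [h] at hu; omega
  have hprv : prv u = u' := by
    apply Fin.ext
    simp [prv, hu]
  rintro G ⟨F, hF, rfl⟩
  rw [SetLike.mem_coe] at hF
  have hlay : (lay g l).toLinearMap F = sub1 u 0 F := by
    rw [AlgHom.toLinearMap_apply, lay, hco, hva]
  rw [hlay, mem_WW]
  obtain ⟨h1, h2, h3⟩ := mem_WW.1 hF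
  refine ⟨fun i hi => ?_, ?_, fun b β hβ => ?_⟩
  · refine space_degreeOf_sub1 i u 0 F fun hiu => h1 i ?_
    rcases hi with hi | hi
    · exact Or.inl hi
    · right
      rw [Fin.lt_def] at hi ⊢
      have : i.val ≠ u.val := fun h => hiu (Fin.ext h)
      omega
  · have h4 : Th e v u' p (sub1 u 0 F) = MvPolynomial.aeval (Function.update
        (MvPolynomial.X : Fin (R + 1) → MvPolynomial (Fin (R + 1)) ℂ) u
        (MvPolynomial.X u' ^ e)) (Th e v u p F) := by
      have h5 : (Th e v u' p).comp (sub1 u 0) = (MvPolynomial.aeval (Function.update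
          (MvPolynomial.X : Fin (R + 1) → MvPolynomial (Fin (R + 1)) ℂ) u
          (MvPolynomial.X u' ^ e))).comp (Th e v u p) := by
        refine MvPolynomial.algHom_ext (fun i => ?_)
        rw [AlgHom.comp_apply, AlgHom.comp_apply, space_sub1_X, Th_X]
        by_cases hiu : i = u
        · subst hiu
          rw [if_pos rfl, Th_C, if_neg hune, if_pos ⟨Fin.lt_def.2 hvu, le_rfl⟩, hprv, map_sub,
            map_pow, MvPolynomial.aeval_X, MvPolynomial.aeval_X, Function.update_self,
            Function.update_of_ne hu'u, sub_self, MvPolynomial.C_0]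
        · rw [if_neg hiu, Th_X]
          by_cases hiv : i = v
          · rw [if_pos hiv, if_pos hiv, map_sub, MvPolynomial.aeval_X, MvPolynomial.aeval_C,
              Function.update_of_ne hiu, MvPolynomial.algebraMap_eq]
          · rw [if_neg hiv, if_neg hiv]
            by_cases hc : v < i ∧ i ≤ u'
            · have hc2 : i ≤ u := hc.2.trans (Fin.le_def.2 (by omega))
              have hpi : prv i ≠ u := by
                intro h
                have h6 := congrArg Fin.val h
                simp only [prv] at h6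
                have h7 := Fin.le_def.1 hc.2
                omega
              rw [if_pos hc, if_pos ⟨hc.1, hc2⟩, map_sub, map_pow, MvPolynomial.aeval_X,
                MvPolynomial.aeval_X, Function.update_of_ne hiu, Function.update_of_ne hpi]
            · have hc2 : ¬ (v < i ∧ i ≤ u) := by
                rintro ⟨h6, h7⟩
                apply hc
                refine ⟨h6, ?_⟩
                rw [Fin.le_def] at h7 ⊢
                have : i.val ≠ u.val := fun h => hiu (Fin.ext h)
                omega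
              rw [if_neg hc, if_neg hc2, MvPolynomial.aeval_X, Function.update_of_ne hiu]
      exact congrArg (fun φ : MvPolynomial (Fin (R + 1)) ℂ →ₐ[ℂ] MvPolynomial (Fin (R + 1)) ℂ =>
        φ F) h5
    rw [h4]
    exact sub_S e he u u' hu _ d h2
  · rw [tay_sub1]
    have h6 : Function.update (ptv v (x b)) u (algebraMap ℂ ℂ 0) = ptv v (x b) := by
      rw [map_zero]
      apply Function.update_eq_self_iff.2
      rw [ptv, if_neg hune]
    rw [h6]
    split_ifs
    · exact h3 b β hβ
    · rfl

/-- Residual along `z_u = 0`.  `Th e v u p (X u * F') = (X u - X u' ^ e) * Th e v u p F'`; use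
`strict_S`.  For the points use `tay_X_sub_mul`, for the degrees `MvPolynomial.degreeOf_mul_eq`. -/
theorem WW_residS {Λ : Type} (g : Lines Λ (Fin (R + 1))) (l : Λ) (e : ℕ) (he : 2 ≤ e)
    (v u u' : Fin (R + 1)) (hu : u.val = u'.val + 1) (hv : v ≤ u') (hco : g.co l = u)
    (hva : g.va l = 0) (p : ℂ) (d : ℕ) {B : Type} (x : B → ℂ) (m : B → ℕ) :
    ResW g l (WW e v u p d x m) (WW e v u p (d - e) x fun b => m b - 1) := by
  have hvu : v.val < u.val := by
    have := Fin.le_def.1 hv
    omega
  have hune : u ≠ v := fun h => by rw [h] at hvu; exact lt_irrefl _ hvu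
  have hprv : prv u = u' := by
    apply Fin.ext
    simp [prv, hu]
  intro F hF h0
  rw [lay, hco, hva] at h0
  obtain ⟨F', hF'⟩ := wc_exists_residual u 0 F h0
  rw [hco, hva]
  obtain ⟨h1, h2, h3⟩ := mem_WW.1 hF
  refine ⟨F', mem_WW.2 ⟨fun i hi => ?_, fun α hα => ?_, fun b => ?_⟩, hF'⟩
  · refine space_degreeOf_resid i u 0 F' ?_
    rw [← hF']
    exact h1 i hi
  · have h4 : Th e v u p F =
        (MvPolynomial.X u - MvPolynomial.X u' ^ e) * Th e v u p F' := by
      rw [hF', map_mul, map_sub, Th_C, MvPolynomial.C_0, sub_zero, Th_X, if_neg hune,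
        if_pos ⟨Fin.lt_def.2 hvu, le_rfl⟩, hprv]
    have h5 := strict_S e he u u' hu (Th e v u p F') d (by
      intro α hα
      rw [← h4] at hα
      exact h2 α hα) α hα
    omega
  · refine space_tay_resid u 0 F' (ptv v (x b)) ?_ (m b) ?_
    · rw [ptv, if_neg hune]
    · rw [← hF']
      exact h3 b

/-- Trace on `z_v = c`.  With `σ : x_v ↦ c + p` one has `Th e v' u ((c + p) ^ e) (sub1 v c F) =
σ (Th e v u p F)`; use `sub_H`. -/
theorem WW_traceH {Λ : Type} (g : Lines Λ (Fin (R + 1))) (l : Λ) (e : ℕ)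
    (v v' u : Fin (R + 1)) (hv : v'.val = v.val + 1) (hu : v' ≤ u) (c : ℂ) (hco : g.co l = v)
    (hva : g.va l = c) (p : ℂ) (d : ℕ) {B : Type} (x : B → ℂ) (m : B → ℕ) (b₀ : B)
    (hb₀ : x b₀ = c) :
    trW g l (WW e v u p d x m) ≤
      WW e v' u ((c + p) ^ e) d (fun _ : Unit => (0 : ℂ)) fun _ => m b₀ := by
  have hvu : v.val < u.val := by
    have := Fin.le_def.1 hu
    omega
  have hvne : v ≠ u := fun h => by rw [h] at hvu; exact lt_irrefl _ hvu
  have hv'v : v' ≠ v := fun h => by rw [h] at hv; omega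
  have hprv : prv v' = v := by
    apply Fin.ext
    simp [prv, hv]
  rintro G ⟨F, hF, rfl⟩
  rw [SetLike.mem_coe] at hF
  have hlay : (lay g l).toLinearMap F = sub1 v c F := by
    rw [AlgHom.toLinearMap_apply, lay, hco, hva]
  rw [hlay, mem_WW]
  obtain ⟨h1, h2, h3⟩ := mem_WW.1 hF
  refine ⟨fun i hi => ?_, ?_, fun _ β hβ => ?_⟩
  · refine space_degreeOf_sub1 i v c F fun hiv => h1 i ?_
    rcases hi with hi | hi
    · left
      rw [Fin.lt_def] at hi ⊢
      have : i.val ≠ v.val := fun h => hiv (Fin.ext h)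
      omega
    · exact Or.inr hi
  · have h4 : Th e v' u ((c + p) ^ e) (sub1 v c F) = MvPolynomial.aeval (Function.update
        (MvPolynomial.X : Fin (R + 1) → MvPolynomial (Fin (R + 1)) ℂ) v
        (MvPolynomial.C (c + p))) (Th e v u p F) := by
      have h5 : (Th e v' u ((c + p) ^ e)).comp (sub1 v c) = (MvPolynomial.aeval (Function.update
          (MvPolynomial.X : Fin (R + 1) → MvPolynomial (Fin (R + 1)) ℂ) v
          (MvPolynomial.C (c + p)))).comp (Th e v u p) := by
        refine MvPolynomial.algHom_ext (fun i => ?_)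
        rw [AlgHom.comp_apply, AlgHom.comp_apply, space_sub1_X, Th_X]
        by_cases hiv : i = v
        · subst hiv
          rw [if_pos rfl, Th_C, if_pos rfl, map_sub, MvPolynomial.aeval_X,
            MvPolynomial.aeval_C, Function.update_self, MvPolynomial.algebraMap_eq,
            ← MvPolynomial.C_sub, add_sub_cancel_right]
        · rw [if_neg hiv, if_neg hiv, Th_X]
          by_cases hiv' : i = v'
          · subst hiv'
            rw [if_pos rfl, if_pos ⟨Fin.lt_def.2 (by omega), hu⟩, hprv, MvPolynomial.C_pow, map_sub,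
              map_pow, MvPolynomial.aeval_X, MvPolynomial.aeval_X, Function.update_self,
              Function.update_of_ne hiv]
          · rw [if_neg hiv']
            have hiv2 : i.val ≠ v.val := fun h => hiv (Fin.ext h)
            have hiv3 : i.val ≠ v'.val := fun h => hiv' (Fin.ext h)
            by_cases hc : v < i ∧ i ≤ u
            · have hc2 : v' < i := by
                have := Fin.lt_def.1 hc.1
                rw [Fin.lt_def]
                omega
              have hpi : prv i ≠ v := by
                intro h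
                have h6 := congrArg Fin.val h
                simp only [prv] at h6
                have h7 := Fin.lt_def.1 hc2
                omega
              rw [if_pos hc, if_pos ⟨hc2, hc.2⟩, map_sub, map_pow, MvPolynomial.aeval_X,
                MvPolynomial.aeval_X, Function.update_of_ne hiv, Function.update_of_ne hpi]
            · have hc2 : ¬ (v' < i ∧ i ≤ u) := by
                rintro ⟨h6, h7⟩
                apply hc
                refine ⟨?_, h7⟩
                rw [Fin.lt_def] at h6 ⊢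
                omega
              rw [if_neg hc, if_neg hc2, MvPolynomial.aeval_X, Function.update_of_ne hiv]
      exact congrArg (fun φ : MvPolynomial (Fin (R + 1)) ℂ →ₐ[ℂ] MvPolynomial (Fin (R + 1)) ℂ =>
        φ F) h5
    rw [h4]
    exact sub_H e u v hvne (c + p) _ d h2
  · rw [tay_sub1]
    have h6 : Function.update (ptv v' 0) v (algebraMap ℂ ℂ c) = ptv v (x b₀) := by
      ext i
      rw [Algebra.algebraMap_self, RingHom.id_apply]
      by_cases hi : i = v
      · subst hi
        rw [Function.update_self, ptv, if_pos rfl, hb₀]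
      · rw [Function.update_of_ne hi, ptv, ptv, if_neg hi, ite_self]
    rw [h6]
    split_ifs
    · exact h3 b₀ β hβ
    · rfl

/-- Residual along `z_v = c` (use `strict_H`). -/
theorem WW_residH {Λ : Type} (g : Lines Λ (Fin (R + 1))) (l : Λ) (e : ℕ)
    (v u : Fin (R + 1)) (hv : v < u) (c : ℂ) (hco : g.co l = v)
    (hva : g.va l = c) (p : ℂ) (d : ℕ) {B : Type} (x : B → ℂ) (m m' : B → ℕ)
    (hm1 : ∀ b, x b = c → m' b = m b - 1) (hm2 : ∀ b, x b ≠ c → m' b = m b) :
    ResW g l (WW e v u p d x m) (WW e v u p (d - 1) x m') := by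
  intro F hF h0
  rw [lay, hco, hva] at h0
  obtain ⟨F', hF'⟩ := wc_exists_residual v c F h0
  rw [hco, hva]
  obtain ⟨h1, h2, h3⟩ := mem_WW.1 hF
  refine ⟨F', mem_WW.2 ⟨fun i hi => ?_, fun α hα => ?_, fun b => ?_⟩, hF'⟩
  · refine space_degreeOf_resid i v c F' ?_
    rw [← hF']
    exact h1 i hi
  · have h4 : Th e v u p F =
        (MvPolynomial.X v - MvPolynomial.C (p + c)) * Th e v u p F' := by
      rw [hF', map_mul, map_sub, Th_C, Th_X, if_pos rfl, MvPolynomial.C_add]
      ring
    have h5 := strict_H e u v hv.ne (p + c) (Th e v u p F') d (by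
      intro α hα
      rw [← h4] at hα
      exact h2 α hα) α hα
    omega
  · have hpv : ptv v (x b) v = x b := by rw [ptv, if_pos rfl]
    by_cases hb : x b = c
    · rw [hm1 b hb]
      refine space_tay_resid v c F' (ptv v (x b)) (hpv.trans hb) (m b) ?_
      rw [← hF']
      exact h3 b
    · rw [hm2 b hb]
      refine space_tay_resid_ne v c F' (ptv v (x b)) (by rw [hpv]; exact hb) (m b) ?_
      rw [← hF']
      exact h3 b

/-- The constants. -/
theorem WW_base {Λ : Type} (g : Lines Λ (Fin (R + 1))) (e : ℕ) (he : 1 ≤ e)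
    (v u : Fin (R + 1)) (p : ℂ) {B : Type} (x : B → ℂ) (m : B → ℕ) :
    GMP g (WW e v u p 0 x m) {Kind.free 1} := by
  refine ⟨1, fun _ => Kind.free 1, by simp, fun _ => 0, ?_⟩
  rintro F hF h
  obtain ⟨-, h1, -⟩ := mem_WW.1 hF
  have h2 : tay F (0 : Fin (R + 1) → ℂ) 0 = 0 := h 0 0 (by simp [Lines.Idx])
  rw [tay_zero_right] at h2
  have h3 : Th e v u p F = MvPolynomial.C (MvPolynomial.coeff 0 (Th e v u p F)) := by
    ext α
    rw [MvPolynomial.coeff_C]
    split_ifs with hα
    · rw [← hα]
    · by_contra hc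
      have h5 := h1 α (MvPolynomial.mem_support_iff.2 hc)
      have h6 := cost_eq_zero e he u α (Nat.le_zero.1 h5)
      apply hα
      ext i
      have := congrFun h6 i
      simp [this]
  have h4 : F = MvPolynomial.C (MvPolynomial.coeff 0 (Th e v u p F)) := by
    apply Th_injective e v u p
    rw [Th_C]
    exact h3
  rw [h4, MvPolynomial.eval_C] at h2
  rw [h4, h2, MvPolynomial.C_0]

end Pool.Agent.H18.Pr
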