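import Pool.Agent.H18.Pr.Kap

/-!
# Module Strict (PR): division and substitution, and the cost
-/

namespace Pool.Agent.H18.Pr

open Finset Pool.Agent.H18.Ex Pool.Agent.H18.Cub

variable {R : ℕ}

/-- An element of the support with the largest cost. -/
theorem strict_max (e : ℕ) (u : Fin (R + 1)) {G : MvPolynomial (Fin (R + 1)) ℂ}
    {α : Fin (R + 1) →₀ ℕ} (hα : α ∈ G.support) :
    ∃ γ ∈ G.support, ∀ δ ∈ G.support, cost e u δ ≤ cost e u γ :=
  exists_max_image G.support (fun δ => cost e u δ) ⟨α, hα⟩

theorem strict_coe_add (α : Fin (R + 1) →₀ ℕ) (i : Fin (R + 1)) (c : ℕ) :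
    ⇑(α + Finsupp.single i c) = Function.update (⇑α) i (α i + c) := by
  classical
  funext j
  by_cases hj : j = i
  · subst hj
    simp
  · rw [Function.update_of_ne hj, Finsupp.add_apply, Finsupp.single_eq_of_ne hj, add_zero]

/-- Take `α` in the support of `G` with maximal cost.  The coefficient of the product at
`α + e • single u' 1` is `-G.coeff α`, because `α + e • single u' 1 - single u 1` has a larger cost
than `α` (`cost_add_top`, `cost_add_of_ne`, `2 ≤ e`), and its cost is `cost α + e`. -/
theorem strict_S (e : ℕ) (he : 2 ≤ e) (u u' : Fin (R + 1)) (hu : u.val = u'.val + 1)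
    (G : MvPolynomial (Fin (R + 1)) ℂ) (d : ℕ)
    (h : ∀ α : Fin (R + 1) →₀ ℕ,
      α ∈ ((MvPolynomial.X u - MvPolynomial.X u' ^ e) * G).support → cost e u α ≤ d) :
    ∀ α : Fin (R + 1) →₀ ℕ, α ∈ G.support → cost e u α + e ≤ d := by
  classical
  intro α₀ hα₀
  obtain ⟨α, hα, hmax⟩ := strict_max e u hα₀
  have hne : u' ≠ u := by
    intro h'
    rw [h'] at hu
    omega
  have hβ : cost e u (α + Finsupp.single u' e : Fin (R + 1) →₀ ℕ) = cost e u α + e := by
    rw [strict_coe_add, cost_add_of_ne e u u' hne]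
  have hmem : (α + Finsupp.single u' e : Fin (R + 1) →₀ ℕ) ∈
      ((MvPolynomial.X u - MvPolynomial.X u' ^ e) * G).support := by
    rw [MvPolynomial.mem_support_iff, sub_mul, MvPolynomial.coeff_sub,
      MvPolynomial.X_pow_eq_monomial, add_comm α, MvPolynomial.coeff_monomial_mul, one_mul,
      mul_comm (MvPolynomial.X u) G, MvPolynomial.coeff_mul_X']
    have h0 : (if u ∈ (Finsupp.single u' e + α : Fin (R + 1) →₀ ℕ).support then
        MvPolynomial.coeff ((Finsupp.single u' e + α : Fin (R + 1) →₀ ℕ) - Finsupp.single u 1) G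
        else 0) = 0 := by
      split_ifs with hu1
      · by_contra hc
        have hγ : ((Finsupp.single u' e + α : Fin (R + 1) →₀ ℕ) - Finsupp.single u 1) ∈
            G.support := MvPolynomial.mem_support_iff.2 hc
        have h1 := hmax _ hγ
        have h2 : ((Finsupp.single u' e + α : Fin (R + 1) →₀ ℕ) - Finsupp.single u 1) +
            Finsupp.single u 1 = α + Finsupp.single u' e := by
          have h2' : (Finsupp.single u 1 : Fin (R + 1) →₀ ℕ) ≤ Finsupp.single u' e + α := by
            rw [Finsupp.single_le_iff]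
            exact Nat.one_le_iff_ne_zero.2 (Finsupp.mem_support_iff.1 hu1)
          rw [tsub_add_cancel_of_le h2', add_comm (Finsupp.single u' e) α]
        have h3 := cost_add_top e (by omega) u
          (⇑(Finsupp.single u' e + α - Finsupp.single u 1 : Fin (R + 1) →₀ ℕ))
        rw [← strict_coe_add, h2, hβ] at h3
        omega
      · rfl
    rw [h0, zero_sub, neg_ne_zero]
    exact MvPolynomial.mem_support_iff.1 hα
  have h4 := h _ hmem
  rw [hβ] at h4
  have h5 := hmax α₀ hα₀
  omega

/-- Similarly, look at the coefficient of the product at `α + single v 1`. -/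
theorem strict_H (e : ℕ) (u v : Fin (R + 1)) (hv : v ≠ u) (c : ℂ)
    (G : MvPolynomial (Fin (R + 1)) ℂ) (d : ℕ)
    (h : ∀ α : Fin (R + 1) →₀ ℕ,
      α ∈ ((MvPolynomial.X v - MvPolynomial.C c) * G).support → cost e u α ≤ d) :
    ∀ α : Fin (R + 1) →₀ ℕ, α ∈ G.support → cost e u α + 1 ≤ d := by
  classical
  intro α₀ hα₀
  obtain ⟨α, hα, hmax⟩ := strict_max e u hα₀
  have hβ : cost e u (α + Finsupp.single v 1 : Fin (R + 1) →₀ ℕ) = cost e u α + 1 := by
    rw [strict_coe_add, cost_add_of_ne e u v hv]
  have hmem : (α + Finsupp.single v 1 : Fin (R + 1) →₀ ℕ) ∈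
      ((MvPolynomial.X v - MvPolynomial.C c) * G).support := by
    have h0 : MvPolynomial.coeff (α + Finsupp.single v 1 : Fin (R + 1) →₀ ℕ) G = 0 := by
      by_contra hc
      have h1 := hmax _ (MvPolynomial.mem_support_iff.2 hc)
      rw [hβ] at h1
      omega
    rw [MvPolynomial.mem_support_iff, sub_mul, MvPolynomial.coeff_sub, MvPolynomial.coeff_C_mul,
      h0, mul_zero, sub_zero, mul_comm, MvPolynomial.coeff_mul_X]
    exact MvPolynomial.mem_support_iff.1 hα
  have h4 := h _ hmem
  rw [hβ] at h4
  have h5 := hmax α₀ hα₀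
  omega

/-- Monomial substitution. -/
theorem strict_aeval (g : Fin (R + 1) → Fin (R + 1) →₀ ℕ) (b : Fin (R + 1) → ℂ)
    (G : MvPolynomial (Fin (R + 1)) ℂ) :
    ∀ β ∈ (MvPolynomial.aeval (fun i => MvPolynomial.monomial (g i) (b i)) G).support,
      ∃ α ∈ G.support, β = ∑ i, α i • g i := by
  classical
  intro β hβ
  have h1 : ∀ (s : Finset (Fin (R + 1))) (α : Fin (R + 1) → ℕ),
      ∏ i ∈ s, (MvPolynomial.monomial (g i) (b i)) ^ α i =
        MvPolynomial.monomial (∑ i ∈ s, α i • g i) (∏ i ∈ s, b i ^ α i) := by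
    intro s α
    induction s using Finset.induction_on with
    | empty => simp
    | insert i s hi ih =>
      rw [prod_insert hi, sum_insert hi, prod_insert hi, ih, MvPolynomial.monomial_pow,
        MvPolynomial.monomial_mul]
  have h2 : MvPolynomial.aeval (fun i => MvPolynomial.monomial (g i) (b i)) G =
      ∑ α ∈ G.support, MvPolynomial.monomial (∑ i, α i • g i)
        (MvPolynomial.coeff α G * ∏ i, b i ^ α i) := by
    conv_lhs => rw [MvPolynomial.as_sum G]
    rw [map_sum]
    refine sum_congr rfl fun α _ => ?_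
    rw [MvPolynomial.aeval_monomial, Finsupp.prod_fintype _ _ (fun i => pow_zero _), h1,
      MvPolynomial.algebraMap_eq, MvPolynomial.C_mul_monomial]
  rw [h2] at hβ
  have h3 := MvPolynomial.support_sum hβ
  obtain ⟨α, hα, hβα⟩ := mem_biUnion.1 h3
  refine ⟨α, hα, ?_⟩
  exact mem_singleton.1 (MvPolynomial.support_monomial_subset hβα)

theorem sub_S (e : ℕ) (he : 1 ≤ e) (u u' : Fin (R + 1)) (hu : u.val = u'.val + 1)
    (G : MvPolynomial (Fin (R + 1)) ℂ) (d : ℕ) (h : ∀ α ∈ G.support, cost e u α ≤ d) :
    ∀ α ∈ (MvPolynomial.aeval (Function.update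
      (MvPolynomial.X : Fin (R + 1) → MvPolynomial (Fin (R + 1)) ℂ) u
      (MvPolynomial.X u' ^ e)) G).support, cost e u' α ≤ d := by
  classical
  have hf : (Function.update (MvPolynomial.X : Fin (R + 1) → MvPolynomial (Fin (R + 1)) ℂ) u
      (MvPolynomial.X u' ^ e)) = fun i => MvPolynomial.monomial
        (if i = u then Finsupp.single u' e else Finsupp.single i 1) (1 : ℂ) := by
    funext i
    by_cases hi : i = u
    · subst hi
      rw [Function.update_self, if_pos rfl, MvPolynomial.X_pow_eq_monomial]
    · rw [Function.update_of_ne hi, if_neg hi]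
      rfl
  rw [hf]
  intro β hβ
  obtain ⟨α, hα, rfl⟩ := strict_aeval (R := R)
    (fun i => if i = u then Finsupp.single u' e else Finsupp.single i 1) (fun _ => 1) G β hβ
  have hne : u' ≠ u := by
    intro h'
    rw [h'] at hu
    omega
  have h1 : (⇑(∑ i, α i • (if i = u then Finsupp.single u' e else Finsupp.single i 1 :
      Fin (R + 1) →₀ ℕ)) : Fin (R + 1) → ℕ) =
      fun i => if i = u then 0 else if i = u' then α u' + e * α u else α i := by
    funext j
    rw [Finsupp.finsetSum_apply, ← add_sum_erase _ _ (mem_univ u), if_pos rfl]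
    have h2 : ∑ i ∈ univ.erase u, (α i • (if i = u then Finsupp.single u' e else
        Finsupp.single i 1 : Fin (R + 1) →₀ ℕ)) j = if j = u then 0 else α j := by
      have h3 : ∀ i ∈ univ.erase u, (α i • (if i = u then Finsupp.single u' e else
          Finsupp.single i 1 : Fin (R + 1) →₀ ℕ)) j = if i = j then α j else 0 := by
        intro i hi
        rw [if_neg (ne_of_mem_erase hi), Finsupp.smul_apply, Finsupp.single_apply]
        by_cases hij : i = j
        · rw [if_pos hij, if_pos hij, hij, smul_eq_mul, mul_one]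
        · rw [if_neg hij, if_neg hij, smul_zero]
      rw [sum_congr rfl h3, sum_ite_eq' (univ.erase u) j]
      by_cases hj : j = u
      · rw [if_pos hj, if_neg (fun h' => ne_of_mem_erase h' hj)]
      · rw [if_neg hj, if_pos (mem_erase.2 ⟨hj, mem_univ j⟩)]
    rw [h2, Finsupp.smul_apply, Finsupp.single_apply, smul_eq_mul]
    by_cases hju : j = u
    · rw [if_pos hju, if_pos hju, if_neg (fun h' => hne (h'.trans hju)), mul_zero]
    · rw [if_neg hju, if_neg hju]
      by_cases hju' : j = u'
      · rw [if_pos hju'.symm, if_pos hju', hju']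
        ring
      · rw [if_neg (Ne.symm hju'), if_neg hju', mul_zero, zero_add]
  rw [h1]
  exact (cost_subS e he u u' hu α).trans (h α hα)

theorem sub_H (e : ℕ) (u v : Fin (R + 1)) (hv : v ≠ u) (c : ℂ)
    (G : MvPolynomial (Fin (R + 1)) ℂ) (d : ℕ) (h : ∀ α ∈ G.support, cost e u α ≤ d) :
    ∀ α ∈ (MvPolynomial.aeval (Function.update
      (MvPolynomial.X : Fin (R + 1) → MvPolynomial (Fin (R + 1)) ℂ) v
      (MvPolynomial.C c)) G).support, cost e u α ≤ d := by
  classical
  have hf : (Function.update (MvPolynomial.X : Fin (R + 1) → MvPolynomial (Fin (R + 1)) ℂ) v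
      (MvPolynomial.C c)) = fun i => MvPolynomial.monomial
        (if i = v then 0 else Finsupp.single i 1) (if i = v then c else 1) := by
    funext i
    by_cases hi : i = v
    · subst hi
      rw [Function.update_self, if_pos rfl, if_pos rfl]
      rfl
    · rw [Function.update_of_ne hi, if_neg hi, if_neg hi]
      rfl
  rw [hf]
  intro β hβ
  obtain ⟨α, hα, rfl⟩ := strict_aeval (R := R)
    (fun i => if i = v then 0 else Finsupp.single i 1) (fun i => if i = v then c else 1) G β hβ
  have h1 : (⇑(∑ i, α i • (if i = v then 0 else Finsupp.single i 1 :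
      Fin (R + 1) →₀ ℕ)) : Fin (R + 1) → ℕ) = Function.update (⇑α) v 0 := by
    funext j
    rw [Finsupp.finsetSum_apply]
    have h3 : ∀ i ∈ (univ : Finset (Fin (R + 1))), (α i • (if i = v then 0 else
        Finsupp.single i 1 : Fin (R + 1) →₀ ℕ)) j =
        if i = j then (if j = v then 0 else α j) else 0 := by
      intro i _
      by_cases hij : i = j
      · subst hij
        by_cases hi : i = v
        · rw [if_pos hi, if_pos rfl, if_pos hi, smul_zero, Finsupp.zero_apply]
        · rw [if_neg hi, if_pos rfl, if_neg hi, Finsupp.smul_apply, Finsupp.single_eq_same,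
            smul_eq_mul, mul_one]
      · rw [if_neg hij]
        by_cases hi : i = v
        · rw [if_pos hi, smul_zero, Finsupp.zero_apply]
        · rw [if_neg hi, Finsupp.smul_apply, Finsupp.single_apply, if_neg hij, smul_zero]
    rw [sum_congr rfl h3, sum_ite_eq' univ j, if_pos (mem_univ j)]
    by_cases hj : j = v
    · rw [if_pos hj, hj, Function.update_self]
    · rw [if_neg hj, Function.update_of_ne hj]
  rw [h1]
  exact (cost_subH e u v hv α).trans (h α hα)

end Pool.Agent.H18.Pr
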