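import Pool.Agent.H18.Cub.MainS

/-!
# Abstract Horace systems with traces of dimension `n`

As in `Pool.Agent.H18.Cub.Sys`, but the traces have dimension `n`; `tr l a S` says that the points
with multiplicities `S` kill the trace in direction `l` of the space of the state `a`.
-/

namespace Pool.Agent.H18.Pr

open Finset Pool.Agent.H18.Ex Pool.Agent.H18.Cub

/-- An abstract Horace system with traces of dimension `n`. -/
structure SysN (Λ : Type) [Fintype Λ] [DecidableEq Λ] (n : ℕ) : Type where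
  /-- the conditions `S` kill the space of the state `a` -/
  K : (Λ → ℕ) → Multiset (Kind Λ) → Prop
  /-- the size of the trace -/
  F : Λ → (Λ → ℕ) → ℕ
  /-- the virtual dimension -/
  R : (Λ → ℕ) → ℤ
  /-- the points with multiplicities `S` kill the trace -/
  tr : Λ → (Λ → ℕ) → Multiset ℕ → Prop
  mono : ∀ a S S', S ≤ S' → K a S → K a S'
  free_mono : ∀ a (T : Multiset ℕ) (S : Multiset (Kind Λ)), (∀ m ∈ T, 1 ≤ m) →
    K a (Multiset.replicate T.card (Kind.free 1) + S) → K a (T.map Kind.free + S)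
  tr_mono : ∀ l a S S', S ≤ S' → tr l a S → tr l a S'
  count : ∀ a l, 1 ≤ a l → 1 ≤ F l a → R a = R (dn l a) + F l a
  step : ∀ a l, 1 ≤ a l → ∀ μ, 1 ≤ μ → ∀ S : Multiset (Role Λ),
    (∀ k, Role.stay k ∈ S → k.NotAt l) → tr l a (S.map Role.layer) →
    K (dn l a) (S.map (Role.after l μ)) → K a (S.map (Role.before l μ))
  bridge : ∀ a l, 1 ≤ a l → ∀ (S : Multiset (Kind Λ)) (s : ℕ),
    K a (S + Multiset.replicate s (Kind.free 1)) → K (dn l a) (S.map (Kind.dn l)) →
    K a (S + Multiset.replicate s (Kind.forced l 1 1))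
  base : K 0 {Kind.free 1}
  base_R : R 0 = 1

variable {Λ : Type} [Fintype Λ] [DecidableEq Λ] {n : ℕ}

/-- The trace is killed by points of multiplicities at most `M` as soon as the lengths suffice. -/
def SysN.Gd (Y : SysN Λ n) (M : ℕ) (l : Λ) (a : Λ → ℕ) : Prop :=
  ∀ S : Multiset ℕ, (∀ m ∈ S, m ≤ M) → Y.F l a ≤ (S.map (ell n)).sum → Y.tr l a S

end Pool.Agent.H18.Pr
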