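import Pool.Agent.H18.Pr.Space
import Pool.Agent.H18.Pr.FkL
import Pool.Agent.H18.Pr.NumTau2

/-!
# Module SysV (PR): the Horace system of one big point
-/

namespace Pool.Agent.H18.Pr

open Finset Pool.Agent.H18.Ex Pool.Agent.H18.Cub

variable {R : ℕ}

theorem gV_sep (v : Fin (R + 1)) (l : Unit) : (gV v).Sep l := by
  intro l' h
  exact absurd rfl h

private theorem SysV_map_layer {Λ : Type} (S : Multiset (Role Λ)) :
    (S.map fun r => (Kind.free r.layer : Kind Λ)) = (S.map Role.layer).map Kind.free := by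
  rw [Multiset.map_map]
  rfl

private theorem SysV_resid (e : ℕ) (v u : Fin (R + 1)) (hvu : v < u) (p : ℂ) (k : ℕ)
    (a : Unit → ℕ) (l : Unit) : ResW (gV v) l
      (WW e v u p (a ()) (fun _ : Unit => (0 : ℂ)) fun _ => a () - k)
      (WW e v u p (dn l a ()) (fun _ : Unit => (0 : ℂ)) fun _ => dn l a () - k) := by
  have h : dn l a () = a () - 1 := dn_self l a
  rw [h]
  refine WW_residH (gV v) l e v u hvu 0 rfl rfl p (a ()) _ _ _ (fun b _ => ?_) (fun b hb => ?_)
  · omega
  · exact absurd rfl hb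

private theorem SysV_count (A n k : ℕ) (e : ℕ) (hn : 1 ≤ n) (a : ℕ) (ha : 1 ≤ a)
    (hF : 1 ≤ tau e A n a - ell n (a - k)) :
    ((tau e A (n + 1) a : ℕ) : ℤ) - ((ell (n + 1) (a - k) : ℕ) : ℤ) =
      ((tau e A (n + 1) (a - 1) : ℕ) : ℤ) - ((ell (n + 1) (a - 1 - k) : ℕ) : ℤ) +
        ((tau e A n a - ell n (a - k) : ℕ) : ℤ) := by
  obtain ⟨d, rfl⟩ : ∃ d, a = d + 1 := ⟨a - 1, by omega⟩
  have h1 := tau_succ e A n d
  have h2 := ell_succ_sub n (d + 1 - k) hn
  have h3 : d + 1 - 1 - k = d + 1 - k - 1 := by omega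
  rw [h3, h1, h2, Nat.add_sub_cancel]
  omega

/-- The system of one big point.  The state is the degree; the multiplicity is `a - k`. -/
noncomputable def sysV (e : ℕ) (he : 2 ≤ e) (v u : Fin (R + 1)) (hvu : v < u) (p : ℂ) (k : ℕ) :
    SysN Unit (u.val - v.val) where
  K := fun a S => GMP (gV v) (WW e v u p (a ()) (fun _ : Unit => (0 : ℂ)) fun _ => a () - k) S
  F := fun _ a => tau e (R - u.val) (u.val - v.val) (a ()) - ell (u.val - v.val) (a () - k)
  R := fun a => (tau e (R - u.val) (u.val - v.val + 1) (a ()) : ℤ) -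
    ell (u.val - v.val + 1) (a () - k)
  tr := fun l a S => GMP (gV v) (trW (gV v) l
    (WW e v u p (a ()) (fun _ : Unit => (0 : ℂ)) fun _ => a () - k)) (S.map Kind.free)
  mono := fun a S S' h hS => GMP.mono h hS
  free_mono := fun a T S hT h => GMP.free_mono T hT S h
  tr_mono := fun l a S S' h hS => GMP.mono (Multiset.map_le_map h) hS
  count := by
    intro a l ha hF
    have h : dn l a () = a () - 1 := dn_self l a
    change ((tau e (R - u.val) (u.val - v.val + 1) (a ()) : ℕ) : ℤ) -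
      ((ell (u.val - v.val + 1) (a () - k) : ℕ) : ℤ) =
      ((tau e (R - u.val) (u.val - v.val + 1) (dn l a ()) : ℕ) : ℤ) -
      ((ell (u.val - v.val + 1) (dn l a () - k) : ℕ) : ℤ) +
      ((tau e (R - u.val) (u.val - v.val) (a ()) - ell (u.val - v.val) (a () - k) : ℕ) : ℤ)
    rw [h]
    have h1 : v.val < u.val := hvu
    exact SysV_count (R - u.val) (u.val - v.val) k e (by omega) (a ()) ha hF
  step := by
    intro a l ha μ hμ S hS htr h
    have : FiniteDimensional ℂ (WW e v u p (a ()) (fun _ : Unit => (0 : ℂ)) fun _ => a () - k) :=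
      WW_finite e (by omega) v u p _ _ _
    have : FiniteDimensional ℂ (WW e v u p (dn l a ()) (fun _ : Unit => (0 : ℂ))
      fun _ => dn l a () - k) := WW_finite e (by omega) v u p _ _ _
    refine GMP.step (gV v) l (gV_sep v l) _ _ (SysV_resid e v u hvu p k a l) μ hμ S hS ?_ h
    rw [SysV_map_layer]
    exact htr
  bridge := by
    intro a l ha S s h1 h2
    have : FiniteDimensional ℂ (WW e v u p (a ()) (fun _ : Unit => (0 : ℂ)) fun _ => a () - k) :=
      WW_finite e (by omega) v u p _ _ _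
    have : FiniteDimensional ℂ (WW e v u p (dn l a ()) (fun _ : Unit => (0 : ℂ))
      fun _ => dn l a () - k) := WW_finite e (by omega) v u p _ _ _
    exact GMP.bridge (gV v) l (gV_sep v l) _ _ (SysV_resid e v u hvu p k a l) S s h1 h2
  base := WW_base (gV v) e (by omega) v u p _ _
  base_R := by
    change ((tau e (R - u.val) (u.val - v.val + 1) 0 : ℕ) : ℤ) -
      ((ell (u.val - v.val + 1) (0 - k) : ℕ) : ℤ) = 1
    rw [tau_zero_right e _ _ (by omega), Nat.zero_sub, ell_zero (by omega)]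
    norm_num

theorem sysV_tr (e : ℕ) (he : 2 ≤ e) (v v' u : Fin (R + 1)) (hvu : v < u)
    (hv : v'.val = v.val + 1) (q k : ℕ) (a : Unit → ℕ) (S : Multiset ℕ)
    (h : Fk (WW e v' u (((q ^ e : ℕ) : ℂ)) (a ()) (fun _ : Unit => (0 : ℂ)) fun _ => a () - k) S) :
    (sysV e he v u hvu (q : ℂ) k).tr () a S := by
  have h1 : v'.val ≤ u.val := by
    have : v.val < u.val := hvu
    omega
  have h2 := WW_traceH (gV v) () e v v' u hv h1 0 rfl rfl (q : ℂ) (a ())
    (fun _ : Unit => (0 : ℂ)) (fun _ => a () - k) () rfl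
  have h3 : ((0 : ℂ) + (q : ℂ)) ^ e = ((q ^ e : ℕ) : ℂ) := by
    push_cast
    ring
  rw [h3] at h2
  exact (Fk_iff (gV v) _ S).1 (Fk.anti h2 h)

end Pool.Agent.H18.Pr
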